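import Mathlib
import Pool.Agent.Lib_MP_8b82cd_ag.Defs
import Pool.Agent.Lib_MP_8b82cd_ag.Basic

/-!
# Weak Lefschetz property of `T_{3,d,k}`: a sign argument

Modulo the sum of the variables, and dehomogenized, `x_1^(dq_1 + m) x_2^… x_3^(d q_3)` becomes, up
to sign, `X^(j d + m) (1 + X)^((k - i) d)`, with `i = k - q_3`, `j = q_2`. The families of such
polynomials are built in `k` rounds: adjoin the monomials `X^(j d + m)` (round `i`), multiply
everything by `(1 + X)^d`. All Plücker coordinates keep one sign.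
-/

namespace Pool.Agent.Lib_MP_8b82cd_t

open Polynomial Finset

/-- labels `(i, j, m)`: round, index in the round, offset -/
abbrev Lab := ℕ × ℕ × ℕ

/-- the coordinate at the positions `a` of the wedge product of the coefficient vectors `v i` -/
noncomputable def pl {r : ℕ} (v : Fin r → ℤ[X]) (a : Fin r → ℕ) : ℤ :=
  Matrix.det (Matrix.of fun i j => (v i).coeff (a j))

/-- all the maximal minors (at increasing positions) of the family `w` on the label set `I` have
one sign, and the one at the set of positions `A` is nonzero -/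
def Q (I : Finset Lab) (w : Lab → ℤ[X]) (A : Finset ℕ) : Prop :=
  ∃ (r : ℕ) (e : Fin r → Lab) (a : Fin r → ℕ) (ε : ℤ),
    Function.Injective e ∧ univ.image e = I ∧ StrictMono a ∧ univ.image a = A ∧
    (ε = 1 ∨ ε = -1) ∧ (∀ b : Fin r → ℕ, StrictMono b → 0 ≤ ε * pl (w ∘ e) b) ∧
    0 < ε * pl (w ∘ e) a

/-- the minor of the family `w` on the label set `I` at the set of positions `A` is nonzero -/
def NZ (I : Finset Lab) (w : Lab → ℤ[X]) (A : Finset ℕ) : Prop :=
  ∃ (r : ℕ) (e : Fin r → Lab) (a : Fin r → ℕ),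
    Function.Injective e ∧ univ.image e = I ∧ Function.Injective a ∧ univ.image a = A ∧
    pl (w ∘ e) a ≠ 0

/-- `B` arises from `A` by an increasing map that moves each point up by at most `m` -/
def Mv (m : ℕ) (A B : Finset ℕ) : Prop :=
  ∃ φ : ℕ → ℕ, StrictMonoOn φ (A : Set ℕ) ∧ A.image φ = B ∧ ∀ x ∈ A, x ≤ φ x ∧ φ x ≤ x + m

/-- the labels `(i, j, m)` with `m < c` -/
def Bl (i j c : ℕ) : Finset Lab := (range c).image fun m => (i, j, m)

/-- the labels `(i, j, m)` with `i < t`, `j ≤ i`, `m < c i j` -/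
def Jl (c : ℕ → ℕ → ℕ) (t : ℕ) : Finset Lab :=
  (range t).biUnion fun i => (range (i + 1)).biUnion fun j => Bl i j (c i j)

/-- the polynomial of a label at time `t` -/
noncomputable def W (d t : ℕ) (l : Lab) : ℤ[X] := X ^ (l.2.1 * d + l.2.2) * (1 + X) ^ ((t - l.1) * d)

/-- the position set of round `t`, after adjoining the new monomials -/
def As (d : ℕ) (c x y : ℕ → ℕ → ℕ) (t : ℕ) : Finset ℕ :=
  (range (t + 1)).biUnion fun j => Ico (j * d - x t j) (j * d + c t j + y t j)

/-- the position set of round `t`, before adjoining the new monomials -/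
def Bs (d : ℕ) (c x y : ℕ → ℕ → ℕ) (t : ℕ) : Finset ℕ :=
  (range t).biUnion fun j =>
    Ico (j * d + c t j) (j * d + c t j + y t j) ∪ Ico ((j + 1) * d - x t (j + 1)) ((j + 1) * d)

/-- in round `t` there are `t + 1` clusters of positions; the `j`-th one is `x t j` positions below
`j d`, the new ones `j d, …, j d + c t j - 1`, and `y t j` positions above these -/
structure Flow (d k : ℕ) (c x y : ℕ → ℕ → ℕ) : Prop where
  x0 : ∀ t ≤ k, x t 0 = 0
  yt : ∀ t ≤ k, y t t = 0
  bal : ∀ t < k, ∀ j ≤ t, x (t + 1) (j + 1) + y (t + 1) j = x t j + c t j + y t j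
  cap : ∀ t < k, ∀ j ≤ t, x t j + c t j + y t j + c (t + 1) j ≤ d
  even : ∀ t < k, ∀ j, 1 ≤ j → j < t → Even (c t j)
  right : ∀ t < k, 1 ≤ t → Even (c t t) ∨ ∀ s ≤ t, c s s ≤ c t t

/-- all labels `(i, j, m)`, `j ≤ i ≤ k`, `m < u` -/
def Lb (k u : ℕ) : Finset Lab := Jl (fun _ _ => u) (k + 1)

/-- the polynomial of a label over `ℂ` -/
noncomputable def WC (d k : ℕ) (l : Lab) : ℂ[X] := (W d k l).map (Int.castRingHom ℂ)

/-- the polynomials of all labels are linearly independent -/
def Indep (d k u : ℕ) : Prop :=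
  ∀ α : Lab → ℂ, ∑ l ∈ Lb k u, C (α l) * WC d k l = 0 → ∀ l ∈ Lb k u, α l = 0

/-- the polynomials of all labels span the polynomials of degree less than `k d + u` -/
def Spans (d k u : ℕ) : Prop :=
  ∀ g : ℂ[X], g.degree < (k * d + u : ℕ) → ∃ α : Lab → ℂ, ∑ l ∈ Lb k u, C (α l) * WC d k l = g

end Pool.Agent.Lib_MP_8b82cd_t
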