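import Mathlib
import Pool.Agent.Lib_MP_8b82cd_t.Defs3

/-! Expansion along a monomial row, and enumerations of finite sets. -/

namespace Pool.Agent.Lib_MP_8b82cd_t

open Polynomial Finset

/-- `Matrix.det_succ_row` at `Fin.last r`: only the column `p` contributes -/
theorem pl_snoc {r : ℕ} (v : Fin r → ℤ[X]) (s : ℕ) (b : Fin (r + 1) → ℕ)
    (hb : Function.Injective b) (p : Fin (r + 1)) (hp : b p = s) :
    pl (Fin.snoc (α := fun _ => ℤ[X]) v (X ^ s)) b = (-1) ^ (r + p.val) * pl v (b ∘ p.succAbove) := by
  unfold pl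
  rw [Matrix.det_succ_row _ (Fin.last r), Finset.sum_eq_single p]
  · have h1 : (Matrix.of fun i j =>
        ((Fin.snoc (α := fun _ => ℤ[X]) v (X ^ s) : Fin (r + 1) → ℤ[X]) i).coeff (b j))
        (Fin.last r) p = 1 := by
      simp [hp]
    have h2 : (Matrix.of fun i j =>
        ((Fin.snoc (α := fun _ => ℤ[X]) v (X ^ s) : Fin (r + 1) → ℤ[X]) i).coeff (b j)).submatrix
        (Fin.last r).succAbove p.succAbove =
        Matrix.of fun i j => (v i).coeff ((b ∘ p.succAbove) j) := by
      ext i j
      simp
    rw [h1, h2, mul_one, Fin.val_last]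
  · intro j _ hj
    have h1 : (Matrix.of fun i j =>
        ((Fin.snoc (α := fun _ => ℤ[X]) v (X ^ s) : Fin (r + 1) → ℤ[X]) i).coeff (b j))
        (Fin.last r) j = 0 := by
      have : b j ≠ s := fun h => hj (hb (h.trans hp.symm))
      simp [coeff_X_pow, this]
    rw [h1, mul_zero, zero_mul]
  · intro h
    exact absurd (mem_univ p) h

theorem pl_snoc_zero {r : ℕ} (v : Fin r → ℤ[X]) (s : ℕ) (b : Fin (r + 1) → ℕ)
    (hp : ∀ p, b p ≠ s) : pl (Fin.snoc (α := fun _ => ℤ[X]) v (X ^ s)) b = 0 := by
  unfold pl
  refine Matrix.det_eq_zero_of_row_eq_zero (Fin.last r) fun j => ?_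
  simp [coeff_X_pow, hp j]

theorem exists_enum (A : Finset ℕ) : ∃ a : Fin A.card → ℕ, StrictMono a ∧ univ.image a = A := by
  refine ⟨A.orderEmbOfFin rfl, (A.orderEmbOfFin rfl).strictMono, ?_⟩
  rw [← Finset.coe_inj, Finset.coe_image, Finset.coe_univ, Set.image_univ,
    Finset.range_orderEmbOfFin]

theorem enum_unique {r : ℕ} {a a' : Fin r → ℕ} (ha : StrictMono a) (ha' : StrictMono a')
    (h : univ.image a = univ.image a') : a = a' := by
  rw [← StrictMono.range_inj ha ha']
  rw [← Finset.coe_inj, Finset.coe_image, Finset.coe_image, Finset.coe_univ, Set.image_univ,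
    Set.image_univ] at h
  exact h

/-- enumeration of `insert s A`: removing the index `p` of `s` gives the enumeration of `A`,
and `p` is the number of elements of `A` below `s` -/
theorem enum_insert {r : ℕ} {a : Fin r → ℕ} {s : ℕ} (ha : StrictMono a)
    (hs : s ∉ univ.image a) : ∃ (a' : Fin (r + 1) → ℕ) (p : Fin (r + 1)), StrictMono a' ∧
      univ.image a' = insert s (univ.image a) ∧ a' p = s ∧ a' ∘ p.succAbove = a ∧
      p.val = ((univ.image a).filter (· < s)).card := by
  have hc : (insert s (univ.image a)).card = r + 1 := by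
    rw [Finset.card_insert_of_notMem hs, Finset.card_image_of_injective _ ha.injective]
    simp
  set A' := insert s (univ.image a) with hA'
  have hmono := (A'.orderEmbOfFin hc).strictMono
  have himg : univ.image (A'.orderEmbOfFin hc) = A' := by
    rw [← Finset.coe_inj, Finset.coe_image, Finset.coe_univ, Set.image_univ,
      Finset.range_orderEmbOfFin]
  have hsA : s ∈ univ.image (A'.orderEmbOfFin hc) := by
    rw [himg]
    exact Finset.mem_insert_self _ _
  obtain ⟨p, -, hp⟩ := Finset.mem_image.1 hsA
  have hcomp : StrictMono ((A'.orderEmbOfFin hc) ∘ p.succAbove) :=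
    hmono.comp (Fin.strictMono_succAbove p)
  have himg2 : univ.image ((A'.orderEmbOfFin hc) ∘ p.succAbove) = univ.image a := by
    ext y
    constructor
    · intro hy
      obtain ⟨i, -, hi⟩ := Finset.mem_image.1 hy
      have h1 : y ∈ A' := by
        rw [← himg]
        exact Finset.mem_image.2 ⟨_, mem_univ _, hi⟩
      rcases Finset.mem_insert.1 h1 with h2 | h2
      · exfalso
        have h3 : (A'.orderEmbOfFin hc) (p.succAbove i) = (A'.orderEmbOfFin hc) p := by
          rw [hp, ← h2]
          exact hi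
        exact Fin.succAbove_ne p i (hmono.injective h3)
      · exact h2
    · intro hy
      have h1 : y ∈ univ.image (A'.orderEmbOfFin hc) := by
        rw [himg]
        exact Finset.mem_insert_of_mem hy
      obtain ⟨i, -, hi⟩ := Finset.mem_image.1 h1
      have h2 : i ≠ p := by
        rintro rfl
        rw [hp] at hi
        rw [hi] at hs
        exact hs hy
      obtain ⟨j, hj⟩ := Fin.exists_succAbove_eq h2
      exact Finset.mem_image.2 ⟨j, mem_univ _, by rw [Function.comp_apply, hj, hi]⟩
  refine ⟨A'.orderEmbOfFin hc, p, hmono, himg, hp, enum_unique hcomp ha himg2, ?_⟩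
  have h1 : (univ.image a).filter (· < s) = (Finset.Iio p).image (A'.orderEmbOfFin hc) := by
    ext y
    constructor
    · intro hy
      obtain ⟨hy1, hy2⟩ := Finset.mem_filter.1 hy
      have h1 : y ∈ univ.image (A'.orderEmbOfFin hc) := by
        rw [himg]
        exact Finset.mem_insert_of_mem hy1
      obtain ⟨i, -, hi⟩ := Finset.mem_image.1 h1
      refine Finset.mem_image.2 ⟨i, ?_, hi⟩
      rw [Finset.mem_Iio, ← hmono.lt_iff_lt, hi, hp]
      exact hy2
    · intro hy
      obtain ⟨i, hi1, hi2⟩ := Finset.mem_image.1 hy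
      rw [Finset.mem_Iio, ← hmono.lt_iff_lt, hi2, hp] at hi1
      refine Finset.mem_filter.2 ⟨?_, hi1⟩
      have h2 : y ∈ A' := by
        rw [← himg]
        exact Finset.mem_image.2 ⟨i, mem_univ _, hi2⟩
      exact (Finset.mem_insert.1 h2).resolve_left (ne_of_lt hi1)
  rw [h1, Finset.card_image_of_injective _ hmono.injective, Fin.card_Iio]

end Pool.Agent.Lib_MP_8b82cd_t
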