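import Mathlib
import Pool.Agent.Lib_MP_8b82cd_t.Exp

/-! Adjoining two adjacent monomials. -/

namespace Pool.Agent.Lib_MP_8b82cd_t

open Polynomial Finset

/-- the minor of the family with two adjacent monomials adjoined -/
private lemma pair_pl {r : ℕ} (v : Fin r → ℤ[X]) (s : ℕ) {b : Fin (r + 1 + 1) → ℕ}
    (hb : StrictMono b) {p : Fin (r + 1 + 1)} {p' : Fin (r + 1)} (hp : b p = s + 1)
    (hp' : b (p.succAbove p') = s) :
    pl (Fin.snoc (α := fun _ => ℤ[X]) (Fin.snoc (α := fun _ => ℤ[X]) v (X ^ s)) (X ^ (s + 1))) b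
      = pl v (fun i => b (p.succAbove (p'.succAbove i))) := by
  have h1 := pl_snoc (Fin.snoc (α := fun _ => ℤ[X]) v (X ^ s)) (s + 1) b hb.injective p hp
  have hinj : Function.Injective (b ∘ p.succAbove) :=
    hb.injective.comp Fin.succAbove_right_injective
  have h2 := pl_snoc v s (b ∘ p.succAbove) hinj p' hp'
  rw [h1, h2]
  have hlt : p.succAbove p' < p := by
    rw [← hb.lt_iff_lt, hp, hp']
    exact Nat.lt_succ_self s
  have hlt' : p'.castSucc < p := by
    by_contra hcon
    rw [Fin.succAbove_of_le_castSucc _ _ (not_lt.1 hcon)] at hlt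
    have h3 : p'.castSucc < p'.succ := Fin.castSucc_lt_succ
    exact hcon (h3.trans hlt)
  have hsa : p.succAbove p' = p'.castSucc := Fin.succAbove_of_castSucc_lt _ _ hlt'
  have hval : p.val = p'.val + 1 := by
    have h3 : p'.val < p.val := by
      have := Fin.lt_def.1 hlt'
      simpa using this
    by_contra hne
    have h4 : p'.val + 1 < p.val := by omega
    have h5 : p'.succ < p := by
      rw [Fin.lt_def]
      simpa using h4
    have h6 := hb h5
    have h7 := hb (show p'.castSucc < p'.succ from Fin.castSucc_lt_succ)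
    rw [hp] at h6
    rw [hsa] at hp'
    omega
  have hsign : (-1 : ℤ) ^ (r + 1 + p.val) * (-1) ^ (r + p'.val) = 1 := by
    rw [← pow_add]
    apply Even.neg_one_pow
    rw [hval]
    exact ⟨r + 1 + p'.val, by ring⟩
  rw [← mul_assoc, hsign, one_mul]
  rfl

private lemma image_snoc' {r : ℕ} (e : Fin r → Lab) (l : Lab) :
    univ.image (Fin.snoc (α := fun _ => Lab) e l) = insert l (univ.image e) := by
  ext z
  simp only [mem_image, mem_univ, true_and, mem_insert]
  constructor
  · rintro ⟨i, rfl⟩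
    induction i using Fin.lastCases with
    | last => left; exact Fin.snoc_last _ _
    | cast i => right; exact ⟨i, (Fin.snoc_castSucc (α := fun _ => Lab) _ _ _).symm⟩
  · rintro (rfl | ⟨i, rfl⟩)
    · exact ⟨Fin.last r, Fin.snoc_last _ _⟩
    · exact ⟨i.castSucc, Fin.snoc_castSucc (α := fun _ => Lab) _ _ _⟩

private lemma inj_snoc' {r : ℕ} {e : Fin r → Lab} {l : Lab} (he : Function.Injective e)
    (hl : l ∉ univ.image e) : Function.Injective (Fin.snoc (α := fun _ => Lab) e l) := by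
  rw [Fin.snoc_injective_iff]
  refine ⟨he, fun h => hl ?_⟩
  obtain ⟨i, hi⟩ := h
  exact mem_image.2 ⟨i, mem_univ _, hi⟩

/-- PIECE Pair. Two expansions (`pl_snoc`); when both `s` and `s + 1` are among the positions `b`,
their indices are adjacent, so that the total sign is `+`; otherwise the minor is `0`. -/
theorem Q.pair {I : Finset Lab} {w : Lab → ℤ[X]} {A : Finset ℕ} {l l' : Lab} {s : ℕ}
    (hQ : Q I w A) (hl : l ∉ I) (hl' : l' ∉ I) (hll : l ≠ l') (hw : w l = X ^ s)
    (hw' : w l' = X ^ (s + 1)) (hs : s ∉ A) (hs' : s + 1 ∉ A) :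
    Q (insert l' (insert l I)) w (insert (s + 1) (insert s A)) := by
  obtain ⟨r, e, a, ε, he, heI, ha, haA, hε, hpos, hnz⟩ := hQ
  subst heI
  subst haA
  obtain ⟨a₁, p₁, ha₁, him₁, hp₁, hcomp₁, -⟩ := enum_insert ha hs
  have hs1 : s + 1 ∉ univ.image a₁ := by
    rw [him₁, mem_insert, not_or]
    exact ⟨Nat.succ_ne_self s, hs'⟩
  obtain ⟨a₂, p₂, ha₂, him₂, hp₂, hcomp₂, -⟩ := enum_insert ha₁ hs1
  have hw1 : w ∘ (Fin.snoc (α := fun _ => Lab) (Fin.snoc (α := fun _ => Lab) e l) l') =
      Fin.snoc (α := fun _ => ℤ[X]) (Fin.snoc (α := fun _ => ℤ[X]) (w ∘ e) (X ^ s))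
        (X ^ (s + 1)) := by
    rw [Fin.comp_snoc, Fin.comp_snoc, hw, hw']
  refine ⟨r + 1 + 1, Fin.snoc (α := fun _ => Lab) (Fin.snoc (α := fun _ => Lab) e l) l', a₂, ε,
    ?_, ?_, ha₂, ?_, hε, ?_, ?_⟩
  · refine inj_snoc' (inj_snoc' he hl) ?_
    rw [image_snoc', mem_insert, not_or]
    exact ⟨hll.symm, hl'⟩
  · rw [image_snoc', image_snoc']
  · rw [him₂, him₁]
  · intro b hb
    rw [hw1]
    by_cases h1 : ∃ p, b p = s + 1
    · obtain ⟨p, hp⟩ := h1
      by_cases h2 : ∃ p', b (p.succAbove p') = s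
      · obtain ⟨p', hp'⟩ := h2
        rw [pair_pl (w ∘ e) s hb hp hp']
        refine hpos _ ?_
        exact hb.comp ((Fin.strictMono_succAbove p).comp (Fin.strictMono_succAbove p'))
      · push Not at h2
        rw [pl_snoc _ _ b hb.injective p hp, pl_snoc_zero (w ∘ e) s (b ∘ p.succAbove) h2,
          mul_zero, mul_zero]
    · push Not at h1
      rw [pl_snoc_zero _ _ _ h1, mul_zero]
  · rw [hw1]
    have h3 : a₂ (p₂.succAbove p₁) = s := by
      have := congrFun hcomp₂ p₁
      simp only [Function.comp_apply] at this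
      rw [this, hp₁]
    rw [pair_pl (w ∘ e) s ha₂ hp₂ h3]
    have h4 : (fun i => a₂ (p₂.succAbove (p₁.succAbove i))) = a := by
      funext i
      have h5 := congrFun hcomp₂ (p₁.succAbove i)
      have h6 := congrFun hcomp₁ i
      simp only [Function.comp_apply] at h5 h6
      rw [h5, h6]
    rw [h4]
    exact hnz

end Pool.Agent.Lib_MP_8b82cd_t
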