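import Mathlib
import Pool.Agent.Lib_MP_8b82cd_t.Exp

/-! Adjoining one monomial at the lowest or highest position. -/

namespace Pool.Agent.Lib_MP_8b82cd_t

open Polynomial Finset

private theorem image_snoc {α : Type} [DecidableEq α] {r : ℕ} (e : Fin r → α) (l : α) :
    univ.image (Fin.snoc (α := fun _ => α) e l) = insert l (univ.image e) := by
  ext x
  simp only [mem_image, mem_univ, true_and, mem_insert, Fin.exists_fin_succ', Fin.snoc_castSucc,
    Fin.snoc_last]
  tauto

private theorem snoc_inj {α : Type} [DecidableEq α] {r : ℕ} {e : Fin r → α} {l : α}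
    (he : Function.Injective e) (hl : l ∉ univ.image e) :
    Function.Injective (Fin.snoc (α := fun _ => α) e l) := by
  refine Fin.snoc_injective_of_injective he ?_
  rintro ⟨i, hi⟩
  exact hl (mem_image.2 ⟨i, mem_univ _, hi⟩)

private theorem comp_snoc' {r : ℕ} (w : Lab → ℤ[X]) (e : Fin r → Lab) (l : Lab) :
    w ∘ (Fin.snoc (α := fun _ => Lab) e l) = Fin.snoc (α := fun _ => ℤ[X]) (w ∘ e) (w l) :=
  Fin.comp_snoc w e l

private theorem pl_zero {r : ℕ} (v : Fin r → ℤ[X]) (b : Fin r → ℕ) (j : Fin r)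
    (h : ∀ i, (v i).coeff (b j) = 0) : pl v b = 0 :=
  Matrix.det_eq_zero_of_column_eq_zero j h

private theorem sq_sign (r : ℕ) : ((-1 : ℤ) ^ r) * (-1) ^ r = 1 := by
  rw [← mul_pow]
  norm_num

/-- PIECE Single. `0` is the lowest position of all: its index is `0` and the sign is `(-1)^r`. -/
theorem Q.min {I : Finset Lab} {w : Lab → ℤ[X]} {A : Finset ℕ} {l : Lab}
    (hQ : Q I w A) (hl : l ∉ I) (hw : w l = X ^ 0) (hs : 0 ∉ A) :
    Q (insert l I) w (insert 0 A) := by
  obtain ⟨r, e, a, ε, he, hI, ha, hA, hε, hnn, hpos⟩ := hQ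
  subst hI hA
  obtain ⟨a', p, ha', himg, hp, hcomp, hval⟩ := enum_insert ha hs
  have hp0 : p.val = 0 := by
    rw [hval, card_eq_zero, filter_eq_empty_iff]
    intro x _
    omega
  refine ⟨r + 1, Fin.snoc (α := fun _ => Lab) e l, a', ε * (-1) ^ r, snoc_inj he hl,
    image_snoc e l, ha', himg, ?_, ?_, ?_⟩
  · rcases hε with rfl | rfl <;> rcases neg_one_pow_eq_or ℤ r with h | h <;> rw [h] <;> simp
  · intro b hb
    rw [comp_snoc', hw]
    by_cases h : ∃ q, b q = 0
    · obtain ⟨q, hq⟩ := h
      have hq0 : q = 0 := by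
        by_contra hne
        have h1 : (0 : Fin (r + 1)) < q := Fin.pos_iff_ne_zero.2 hne
        have h2 := hb h1
        omega
      rw [pl_snoc _ _ _ hb.injective q hq, hq0]
      have h1 := hnn (b ∘ (0 : Fin (r + 1)).succAbove) (hb.comp (Fin.strictMono_succAbove 0))
      have h2 := sq_sign r
      have h3 : ε * (-1) ^ r * ((-1) ^ (r + (0 : Fin (r + 1)).val) *
          pl (w ∘ e) (b ∘ (0 : Fin (r + 1)).succAbove)) =
          ((-1 : ℤ) ^ r * (-1) ^ r) * (ε * pl (w ∘ e) (b ∘ (0 : Fin (r + 1)).succAbove)) := by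
        rw [Fin.val_zero, add_zero]
        ring
      rw [h3, h2, one_mul]
      exact h1
    · push Not at h
      rw [pl_snoc_zero _ _ _ h, mul_zero]
  · rw [comp_snoc', hw, pl_snoc _ _ _ ha'.injective p hp, hp0, add_zero, hcomp]
    have h2 := sq_sign r
    have h3 : ε * (-1) ^ r * ((-1) ^ r * pl (w ∘ e) a) =
        ((-1 : ℤ) ^ r * (-1) ^ r) * (ε * pl (w ∘ e) a) := by ring
    rw [h3, h2, one_mul]
    exact hpos

/-- all the old polynomials have degree at most `s`, so a nonzero minor has `s` as its last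
position: the sign is `+` (a minor with a position above `s` has, after the expansion, a zero
column) -/
theorem Q.max {I : Finset Lab} {w : Lab → ℤ[X]} {A : Finset ℕ} {l : Lab} {s : ℕ}
    (hQ : Q I w A) (hl : l ∉ I) (hw : w l = X ^ s) (hd : ∀ l' ∈ I, (w l').natDegree ≤ s)
    (hs : s ∉ A) : Q (insert l I) w (insert s A) := by
  obtain ⟨r, e, a, ε, he, hI, ha, hA, hε, hnn, hpos⟩ := hQ
  subst hI hA
  obtain ⟨a', p, ha', himg, hp, hcomp, hval⟩ := enum_insert ha hs
  have hzero : ∀ (b : Fin r → ℕ) (j : Fin r), s < b j → pl (w ∘ e) b = 0 := by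
    intro b j hj
    refine pl_zero _ _ j fun i => ?_
    exact coeff_eq_zero_of_natDegree_lt
      (lt_of_le_of_lt (hd (e i) (mem_image.2 ⟨i, mem_univ _, rfl⟩)) hj)
  have hlast : ∀ q : Fin (r + 1), q.val = r → (-1 : ℤ) ^ (r + q.val) = 1 := by
    intro q hq
    rw [hq, pow_add]
    exact sq_sign r
  have hpr : p.val = r := by
    have hall : (univ.image a).filter (· < s) = univ.image a := by
      rw [filter_eq_self]
      intro x hx
      obtain ⟨j, -, rfl⟩ := mem_image.1 hx
      by_contra hcon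
      have h1 : a j ≠ s := by
        intro h
        exact hs (h ▸ hx)
      rw [hzero a j (by omega)] at hpos
      simp at hpos
    rw [hval, hall, card_image_of_injective _ ha.injective, card_univ, Fintype.card_fin]
  refine ⟨r + 1, Fin.snoc (α := fun _ => Lab) e l, a', ε, snoc_inj he hl,
    image_snoc e l, ha', himg, hε, ?_, ?_⟩
  · intro b hb
    rw [comp_snoc', hw]
    by_cases h : ∃ q, b q = s
    · obtain ⟨q, hq⟩ := h
      rw [pl_snoc _ _ _ hb.injective q hq]
      by_cases hqr : q.val = r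
      · rw [hlast q hqr, one_mul]
        exact hnn _ (hb.comp (Fin.strictMono_succAbove q))
      · have hlt : q.val < r := by
          have := q.2
          omega
        have h0 : 0 < r := by omega
        have h1 : s < (b ∘ q.succAbove) ⟨r - 1, by omega⟩ := by
          rw [← hq]
          apply hb
          rw [Fin.lt_succAbove_iff_le_castSucc, Fin.le_def]
          simp only [Fin.val_castSucc]
          omega
        rw [hzero _ _ h1]
        simp
    · push Not at h
      rw [pl_snoc_zero _ _ _ h, mul_zero]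
  · rw [comp_snoc', hw, pl_snoc _ _ _ ha'.injective p hp, hlast p hpr, one_mul, hcomp]
    exact hpos

theorem NZ.add {I : Finset Lab} {w : Lab → ℤ[X]} {A : Finset ℕ} {l : Lab} {s : ℕ}
    (hQ : NZ I w A) (hl : l ∉ I) (hw : w l = X ^ s) (hs : s ∉ A) :
    NZ (insert l I) w (insert s A) := by
  obtain ⟨r, e, a, he, hI, ha, hA, hne⟩ := hQ
  subst hI hA
  have hinj : Function.Injective (Fin.snoc (α := fun _ => ℕ) a s) := snoc_inj ha hs
  refine ⟨r + 1, Fin.snoc (α := fun _ => Lab) e l, Fin.snoc (α := fun _ => ℕ) a s,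
    snoc_inj he hl, image_snoc e l, hinj, image_snoc a s, ?_⟩
  rw [comp_snoc', hw, pl_snoc _ _ _ hinj (Fin.last r) (Fin.snoc_last _ _), Fin.succAbove_last]
  have h1 : (Fin.snoc (α := fun _ => ℕ) a s) ∘ Fin.castSucc = a := by
    funext i
    exact Fin.snoc_castSucc _ _ _
  rw [h1]
  refine mul_ne_zero (pow_ne_zero _ (by norm_num)) hne

end Pool.Agent.Lib_MP_8b82cd_t
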