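import Mathlib
import Pool.Agent.Lib_MP_8b82cd_t.Pair
import Pool.Agent.Lib_MP_8b82cd_t.Single

/-! Adjoining a block of adjacent monomials. -/

namespace Pool.Agent.Lib_MP_8b82cd_t

open Polynomial Finset

/-- the labels `(i, j, m)` with `m` in an interval, one more -/
private theorem blk_succ (i j o m : ℕ) : (Ico o (o + (m + 1))).image (fun m => ((i, j, m) : Lab)) =
    insert (i, j, o + m) ((Ico o (o + m)).image fun m => ((i, j, m) : Lab)) := by
  ext l
  simp only [mem_image, mem_Ico, mem_insert]
  constructor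
  · rintro ⟨x, ⟨h1, h2⟩, rfl⟩
    rcases Nat.lt_or_ge x (o + m) with h | h
    · exact Or.inr ⟨x, ⟨h1, h⟩, rfl⟩
    · left
      have : x = o + m := by omega
      rw [this]
  · rintro (rfl | ⟨x, ⟨h1, h2⟩, rfl⟩)
    · exact ⟨o + m, ⟨by omega, by omega⟩, rfl⟩
    · exact ⟨x, ⟨h1, by omega⟩, rfl⟩

/-- one more position -/
private theorem ico_succ (s m : ℕ) : Ico s (s + (m + 1)) = insert (s + m) (Ico s (s + m)) := by
  ext x
  simp only [mem_Ico, mem_insert]
  omega

private theorem bl_eq (i j c : ℕ) : Bl i j c = (Ico 0 (0 + c)).image fun m => ((i, j, m) : Lab) := by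
  unfold Bl
  rw [zero_add, range_eq_Ico]

/-- `p` pairs of labels and positions -/
private theorem q_pairs {I : Finset Lab} {w : Lab → ℤ[X]} {A : Finset ℕ} {i j : ℕ}
    (hQ : Q I w A) (o s p : ℕ) (hI : ∀ m < 2 * p, (i, j, o + m) ∉ I)
    (hw : ∀ m < 2 * p, w (i, j, o + m) = X ^ (s + m)) (hA : ∀ m < 2 * p, s + m ∉ A) :
    Q (I ∪ (Ico o (o + 2 * p)).image fun m => ((i, j, m) : Lab)) w (A ∪ Ico s (s + 2 * p)) := by
  induction p with
  | zero => simpa using hQ
  | succ p ih =>
    have h1 := ih (fun m hm => hI m (by omega)) (fun m hm => hw m (by omega))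
      (fun m hm => hA m (by omega))
    have e1 : 2 * (p + 1) = 2 * p + 1 + 1 := by ring
    rw [e1, blk_succ, blk_succ, ico_succ s (2 * p + 1), ico_succ s (2 * p), union_insert,
      union_insert, union_insert, union_insert]
    have hn : ∀ m, 2 * p ≤ m → m < 2 * (p + 1) →
        (i, j, o + m) ∉ I ∪ (Ico o (o + 2 * p)).image fun m => ((i, j, m) : Lab) := by
      intro m h2 h3
      rw [mem_union, not_or]
      refine ⟨hI m h3, ?_⟩
      simp only [mem_image, mem_Ico, Prod.mk.injEq, true_and, not_exists, not_and]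
      intro x hx hx'
      omega
    have hn' : ∀ m, 2 * p ≤ m → m < 2 * (p + 1) → s + m ∉ A ∪ Ico s (s + 2 * p) := by
      intro m h2 h3
      rw [mem_union, not_or, mem_Ico]
      exact ⟨hA m h3, by omega⟩
    have h4 := hn (2 * p) le_rfl (by omega)
    have h5 := hn (2 * p + 1) (by omega) (by omega)
    have h6 := hn' (2 * p) le_rfl (by omega)
    have h7 := hn' (2 * p + 1) (by omega) (by omega)
    exact Q.pair h1 h4 h5 (by simp) (hw _ (by omega))
      (hw _ (by omega)) h6 h7

/-- PIECE Block. Pairs `(s, s+1), (s+2, s+3), …` (`Q.pair`); induct on `c / 2`. -/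
theorem Q.block_even {I : Finset Lab} {w : Lab → ℤ[X]} {A : Finset ℕ} {i j c s : ℕ}
    (hQ : Q I w A) (hc : Even c) (hI : ∀ m < c, (i, j, m) ∉ I)
    (hw : ∀ m < c, w (i, j, m) = X ^ (s + m)) (hA : ∀ x ∈ A, x < s ∨ s + c ≤ x) :
    Q (I ∪ Bl i j c) w (A ∪ Ico s (s + c)) := by
  obtain ⟨p, hp⟩ := hc
  have hp' : c = 2 * p := by omega
  subst hp'
  rw [bl_eq]
  refine q_pairs hQ 0 s p ?_ ?_ ?_
  · intro m hm
    rw [zero_add]
    exact hI m hm
  · intro m hm
    rw [zero_add]
    exact hw m hm
  · intro m hm h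
    rcases hA _ h with h1 | h1 <;> omega

/-- for `c` odd: the single position `0` (`Q.min`), then pairs `(1, 2), (3, 4), …` -/
theorem Q.block_left {I : Finset Lab} {w : Lab → ℤ[X]} {A : Finset ℕ} {i j c : ℕ}
    (hQ : Q I w A) (hI : ∀ m < c, (i, j, m) ∉ I)
    (hw : ∀ m < c, w (i, j, m) = X ^ m) (hA : ∀ x ∈ A, c ≤ x) :
    Q (I ∪ Bl i j c) w (A ∪ Ico 0 c) := by
  rcases Nat.even_or_odd c with hc | hc
  · have h := Q.block_even (s := 0) hQ hc hI (fun m hm => by rw [zero_add]; exact hw m hm)
      (fun x hx => Or.inr (by rw [zero_add]; exact hA x hx))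
    rwa [zero_add] at h
  · obtain ⟨p, hp⟩ := hc
    subst hp
    have h0 : 0 ∉ A := fun h => by
      have := hA 0 h
      omega
    have h1 := Q.min hQ (hI 0 (by omega)) (hw 0 (by omega)) h0
    have h2 := q_pairs (i := i) (j := j) h1 1 1 p ?_ ?_ ?_
    · have e1 : I ∪ Bl i j (2 * p + 1) =
          insert (i, j, 0) I ∪ (Ico 1 (1 + 2 * p)).image fun m => ((i, j, m) : Lab) := by
        unfold Bl
        ext l
        simp only [mem_union, mem_image, mem_range, mem_insert, mem_Ico]
        constructor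
        · rintro (h | ⟨x, hx, rfl⟩)
          · exact Or.inl (Or.inr h)
          · rcases Nat.eq_zero_or_pos x with h3 | h3
            · left
              left
              rw [h3]
            · exact Or.inr ⟨x, ⟨h3, by omega⟩, rfl⟩
        · rintro ((rfl | h) | ⟨x, ⟨h3, h4⟩, rfl⟩)
          · exact Or.inr ⟨0, by omega, rfl⟩
          · exact Or.inl h
          · exact Or.inr ⟨x, by omega, rfl⟩
      have e2 : A ∪ Ico 0 (2 * p + 1) = insert 0 A ∪ Ico 1 (1 + 2 * p) := by
        ext x
        simp only [mem_union, mem_insert, mem_Ico]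
        constructor
        · rintro (h | ⟨-, h⟩)
          · exact Or.inl (Or.inr h)
          · rcases Nat.eq_zero_or_pos x with h3 | h3
            · exact Or.inl (Or.inl h3)
            · exact Or.inr ⟨h3, by omega⟩
        · rintro ((rfl | h) | ⟨h3, h4⟩)
          · exact Or.inr ⟨le_rfl, by omega⟩
          · exact Or.inl h
          · exact Or.inr ⟨by omega, by omega⟩
      rw [e1, e2]
      exact h2
    · intro m hm
      rw [mem_insert, not_or]
      refine ⟨fun h => ?_, hI _ (by omega)⟩
      have h3 : 1 + m = 0 := congrArg (fun l : Lab => l.2.2) h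
      omega
    · intro m hm
      exact hw _ (by omega)
    · intro m hm
      rw [mem_insert, not_or]
      refine ⟨by omega, fun h => ?_⟩
      have := hA _ h
      omega

/-- for `c` odd: pairs `(s, s+1), …`, then the single position `s + c - 1` (`Q.max`) -/
theorem Q.block_right {I : Finset Lab} {w : Lab → ℤ[X]} {A : Finset ℕ} {i j c s : ℕ}
    (hQ : Q I w A) (hI : ∀ m < c, (i, j, m) ∉ I)
    (hw : ∀ m < c, w (i, j, m) = X ^ (s + m)) (hA : ∀ x ∈ A, x < s)
    (hd : ∀ l ∈ I, (w l).natDegree < s + c) :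
    Q (I ∪ Bl i j c) w (A ∪ Ico s (s + c)) := by
  rcases Nat.even_or_odd c with hc | hc
  · exact Q.block_even hQ hc hI hw (fun x hx => Or.inl (hA x hx))
  · obtain ⟨p, hp⟩ := hc
    subst hp
    have h1 := q_pairs (i := i) (j := j) hQ 0 s p
      (fun m hm => by rw [zero_add]; exact hI m (by omega))
      (fun m hm => by rw [zero_add]; exact hw m (by omega))
      (fun m _ h => by
        have := hA _ h
        omega)
    have h2 := Q.max (l := (i, j, 2 * p)) (s := s + 2 * p) h1 ?_ (hw _ (by omega)) ?_ ?_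
    · rw [bl_eq, blk_succ, ico_succ, union_insert, union_insert]
      have e : 0 + 2 * p = 2 * p := zero_add _
      rw [e] at h2 ⊢
      exact h2
    · rw [mem_union, not_or]
      refine ⟨hI _ (by omega), ?_⟩
      simp only [mem_image, mem_Ico, Prod.mk.injEq, true_and, not_exists, not_and]
      intro x hx hx'
      omega
    · intro l hl
      rw [mem_union] at hl
      rcases hl with hl | hl
      · have := hd l hl
        omega
      · rw [mem_image] at hl
        obtain ⟨x, hx, rfl⟩ := hl
        rw [mem_Ico] at hx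
        rw [hw x (by omega), natDegree_X_pow]
        omega
    · rw [mem_union, not_or, mem_Ico]
      refine ⟨fun h => ?_, by omega⟩
      have := hA _ h
      omega

theorem NZ.block {I : Finset Lab} {w : Lab → ℤ[X]} {A : Finset ℕ} {i j c s : ℕ}
    (hQ : NZ I w A) (hI : ∀ m < c, (i, j, m) ∉ I)
    (hw : ∀ m < c, w (i, j, m) = X ^ (s + m)) (hA : ∀ x ∈ A, x < s ∨ s + c ≤ x) :
    NZ (I ∪ Bl i j c) w (A ∪ Ico s (s + c)) := by
  have key : ∀ m, m ≤ c →
      NZ (I ∪ (Ico 0 (0 + m)).image fun m => ((i, j, m) : Lab)) w (A ∪ Ico s (s + m)) := by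
    intro m
    induction m with
    | zero => intro _; simpa using hQ
    | succ m ih =>
      intro hm
      have h1 := ih (by omega)
      rw [blk_succ, ico_succ, union_insert, union_insert]
      have e : 0 + m = m := zero_add _
      refine NZ.add h1 ?_ ?_ ?_
      · rw [mem_union, not_or, e]
        refine ⟨hI m (by omega), ?_⟩
        simp only [mem_image, mem_Ico, Prod.mk.injEq, true_and, not_exists, not_and]
        intro x hx hx'
        omega
      · rw [e]
        exact hw m (by omega)
      · rw [mem_union, not_or, mem_Ico]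
        refine ⟨fun h => ?_, by omega⟩
        rcases hA _ h with h2 | h2 <;> omega
  rw [bl_eq]
  exact key c le_rfl

end Pool.Agent.Lib_MP_8b82cd_t
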