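import Mathlib

/-!
# Three variables: counting the standard monomials and their orbits

`Std d k m`: the exponents `(a, b, c)` of degree `m` with `a / d + b / d + c / d < k`.
-/

namespace Pool.Agent.Lib_MP_8b82cd_t

open Finset

/-- the exponents of degree `m` outside `(x^d, y^d, z^d)^k` -/
def Std (d k m : ℕ) : Finset (ℕ × ℕ × ℕ) :=
  ((range (m + 1)) ×ˢ (range (m + 1)) ×ˢ (range (m + 1))).filter fun x =>
    x.1 + x.2.1 + x.2.2 = m ∧ x.1 / d + x.2.1 / d + x.2.2 / d < k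

theorem mem_Std {d k m : ℕ} {x : ℕ × ℕ × ℕ} : x ∈ Std d k m ↔
    x.1 + x.2.1 + x.2.2 = m ∧ x.1 / d + x.2.1 / d + x.2.2 / d < k := by
  unfold Std
  rw [mem_filter, mem_product, mem_product, mem_range, mem_range, mem_range]
  constructor
  · rintro ⟨-, h⟩
    exact h
  · intro h
    refine ⟨⟨?_, ?_, ?_⟩, h⟩ <;> omega

/-- all -/
def cH (d k m : ℕ) : ℕ := (Std d k m).card

/-- fixed by the exchange of the first two variables -/
def cP (d k m : ℕ) : ℕ := ((Std d k m).filter fun x => x.1 = x.2.1).card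

/-- fixed by all permutations -/
def cQ (d k m : ℕ) : ℕ := ((Std d k m).filter fun x => x.1 = x.2.1 ∧ x.2.1 = x.2.2).card

/-- weakly decreasing exponents -/
def srt (d k m : ℕ) : Finset (ℕ × ℕ × ℕ) := (Std d k m).filter fun x => x.2.2 ≤ x.2.1 ∧ x.2.1 ≤ x.1

/-- strictly decreasing exponents -/
def sst (d k m : ℕ) : Finset (ℕ × ℕ × ℕ) := (Std d k m).filter fun x => x.2.2 < x.2.1 ∧ x.2.1 < x.1

/-- the counts are invariant under the exchange of the first two variables -/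
theorem cnt12 (d k m : ℕ) (p : ℕ × ℕ × ℕ → Prop) [DecidablePred p] :
    ((Std d k m).filter fun x => p (x.2.1, x.1, x.2.2)).card = ((Std d k m).filter p).card := by
  refine card_nbij' (fun x => (x.2.1, x.1, x.2.2)) (fun x => (x.2.1, x.1, x.2.2)) ?_ ?_ ?_ ?_
  · rintro ⟨a, b, c⟩ h
    simp only [coe_filter, Set.mem_setOf_eq, mem_Std] at h ⊢
    exact ⟨⟨by omega, by omega⟩, h.2⟩
  · rintro ⟨a, b, c⟩ h
    simp only [coe_filter, Set.mem_setOf_eq, mem_Std] at h ⊢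
    exact ⟨⟨by omega, by omega⟩, h.2⟩
  · rintro ⟨a, b, c⟩ _
    rfl
  · rintro ⟨a, b, c⟩ _
    rfl

/-- the counts are invariant under the exchange of the last two variables -/
theorem cnt23 (d k m : ℕ) (p : ℕ × ℕ × ℕ → Prop) [DecidablePred p] :
    ((Std d k m).filter fun x => p (x.1, x.2.2, x.2.1)).card = ((Std d k m).filter p).card := by
  refine card_nbij' (fun x => (x.1, x.2.2, x.2.1)) (fun x => (x.1, x.2.2, x.2.1)) ?_ ?_ ?_ ?_
  · rintro ⟨a, b, c⟩ h
    simp only [coe_filter, Set.mem_setOf_eq, mem_Std] at h ⊢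
    exact ⟨⟨by omega, by omega⟩, h.2⟩
  · rintro ⟨a, b, c⟩ h
    simp only [coe_filter, Set.mem_setOf_eq, mem_Std] at h ⊢
    exact ⟨⟨by omega, by omega⟩, h.2⟩
  · rintro ⟨a, b, c⟩ _
    rfl
  · rintro ⟨a, b, c⟩ _
    rfl

/-- `H + 2 Q = 6 D + 3 P` -/
theorem rel_H (d k m : ℕ) :
    (cH d k m : ℤ) + 2 * cQ d k m = 6 * ((sst d k m).card : ℤ) + 3 * cP d k m := by
  have e1 : ((Std d k m).filter fun x => x.2.2 < x.1 ∧ x.1 < x.2.1).card = (sst d k m).card :=
    cnt12 d k m (fun x => x.2.2 < x.2.1 ∧ x.2.1 < x.1)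
  have e2 : ((Std d k m).filter fun x => x.2.1 < x.2.2 ∧ x.2.2 < x.1).card = (sst d k m).card :=
    cnt23 d k m (fun x => x.2.2 < x.2.1 ∧ x.2.1 < x.1)
  have e3 : ((Std d k m).filter fun x => x.2.1 < x.1 ∧ x.1 < x.2.2).card = (sst d k m).card :=
    (cnt23 d k m (fun x => x.2.2 < x.1 ∧ x.1 < x.2.1)).trans e1
  have e4 : ((Std d k m).filter fun x => x.1 < x.2.2 ∧ x.2.2 < x.2.1).card = (sst d k m).card :=
    (cnt12 d k m (fun x => x.2.1 < x.2.2 ∧ x.2.2 < x.1)).trans e2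
  have e5 : ((Std d k m).filter fun x => x.1 < x.2.1 ∧ x.2.1 < x.2.2).card = (sst d k m).card :=
    (cnt23 d k m (fun x => x.1 < x.2.2 ∧ x.2.2 < x.2.1)).trans e4
  have e6 : ((Std d k m).filter fun x => x.1 = x.2.2).card = cP d k m :=
    cnt23 d k m (fun x => x.1 = x.2.1)
  have e7 : ((Std d k m).filter fun x => x.2.1 = x.2.2).card = cP d k m :=
    (cnt12 d k m (fun x => x.1 = x.2.2)).trans e6
  have key : ∑ x ∈ Std d k m, ((1 : ℤ) + 2 * (if x.1 = x.2.1 ∧ x.2.1 = x.2.2 then 1 else 0)) =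
      ∑ x ∈ Std d k m, (((if x.2.2 < x.2.1 ∧ x.2.1 < x.1 then 1 else 0) +
        (if x.2.2 < x.1 ∧ x.1 < x.2.1 then 1 else 0) + (if x.2.1 < x.2.2 ∧ x.2.2 < x.1 then 1 else 0) +
        (if x.2.1 < x.1 ∧ x.1 < x.2.2 then 1 else 0) + (if x.1 < x.2.2 ∧ x.2.2 < x.2.1 then 1 else 0) +
        (if x.1 < x.2.1 ∧ x.2.1 < x.2.2 then 1 else 0)) +
        ((if x.1 = x.2.1 then 1 else 0) + (if x.1 = x.2.2 then 1 else 0) +
          (if x.2.1 = x.2.2 then 1 else 0))) := by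
    refine sum_congr rfl ?_
    rintro ⟨a, b, c⟩ _
    dsimp only
    rcases lt_trichotomy a b with h1 | h1 | h1 <;> rcases lt_trichotomy b c with h2 | h2 | h2 <;>
      rcases lt_trichotomy a c with h3 | h3 | h3 <;> (try omega) <;> split_ifs <;> omega
  simp only [sum_add_distrib, ← mul_sum, sum_boole, sum_const, nsmul_eq_mul, mul_one] at key
  rw [e1, e2, e3, e4, e5, e6, e7] at key
  unfold cH cP cQ at *
  unfold sst at *
  push_cast at key ⊢
  linarith

/-- `O = D + P` -/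
theorem rel_O (d k m : ℕ) : (srt d k m).card = (sst d k m).card + cP d k m := by
  have e1 : ((Std d k m).filter fun x => x.1 = x.2.1 ∧ x.1 < x.2.2).card =
      ((Std d k m).filter fun x => x.2.1 = x.2.2 ∧ x.2.1 < x.1).card := by
    have h1 := cnt23 d k m (fun x => x.1 = x.2.1 ∧ x.1 < x.2.2)
    have h2 := cnt12 d k m (fun x => x.1 = x.2.2 ∧ x.1 < x.2.1)
    have h3 : ((Std d k m).filter fun x => x.2.1 = x.2.2 ∧ x.2.1 < x.1).card =
      ((Std d k m).filter fun x => x.1 = x.2.2 ∧ x.1 < x.2.1).card := h2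
    have h4 : ((Std d k m).filter fun x => x.1 = x.2.2 ∧ x.1 < x.2.1).card =
      ((Std d k m).filter fun x => x.1 = x.2.1 ∧ x.1 < x.2.2).card := h1
    rw [h3, h4]
  have key : ∑ x ∈ Std d k m, ((if x.2.2 ≤ x.2.1 ∧ x.2.1 ≤ x.1 then 1 else 0) +
        (if x.1 = x.2.1 ∧ x.1 < x.2.2 then 1 else 0)) =
      ∑ x ∈ Std d k m, ((if x.2.2 < x.2.1 ∧ x.2.1 < x.1 then 1 else 0) +
        (if x.1 = x.2.1 then 1 else 0) + (if x.2.1 = x.2.2 ∧ x.2.1 < x.1 then 1 else 0)) := by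
    refine sum_congr rfl ?_
    rintro ⟨a, b, c⟩ _
    dsimp only
    rcases lt_trichotomy a b with h1 | h1 | h1 <;> rcases lt_trichotomy b c with h2 | h2 | h2 <;>
      rcases lt_trichotomy a c with h3 | h3 | h3 <;> (try omega) <;> split_ifs <;> omega
  simp only [sum_add_distrib, sum_boole, Nat.cast_id] at key
  rw [e1] at key
  unfold srt sst cP
  omega

end Pool.Agent.Lib_MP_8b82cd_t
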