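import Pool.Agent.Lib_MP_8b82cd_t.Count

/-!
# Three variables: the differences of the counts in the degrees `dk + u - 1` and `dk + u - 2`
-/

namespace Pool.Agent.Lib_MP_8b82cd_t

open Finset

private theorem dv {d A i : ℕ} (hi : i < d) : (d * A + i) / d = A := by
  rw [Nat.mul_add_div (by omega), Nat.div_eq_of_lt hi, Nat.add_zero]

private theorem expand {d : ℕ} (hd : 0 < d) (a : ℕ) : ∃ A i, a = d * A + i ∧ i < d ∧ a / d = A :=
  ⟨a / d, a % d, (Nat.div_add_mod a d).symm, Nat.mod_lt _ hd, rfl⟩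

/-- new monomials -/
theorem card_new {d k u : ℕ} (hu : 1 ≤ u) (hud : u ≤ d) :
    ((Std d k (d * k + u - 1)).filter fun x => x.1 = 0).card = k * (d - u) := by
  have h0 : k * (d - u) = ((range k) ×ˢ (range (d - u))).card := by
    rw [card_product, card_range, card_range]
  rw [h0]
  symm
  have hd : 0 < d := by omega
  refine card_nbij (fun p => (0, d * p.1 + (u + p.2), d * (k - 1 - p.1) + (d - 1 - p.2))) ?_ ?_ ?_
  · rintro ⟨B, s⟩ h
    simp only [coe_product, Set.mem_prod, coe_range, Set.mem_Iio] at h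
    simp only [coe_filter, Set.mem_setOf_eq, mem_Std]
    obtain ⟨hB, hs⟩ := h
    obtain ⟨C, hC⟩ : ∃ C, k = B + C + 1 := ⟨k - 1 - B, by omega⟩
    have e1 : k - 1 - B = C := by omega
    rw [e1, Nat.zero_div, dv (by omega), dv (by omega)]
    refine ⟨⟨?_, by omega⟩, trivial⟩
    rw [hC, Nat.mul_add, Nat.mul_add, Nat.mul_one]
    omega
  · rintro ⟨B, s⟩ h ⟨B', s'⟩ h' he
    simp only [coe_product, Set.mem_prod, coe_range, Set.mem_Iio] at h h'
    simp only [Prod.mk.injEq, true_and] at he
    have h1 : B = B' := by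
      have h2 : (d * B + (u + s)) / d = (d * B' + (u + s')) / d := by rw [he.1]
      rwa [dv (by omega), dv (by omega)] at h2
    subst h1
    have h3 : s = s' := by omega
    rw [h3]
  · rintro ⟨a, b, c⟩ h
    simp only [coe_filter, Set.mem_setOf_eq, mem_Std] at h
    obtain ⟨⟨hs, hf⟩, ha⟩ := h
    obtain ⟨B, i, hb, hi, hbd⟩ := expand hd b
    obtain ⟨C, j, hc, hj, hcd⟩ := expand hd c
    rw [ha, Nat.zero_div, hbd, hcd, Nat.zero_add] at hf
    obtain ⟨e, he⟩ : ∃ e, k = B + C + 1 + e := ⟨k - (B + C + 1), by omega⟩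
    have h1 : d * k = d * B + d * C + d + d * e := by rw [he]; ring
    have h2 : i + j = d + d * e + u - 1 := by omega
    have h3 : e = 0 := by
      rcases Nat.eq_zero_or_pos e with h | h
      · exact h
      · have h4 : d ≤ d * e := Nat.le_mul_of_pos_right d h
        omega
    subst h3
    rw [Nat.mul_zero] at h2
    refine ⟨(B, i - u), ?_, ?_⟩
    · simp only [coe_product, Set.mem_prod, coe_range, Set.mem_Iio]
      omega
    · simp only [Prod.mk.injEq]
      have e1 : k - 1 - B = C := by omega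
      rw [e1]
      refine ⟨by omega, by omega, by omega⟩

/-- lost monomials -/
theorem card_loss {d k u : ℕ} (hu : 1 ≤ u) (hud : u ≤ d) :
    2 * ((Std d k (d * k + u - 1 - 1)).filter fun x =>
      k ≤ (x.1 + 1) / d + x.2.1 / d + x.2.2 / d).card = u * (k * (k + 1)) := by
  have hd : 0 < d := by omega
  have h0 : 2 * (((range k).sigma fun A => range (k - A)).card) = k * (k + 1) := by
    rw [card_sigma]
    simp only [card_range]
    induction k with
    | zero => simp
    | succ k ih =>
      rw [sum_range_succ']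
      have h1 : ∀ A ∈ range k, k + 1 - (A + 1) = k - A := fun A _ => by omega
      rw [sum_congr rfl h1, mul_add, ih]
      have h2 : k + 1 - 0 = k + 1 := rfl
      rw [h2]
      ring
  have h1 : u * (k * (k + 1)) = 2 * ((((range k).sigma fun A => range (k - A)) ×ˢ range u).card) := by
    rw [card_product, card_range, ← h0]
    ring
  rw [h1]
  congr 1
  symm
  refine card_nbij (fun p => (d * p.1.1 + (d - 1), d * p.1.2 + p.2,
    d * (k - 1 - p.1.1 - p.1.2) + (u - 1 - p.2))) ?_ ?_ ?_
  · rintro ⟨⟨A, B⟩, i⟩ h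
    simp only [coe_product, Set.mem_prod, coe_sigma, coe_range, Set.mem_sigma_iff, Set.mem_Iio] at h
    simp only [coe_filter, Set.mem_setOf_eq, mem_Std]
    obtain ⟨⟨hA, hB⟩, hi⟩ := h
    obtain ⟨C, hC⟩ : ∃ C, k = A + B + C + 1 := ⟨k - 1 - A - B, by omega⟩
    have e1 : k - 1 - A - B = C := by omega
    have e2 : d * A + (d - 1) + 1 = d * (A + 1) + 0 := by rw [Nat.mul_add]; omega
    rw [e1, e2, dv (by omega), dv (by omega), dv (by omega), dv (by omega)]
    refine ⟨⟨?_, by omega⟩, by omega⟩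
    rw [hC, Nat.mul_add, Nat.mul_add, Nat.mul_add, Nat.mul_one]
    omega
  · rintro ⟨⟨A, B⟩, i⟩ h ⟨⟨A', B'⟩, i'⟩ h' he
    simp only [coe_product, Set.mem_prod, coe_sigma, coe_range, Set.mem_sigma_iff, Set.mem_Iio]
      at h h'
    simp only [Prod.mk.injEq] at he
    have h1 : A = A' := by
      have h2 : (d * A + (d - 1)) / d = (d * A' + (d - 1)) / d := by rw [he.1]
      rwa [dv (by omega), dv (by omega)] at h2
    have h3 : B = B' := by
      have h2 : (d * B + i) / d = (d * B' + i') / d := by rw [he.2.1]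
      rwa [dv (by omega), dv (by omega)] at h2
    subst h1
    subst h3
    have h4 : i = i' := by omega
    rw [h4]
  · rintro ⟨a, b, c⟩ h
    simp only [coe_filter, Set.mem_setOf_eq, mem_Std] at h
    obtain ⟨⟨hs, hf⟩, hl⟩ := h
    obtain ⟨A, l, ha, hli, had⟩ := expand hd a
    obtain ⟨B, i, hb, hi, hbd⟩ := expand hd b
    obtain ⟨C, j, hc, hj, hcd⟩ := expand hd c
    rw [had, hbd, hcd] at hf
    rw [hbd, hcd] at hl
    have h5 : l = d - 1 := by
      by_contra h6
      have h7 : a + 1 = d * A + (l + 1) := by omega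
      rw [h7, dv (by omega)] at hl
      omega
    have h8 : (a + 1) / d = A + 1 := by
      have h9 : a + 1 = d * (A + 1) + 0 := by rw [Nat.mul_add]; omega
      rw [h9, dv hd]
    rw [h8] at hl
    have hk : k = A + B + C + 1 := by omega
    have h1 : d * k = d * A + d * B + d * C + d := by rw [hk]; ring
    refine ⟨(⟨A, B⟩, i), ?_, ?_⟩
    · simp only [coe_product, Set.mem_prod, coe_sigma, coe_range, Set.mem_sigma_iff, Set.mem_Iio]
      omega
    · simp only [Prod.mk.injEq]
      have e1 : k - 1 - A - B = C := by omega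
      rw [e1]
      refine ⟨by omega, by omega, by omega⟩

/-- the difference of the numbers of monomials -/
theorem diff_H {d k u : ℕ} (hu : 1 ≤ u) (hud : u ≤ d) (hk : 1 ≤ k) :
    2 * cH d k (d * k + u - 1) + u * (k * (k + 1)) =
      2 * cH d k (d * k + u - 1 - 1) + 2 * (k * (d - u)) := by
  have hdk : 1 ≤ d * k := Nat.mul_pos (by omega) hk
  rw [← card_loss hu hud, ← card_new hu hud]
  have h1 : cH d k (d * k + u - 1) = ((Std d k (d * k + u - 1)).filter fun x => x.1 = 0).card +
      ((Std d k (d * k + u - 1)).filter fun x => ¬ x.1 = 0).card :=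
    (card_filter_add_card_filter_not _).symm
  have h2 : cH d k (d * k + u - 1 - 1) = ((Std d k (d * k + u - 1 - 1)).filter fun x =>
      k ≤ (x.1 + 1) / d + x.2.1 / d + x.2.2 / d).card +
      ((Std d k (d * k + u - 1 - 1)).filter fun x =>
      ¬ k ≤ (x.1 + 1) / d + x.2.1 / d + x.2.2 / d).card :=
    (card_filter_add_card_filter_not _).symm
  have h3 : ((Std d k (d * k + u - 1 - 1)).filter fun x =>
      ¬ k ≤ (x.1 + 1) / d + x.2.1 / d + x.2.2 / d).card =
      ((Std d k (d * k + u - 1)).filter fun x => ¬ x.1 = 0).card := by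
    refine card_nbij' (fun x => (x.1 + 1, x.2.1, x.2.2)) (fun x => (x.1 - 1, x.2.1, x.2.2)) ?_ ?_ ?_ ?_
    · rintro ⟨a, b, c⟩ h
      simp only [coe_filter, Set.mem_setOf_eq, mem_Std] at h ⊢
      omega
    · rintro ⟨a, b, c⟩ h
      simp only [coe_filter, Set.mem_setOf_eq, mem_Std] at h ⊢
      obtain ⟨⟨h4, h5⟩, h6⟩ := h
      have h7 : a - 1 + 1 = a := by omega
      have h8 : (a - 1) / d ≤ a / d := Nat.div_le_div_right (by omega)
      rw [h7]
      omega
    · rintro ⟨a, b, c⟩ _
      rfl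
    · rintro ⟨a, b, c⟩ h
      simp only [coe_filter, Set.mem_setOf_eq, mem_Std] at h
      have h7 : a - 1 + 1 = a := by omega
      simp only [h7]
  omega

/-- the difference of the numbers of monomials fixed by a transposition -/
theorem diff_P {d k u : ℕ} (hu : 1 ≤ u) (hud : u ≤ d) (hk : 1 ≤ k) (hodd : Odd u) :
    ∃ ν ≤ 1, (Even k → ν = 0) ∧ (Odd (d * k + u - 1) → ν = 0) ∧
      cP d k (d * k + u - 1) + (k + 1) / 2 ≤ cP d k (d * k + u - 1 - 1) + ν := by
  have hd : 0 < d := by omega
  obtain ⟨w, hw⟩ := hodd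
  have hdk : 1 ≤ d * k := Nat.mul_pos (by omega) hk
  refine ⟨((Std d k (d * k + u - 1)).filter fun x => x.1 = x.2.1 ∧ x.2.2 = 0).card, ?_, ?_, ?_, ?_⟩
  · rw [card_le_one]
    rintro ⟨a, b, c⟩ h ⟨a', b', c'⟩ h'
    simp only [mem_filter, mem_Std] at h h'
    simp only [Prod.mk.injEq]
    omega
  · rintro ⟨l, hl⟩
    rw [card_eq_zero, filter_eq_empty_iff]
    rintro ⟨a, b, c⟩ h
    rw [mem_Std] at h
    simp only at h ⊢
    rintro ⟨h1, h2⟩
    obtain ⟨h3, h4⟩ := h
    subst h1
    subst h2
    have h5 : d * k = 2 * (d * l) := by rw [hl]; ring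
    have h6 : a = d * l + w := by omega
    rw [h6, dv (by omega), Nat.zero_div] at h4
    omega
  · rintro ⟨l, hl⟩
    rw [card_eq_zero, filter_eq_empty_iff]
    rintro ⟨a, b, c⟩ h
    rw [mem_Std] at h
    simp only at h ⊢
    omega
  · have h1 : cP d k (d * k + u - 1) =
        ((Std d k (d * k + u - 1)).filter fun x => x.1 = x.2.1 ∧ x.2.2 = 0).card +
        ((Std d k (d * k + u - 1)).filter fun x => x.1 = x.2.1 ∧ ¬ x.2.2 = 0).card := by
      unfold cP
      rw [← filter_filter, ← filter_filter]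
      exact (card_filter_add_card_filter_not _).symm
    have h2 : cP d k (d * k + u - 1 - 1) =
        ((Std d k (d * k + u - 1 - 1)).filter fun x =>
          x.1 = x.2.1 ∧ k ≤ x.1 / d + x.2.1 / d + (x.2.2 + 1) / d).card +
        ((Std d k (d * k + u - 1 - 1)).filter fun x =>
          x.1 = x.2.1 ∧ ¬ k ≤ x.1 / d + x.2.1 / d + (x.2.2 + 1) / d).card := by
      unfold cP
      rw [← filter_filter, ← filter_filter]
      exact (card_filter_add_card_filter_not _).symm
    have h3 : ((Std d k (d * k + u - 1 - 1)).filter fun x =>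
          x.1 = x.2.1 ∧ ¬ k ≤ x.1 / d + x.2.1 / d + (x.2.2 + 1) / d).card =
        ((Std d k (d * k + u - 1)).filter fun x => x.1 = x.2.1 ∧ ¬ x.2.2 = 0).card := by
      refine card_nbij' (fun x => (x.1, x.2.1, x.2.2 + 1)) (fun x => (x.1, x.2.1, x.2.2 - 1))
        ?_ ?_ ?_ ?_
      · rintro ⟨a, b, c⟩ h
        simp only [coe_filter, Set.mem_setOf_eq, mem_Std] at h ⊢
        omega
      · rintro ⟨a, b, c⟩ h
        simp only [coe_filter, Set.mem_setOf_eq, mem_Std] at h ⊢
        obtain ⟨⟨h4, h5⟩, h6, h6'⟩ := h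
        have h7 : c - 1 + 1 = c := by omega
        have h8 : (c - 1) / d ≤ c / d := Nat.div_le_div_right (by omega)
        rw [h7]
        omega
      · rintro ⟨a, b, c⟩ _
        rfl
      · rintro ⟨a, b, c⟩ h
        simp only [coe_filter, Set.mem_setOf_eq, mem_Std] at h
        have h7 : c - 1 + 1 = c := by omega
        simp only [h7]
    have h4 : (k + 1) / 2 ≤ ((Std d k (d * k + u - 1 - 1)).filter fun x =>
          x.1 = x.2.1 ∧ k ≤ x.1 / d + x.2.1 / d + (x.2.2 + 1) / d).card := by
      rw [← card_range ((k + 1) / 2)]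
      refine card_le_card_of_injOn (fun A => (d * A + w, d * A + w, d * (k - 1 - 2 * A) + (d - 1)))
        ?_ ?_
      · intro A hA
        simp only [coe_range, Set.mem_Iio] at hA
        simp only [coe_filter, Set.mem_setOf_eq, mem_Std]
        obtain ⟨C, hC⟩ : ∃ C, k = 2 * A + C + 1 := ⟨k - 1 - 2 * A, by omega⟩
        have e1 : k - 1 - 2 * A = C := by omega
        have e2 : d * C + (d - 1) + 1 = d * (C + 1) + 0 := by rw [Nat.mul_add]; omega
        have e3 : d * k = 2 * (d * A) + d * C + d := by rw [hC]; ring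
        rw [e1, e2, dv (by omega), dv (by omega), dv (by omega)]
        refine ⟨⟨by omega, by omega⟩, trivial, by omega⟩
      · intro A _ A' _ he
        simp only [Prod.mk.injEq] at he
        have h5 : d * A = d * A' := by omega
        exact Nat.eq_of_mul_eq_mul_left hd h5
    omega

theorem cQ_le (d k m : ℕ) : cQ d k m ≤ 1 := by
  unfold cQ
  rw [card_le_one]
  rintro ⟨a, b, c⟩ h ⟨a', b', c'⟩ h'
  simp only [mem_filter, mem_Std] at h h'
  simp only [Prod.mk.injEq]
  omega

/-- both orbit counts go the wrong way -/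
theorem wrong_way {d k u : ℕ} (hodd : Odd u) (hk : 2 ≤ k)
    (h : (Odd k ∧ 2 * d = u * (k + 3)) ∨
      (Even k ∧ 4 ≤ k ∧ (2 * d = u * (k + 3) + 1 ∨ 2 * d + 1 = u * (k + 3))) ∨
      (Odd k ∧ 5 ≤ k ∧ k ≠ 7 ∧ (2 * d = u * (k + 3) + 2 ∨ 2 * d + 2 = u * (k + 3)))) :
    (srt d k (d * k + u - 1)).card < (srt d k (d * k + u - 1 - 1)).card ∧
      (sst d k (d * k + u - 1 - 1)).card < (sst d k (d * k + u - 1)).card := by
  have hu : 1 ≤ u := hodd.pos
  have hud : u ≤ d := by
    have h1 : 5 * u ≤ u * (k + 3) := by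
      rw [mul_comm]
      exact Nat.mul_le_mul_left u (by omega)
    omega
  have hk1 : 1 ≤ k := by omega
  obtain ⟨ν, hν, hν1, hν2, hP⟩ := diff_P hu hud hk1 hodd
  have hH := diff_H hu hud hk1
  have r1 := rel_H d k (d * k + u - 1)
  have r2 := rel_H d k (d * k + u - 1 - 1)
  have r3 := rel_O d k (d * k + u - 1)
  have r4 := rel_O d k (d * k + u - 1 - 1)
  have q1 := cQ_le d k (d * k + u - 1)
  have q2 := cQ_le d k (d * k + u - 1 - 1)
  -- the difference of the dimensions
  have hd2 : (2 : ℤ) * (cH d k (d * k + u - 1) : ℤ) - 2 * (cH d k (d * k + u - 1 - 1) : ℤ) =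
      k * (2 * d - u * (k + 3)) := by
    have h1 : (2 : ℤ) * (cH d k (d * k + u - 1) : ℤ) + u * (k * (k + 1)) =
        2 * (cH d k (d * k + u - 1 - 1) : ℤ) + 2 * (k * ((d : ℤ) - u)) := by
      have h2 := congrArg (Nat.cast : ℕ → ℤ) hH
      push_cast [Nat.cast_sub hud] at h2
      exact h2
    linear_combination h1
  generalize hX : (cH d k (d * k + u - 1) : ℤ) = X at *
  generalize hX' : (cH d k (d * k + u - 1 - 1) : ℤ) = X' at *
  rcases h with ⟨hko, ht⟩ | ⟨hke, hk4, ht⟩ | ⟨hko, hk5, hk7, ht⟩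
  · have e1 : (2 * d - u * (k + 3) : ℤ) = 0 := by
      have h1 := congrArg (Nat.cast : ℕ → ℤ) ht
      push_cast at h1
      linarith
    rw [e1, mul_zero] at hd2
    obtain ⟨l, hl⟩ := hko
    have hl1 : 1 ≤ l := by omega
    have e2 : (k + 1) / 2 = l + 1 := by omega
    rw [e2] at hP
    constructor <;> omega
  · have hν0 := hν1 hke
    obtain ⟨l, hl⟩ := hke
    have e2 : (k + 1) / 2 = l := by omega
    rw [e2] at hP
    rcases ht with ht | ht
    · have e1 : (2 * d - u * (k + 3) : ℤ) = 1 := by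
        have h1 := congrArg (Nat.cast : ℕ → ℤ) ht
        push_cast at h1
        linarith
      rw [e1, mul_one] at hd2
      constructor <;> omega
    · have e1 : (2 * d - u * (k + 3) : ℤ) = -1 := by
        have h1 := congrArg (Nat.cast : ℕ → ℤ) ht
        push_cast at h1
        linarith
      rw [e1] at hd2
      constructor <;> omega
  · obtain ⟨l, hl⟩ := hko
    have e2 : (k + 1) / 2 = l + 1 := by omega
    rw [e2] at hP
    have hν3 : k = 5 → ν = 0 := by
      intro h5
      apply hν2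
      subst h5
      obtain ⟨w, hw⟩ := hodd
      rcases ht with ht | ht
      · exact ⟨(d * 5 + u - 1) / 2, by omega⟩
      · exact ⟨(d * 5 + u - 1) / 2, by omega⟩
    have hcase : ν = 0 ∨ 9 ≤ k := by
      rcases Nat.lt_or_ge k 9 with h1 | h1
      · left
        exact hν3 (by omega)
      · right
        exact h1
    rcases ht with ht | ht
    · have e1 : (2 * d - u * (k + 3) : ℤ) = 2 := by
        have h1 := congrArg (Nat.cast : ℕ → ℤ) ht
        push_cast at h1
        linarith
      rw [e1] at hd2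
      constructor <;> omega
    · have e1 : (2 * d - u * (k + 3) : ℤ) = -2 := by
        have h1 := congrArg (Nat.cast : ℕ → ℤ) ht
        push_cast at h1
        linarith
      rw [e1] at hd2
      constructor <;> omega

end Pool.Agent.Lib_MP_8b82cd_t
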