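import Mathlib
import Pool.Agent.Lib_MP_8b82cd_t.Defs3

/-! First properties. -/

namespace Pool.Agent.Lib_MP_8b82cd_t

open Polynomial Finset

/-- PIECE Ind. `r = 0`, `ε = 1`. -/
theorem Q.empty (w : Lab → ℤ[X]) : Q ∅ w ∅ := by
  refine ⟨0, Fin.elim0, Fin.elim0, 1, fun x => x.elim0, ?_, fun x => x.elim0, ?_, Or.inl rfl,
    ?_, ?_⟩
  · simp
  · simp
  · intro b _
    simp [pl]
  · simp [pl]

theorem Q.congr {I : Finset Lab} {w w' : Lab → ℤ[X]} {A : Finset ℕ} (h : ∀ l ∈ I, w l = w' l)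
    (hQ : Q I w A) : Q I w' A := by
  obtain ⟨r, e, a, ε, he, heI, ha, haA, hε, hb, hpos⟩ := hQ
  have hw : w' ∘ e = w ∘ e := by
    funext i
    have hi : e i ∈ I := by
      rw [← heI]
      exact mem_image_of_mem e (mem_univ i)
    exact (h _ hi).symm
  exact ⟨r, e, a, ε, he, heI, ha, haA, hε, by rw [hw]; exact hb, by rw [hw]; exact hpos⟩

theorem Q.nz {I : Finset Lab} {w : Lab → ℤ[X]} {A : Finset ℕ} (hQ : Q I w A) : NZ I w A := by
  obtain ⟨r, e, a, ε, he, heI, ha, haA, hε, hb, hpos⟩ := hQ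
  refine ⟨r, e, a, he, heI, ha.injective, haA, ?_⟩
  intro h0
  rw [h0, mul_zero] at hpos
  exact lt_irrefl _ hpos

/-- the minor over `ℂ` is nonzero -/
private theorem det_ne {r : ℕ} (v : Fin r → ℤ[X]) (a : Fin r → ℕ) (h : pl v a ≠ 0) :
    (Matrix.of fun i j : Fin r => ((v i).map (Int.castRingHom ℂ)).coeff (a j)).det ≠ 0 := by
  have hM : (Matrix.of fun i j : Fin r => ((v i).map (Int.castRingHom ℂ)).coeff (a j))
      = (Int.castRingHom ℂ).mapMatrix (Matrix.of fun i j : Fin r => (v i).coeff (a j)) := by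
    ext i j
    simp [Polynomial.coeff_map]
  rw [hM, ← RingHom.map_det]
  intro h0
  apply h
  have : ((pl v a : ℤ) : ℂ) = 0 := by
    simpa [pl] using h0
  exact_mod_cast this

/-- the coefficient of a linear combination of the family -/
private theorem coeff_comb {I : Finset Lab} (w : Lab → ℤ[X]) {r : ℕ} {e : Fin r → Lab}
    (he : Function.Injective e) (heI : univ.image e = I) (α : Lab → ℂ) (x : ℕ) :
    (∑ l ∈ I, C (α l) * (w l).map (Int.castRingHom ℂ)).coeff x
      = ∑ i, α (e i) * ((w (e i)).map (Int.castRingHom ℂ)).coeff x := by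
  rw [← heI, Finset.sum_image (fun i _ j _ hij => he hij), Polynomial.finsetSum_coeff]
  exact Finset.sum_congr rfl fun i _ => by rw [Polynomial.coeff_C_mul]

/-- a nonzero maximal minor gives linear independence
(`Matrix.eq_zero_of_vecMul_eq_zero` over `ℂ`, `RingHom.map_det`) -/
theorem NZ.indep {I : Finset Lab} {w : Lab → ℤ[X]} {A : Finset ℕ} (h : NZ I w A) (α : Lab → ℂ)
    (h0 : ∑ l ∈ I, C (α l) * (w l).map (Int.castRingHom ℂ) = 0) : ∀ l ∈ I, α l = 0 := by
  obtain ⟨r, e, a, he, heI, ha, haA, hne⟩ := h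
  have hdet := det_ne (w ∘ e) a hne
  have hz : Matrix.vecMul (fun i => α (e i))
      (Matrix.of fun i j : Fin r => (((w ∘ e) i).map (Int.castRingHom ℂ)).coeff (a j)) = 0 := by
    funext j
    have h1 := coeff_comb w he heI α (a j)
    rw [h0, Polynomial.coeff_zero] at h1
    simp only [Matrix.vecMul, dotProduct, Matrix.of_apply, Function.comp_apply, Pi.zero_apply]
    exact h1.symm
  have hv := Matrix.eq_zero_of_vecMul_eq_zero hdet hz
  intro l hl
  rw [← heI] at hl
  obtain ⟨i, -, rfl⟩ := mem_image.1 hl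
  exact congrFun hv i

/-- a nonzero maximal minor at `A`: the values at the positions in `A` can be prescribed
(inverse matrix over `ℂ`) -/
theorem NZ.solve {I : Finset Lab} {w : Lab → ℤ[X]} {A : Finset ℕ} (h : NZ I w A) (g : ℕ → ℂ) :
    ∃ α : Lab → ℂ, ∀ x ∈ A, (∑ l ∈ I, C (α l) * (w l).map (Int.castRingHom ℂ)).coeff x = g x := by
  obtain ⟨r, e, a, he, heI, ha, haA, hne⟩ := h
  have hdet := det_ne (w ∘ e) a hne
  set M : Matrix (Fin r) (Fin r) ℂ :=
    Matrix.of fun i j : Fin r => (((w ∘ e) i).map (Int.castRingHom ℂ)).coeff (a j) with hM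
  have hunit : IsUnit M.det := isUnit_iff_ne_zero.2 hdet
  let β : Fin r → ℂ := Matrix.vecMul (fun j => g (a j)) M⁻¹
  have hβ : Matrix.vecMul β M = fun j => g (a j) := by
    show Matrix.vecMul (Matrix.vecMul (fun j => g (a j)) M⁻¹) M = _
    rw [Matrix.vecMul_vecMul, Matrix.nonsing_inv_mul _ hunit, Matrix.vecMul_one]
  refine ⟨Function.extend e β 0, ?_⟩
  intro x hx
  rw [← haA] at hx
  obtain ⟨j, -, rfl⟩ := mem_image.1 hx
  rw [coeff_comb w he heI]
  have h1 := congrFun hβ j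
  simp only [Matrix.vecMul, dotProduct, hM, Matrix.of_apply, Function.comp_apply] at h1
  rw [← h1]
  refine Finset.sum_congr rfl fun i _ => ?_
  rw [he.extend_apply]

end Pool.Agent.Lib_MP_8b82cd_t
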