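import Mathlib
import Pool.Agent.Lib_MP_8b82cd_t.Defs3

/-! Moves. -/

namespace Pool.Agent.Lib_MP_8b82cd_t

open Finset

theorem Mv.empty (m : ℕ) : Mv m ∅ ∅ := by
  refine ⟨id, ?_, ?_, ?_⟩
  · intro a ha
    simp at ha
  · simp
  · intro x hx
    simp at hx

/-- use `fun x => if x ∈ A₁ then φ₁ x else φ₂ x` -/
theorem Mv.union {m : ℕ} {A₁ A₂ B₁ B₂ : Finset ℕ} (h₁ : Mv m A₁ B₁) (h₂ : Mv m A₂ B₂)
    (hA : ∀ x ∈ A₁, ∀ y ∈ A₂, x < y) (hB : ∀ x ∈ B₁, ∀ y ∈ B₂, x < y) :
    Mv m (A₁ ∪ A₂) (B₁ ∪ B₂) := by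
  obtain ⟨φ₁, m1, i1, b1⟩ := h₁
  obtain ⟨φ₂, m2, i2, b2⟩ := h₂
  have hd : ∀ x ∈ A₂, x ∉ A₁ := fun x hx h => lt_irrefl x (hA x h x hx)
  have e1 : ∀ x ∈ A₁, (if x ∈ A₁ then φ₁ x else φ₂ x) = φ₁ x := fun x hx => if_pos hx
  have e2 : ∀ x ∈ A₂, (if x ∈ A₁ then φ₁ x else φ₂ x) = φ₂ x := fun x hx => if_neg (hd x hx)
  have c1 : ∀ x ∈ A₁, φ₁ x ∈ B₁ := fun x hx => i1 ▸ mem_image_of_mem φ₁ hx
  have c2 : ∀ x ∈ A₂, φ₂ x ∈ B₂ := fun x hx => i2 ▸ mem_image_of_mem φ₂ hx
  refine ⟨fun x => if x ∈ A₁ then φ₁ x else φ₂ x, ?_, ?_, ?_⟩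
  · intro a ha b hb hab
    have ha' : a ∈ A₁ ∪ A₂ := ha
    have hb' : b ∈ A₁ ∪ A₂ := hb
    rw [mem_union] at ha' hb'
    show (if a ∈ A₁ then φ₁ a else φ₂ a) < (if b ∈ A₁ then φ₁ b else φ₂ b)
    rcases ha' with ha' | ha' <;> rcases hb' with hb' | hb'
    · rw [e1 a ha', e1 b hb']
      exact m1 ha' hb' hab
    · rw [e1 a ha', e2 b hb']
      exact hB _ (c1 a ha') _ (c2 b hb')
    · exact absurd (hA b hb' a ha') (not_lt.2 hab.le)
    · rw [e2 a ha', e2 b hb']
      exact m2 ha' hb' hab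
  · rw [image_union]
    congr 1
    · rw [← i1]
      exact image_congr fun x hx => e1 x hx
    · rw [← i2]
      exact image_congr fun x hx => e2 x hx
  · intro x hx
    show x ≤ (if x ∈ A₁ then φ₁ x else φ₂ x) ∧ (if x ∈ A₁ then φ₁ x else φ₂ x) ≤ x + m
    rw [mem_union] at hx
    rcases hx with hx | hx
    · rw [e1 x hx]
      exact b1 x hx
    · rw [e2 x hx]
      exact b2 x hx

theorem Mv.Ico {m a b l : ℕ} (h1 : a ≤ b) (h2 : b ≤ a + m) :
    Mv m (Ico a (a + l)) (Ico b (b + l)) := by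
  refine ⟨fun x => x + (b - a), ?_, ?_, ?_⟩
  · intro p _ q _ hpq
    show p + (b - a) < q + (b - a)
    omega
  · ext y
    rw [mem_image]
    constructor
    · rintro ⟨x, hx, rfl⟩
      rw [mem_Ico] at hx ⊢
      omega
    · intro hy
      rw [mem_Ico] at hy
      refine ⟨y - (b - a), ?_, ?_⟩
      · rw [mem_Ico]
        omega
      · omega
  · intro x _
    show x ≤ x + (b - a) ∧ x + (b - a) ≤ x + m
    omega

/-- the same with the lengths hidden -/
private theorem Mv.Ico' {m a a' b b' : ℕ} (h1 : a ≤ b) (h2 : b ≤ a + m) (h3 : a ≤ a')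
    (h4 : b' + a = b + a') : Mv m (Finset.Ico a a') (Finset.Ico b b') := by
  have e1 : a' = a + (a' - a) := by omega
  have e2 : b' = b + (a' - a) := by omega
  have h := Mv.Ico (l := a' - a) h1 h2
  rwa [← e1, ← e2] at h

/-- PIECE Move. The cluster `j` of round `t`, `[j d - x, j d - x + L)` with
`L = x t j + c t j + y t j`, is split after its first `y (t+1) j` points; these move up by
`c (t+1) j + x t j ≤ d`, to `[j d + c (t+1) j, …)`, and the others, `x (t+1) (j+1)` in number,
move up by `d - c t j - y t j`, to `[…, (j+1) d)`. Induct on the number of clusters treated. -/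
theorem Flow.mv {d k : ℕ} {c x y : ℕ → ℕ → ℕ} (hF : Flow d k c x y) {t : ℕ} (ht : t < k) :
    Mv d (As d c x y t) (Bs d c x y (t + 1)) := by
  -- the gap between two clusters
  have hgap : ∀ j, j + 1 ≤ t → x t (j + 1) + y t j + c t j ≤ d := by
    intro j hj
    obtain ⟨s, rfl⟩ : ∃ s, t = s + 1 := ⟨t - 1, by omega⟩
    have h1 := hF.bal s (by omega) j (by omega)
    have h2 := hF.cap s (by omega) j (by omega)
    omega
  have hx : ∀ j ≤ t, x t j ≤ j * d := by
    intro j hj
    rcases Nat.eq_zero_or_pos j with rfl | hj0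
    · rw [hF.x0 t ht.le]
      exact Nat.zero_le _
    · obtain ⟨i, rfl⟩ : ∃ i, j = i + 1 := ⟨j - 1, by omega⟩
      have h1 := hgap i hj
      have h2 : (i + 1) * d = i * d + d := by ring
      omega
  have hend : ∀ i j, i < j → j ≤ t → i * d + c t i + y t i ≤ j * d - x t j := by
    intro i j hij hj
    have h1 := hgap i (by omega)
    have h2 : (i + 1) * d = i * d + d := by ring
    obtain ⟨l, rfl⟩ : ∃ l, j = l + 1 := ⟨j - 1, by omega⟩
    have h3 := hgap l hj
    have h4 : (l + 1) * d = l * d + d := by ring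
    rcases Nat.lt_or_ge i l with h | h
    · have h5 : (i + 1) * d ≤ l * d := Nat.mul_le_mul_right d h
      omega
    · obtain rfl : i = l := by omega
      omega
  -- one cluster
  have hone : ∀ j ≤ t, Mv d (Finset.Ico (j * d - x t j) (j * d + c t j + y t j))
      (Finset.Ico (j * d + c (t + 1) j) (j * d + c (t + 1) j + y (t + 1) j) ∪
        Finset.Ico ((j + 1) * d - x (t + 1) (j + 1)) ((j + 1) * d)) := by
    intro j hj
    have h1 := hF.bal t ht j hj
    have h2 := hF.cap t ht j hj
    have h3 := hx j hj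
    have h4 : (j + 1) * d = j * d + d := by ring
    have hsplit : Finset.Ico (j * d - x t j) (j * d + c t j + y t j) =
        Finset.Ico (j * d - x t j) (j * d - x t j + y (t + 1) j) ∪
          Finset.Ico (j * d - x t j + y (t + 1) j) (j * d + c t j + y t j) :=
      (Finset.Ico_union_Ico_eq_Ico (by omega) (by omega)).symm
    rw [hsplit]
    apply Mv.union
    · apply Mv.Ico' <;> omega
    · apply Mv.Ico' <;> omega
    · intro p hp q hq
      rw [mem_Ico] at hp hq
      omega
    · intro p hp q hq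
      rw [mem_Ico] at hp hq
      omega
  have hind : ∀ m, m ≤ t + 1 →
      Mv d ((range m).biUnion fun j => Finset.Ico (j * d - x t j) (j * d + c t j + y t j))
        ((range m).biUnion fun j =>
          Finset.Ico (j * d + c (t + 1) j) (j * d + c (t + 1) j + y (t + 1) j) ∪
            Finset.Ico ((j + 1) * d - x (t + 1) (j + 1)) ((j + 1) * d)) := by
    intro m
    induction m with
    | zero =>
      intro _
      simp only [range_zero, biUnion_empty]
      exact Mv.empty d
    | succ m ih =>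
      intro hm
      rw [range_add_one, biUnion_insert, biUnion_insert, union_comm (Finset.Ico _ _),
        union_comm (Finset.Ico _ _ ∪ Finset.Ico _ _)]
      refine Mv.union (ih (by omega)) (hone m (by omega)) ?_ ?_
      · intro p hp q hq
        rw [mem_biUnion] at hp
        obtain ⟨i, hi, hp⟩ := hp
        rw [mem_range] at hi
        rw [mem_Ico] at hp hq
        have := hend i m hi (by omega)
        omega
      · intro p hp q hq
        rw [mem_biUnion] at hp
        obtain ⟨i, hi, hp⟩ := hp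
        rw [mem_range] at hi
        rw [mem_union, mem_Ico, mem_Ico] at hp hq
        have h1 := hF.bal t ht i (by omega)
        have h2 := hF.cap t ht i (by omega)
        have h3 := hF.bal t ht m (by omega)
        have h4 := hF.cap t ht m (by omega)
        have h5 : (i + 1) * d = i * d + d := by ring
        have h6 : (m + 1) * d = m * d + d := by ring
        have h7 : (i + 1) * d ≤ m * d := Nat.mul_le_mul_right d hi
        omega
  exact hind (t + 1) le_rfl

end Pool.Agent.Lib_MP_8b82cd_t
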