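import Mathlib
import Pool.Agent.Lib_MP_8b82cd_t.Defs3

/-! Multiplication by powers of `1 + X`. -/

namespace Pool.Agent.Lib_MP_8b82cd_t

open Polynomial Finset

private theorem coeff_shift (v : ℤ[X]) (n : ℕ) :
    ((1 + X) * v).coeff n = v.coeff n + if n = 0 then 0 else v.coeff (n - 1) := by
  rw [add_mul, one_mul, coeff_add]
  cases n with
  | zero => simp
  | succ n => simp [coeff_X_mul]

/-- the expansion along the columns -/
private theorem pl_expand {r : ℕ} (v : Fin r → ℤ[X]) (a : Fin r → ℕ) :
    pl (fun i => (1 + X) * v i) a = ∑ s : Finset (Fin r),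
      if ∀ j, j ∉ s → a j ≠ 0 then pl v (fun j => if j ∈ s then a j else a j - 1) else 0 := by
  classical
  set p : Fin r → Fin r → ℤ := fun j i => (v i).coeff (a j) with hp
  set q : Fin r → Fin r → ℤ := fun j i => if a j = 0 then 0 else (v i).coeff (a j - 1) with hq
  have h1 : pl (fun i => (1 + X) * v i) a = Matrix.det (Matrix.of (p + q)) := by
    unfold pl
    rw [← Matrix.det_transpose]
    congr 1
    ext j i
    simp only [Matrix.transpose_apply, Matrix.of_apply, Pi.add_apply, hp, hq]
    exact coeff_shift _ _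
  have h2 : Matrix.det (Matrix.of (p + q)) =
      ∑ s : Finset (Fin r), Matrix.det (Matrix.of (s.piecewise p q)) := by
    have h3 := (Matrix.detRowAlternating (R := ℤ) (n := Fin r)).toMultilinearMap.map_add_univ p q
    exact h3
  rw [h1, h2]
  refine sum_congr rfl fun s _ => ?_
  split_ifs with h
  · unfold pl
    rw [← Matrix.det_transpose]
    congr 1
    ext i j
    simp only [Matrix.transpose_apply, Matrix.of_apply]
    by_cases hj : j ∈ s
    · rw [Finset.piecewise_eq_of_mem _ _ _ hj, if_pos hj]
    · rw [Finset.piecewise_eq_of_notMem _ _ _ hj, if_neg hj]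
      simp only [hq]
      rw [if_neg (h j hj)]
  · push Not at h
    obtain ⟨j, hj, hj0⟩ := h
    refine Matrix.det_eq_zero_of_row_eq_zero j fun i => ?_
    rw [Matrix.of_apply, Finset.piecewise_eq_of_notMem _ _ _ hj]
    simp only [hq]
    rw [if_pos hj0]

private theorem term_nonneg {r : ℕ} (v : Fin r → ℤ[X]) (ε : ℤ)
    (h : ∀ b : Fin r → ℕ, StrictMono b → 0 ≤ ε * pl v b) (a : Fin r → ℕ) (ha : StrictMono a)
    (s : Finset (Fin r)) :
    0 ≤ ε * (if ∀ j, j ∉ s → a j ≠ 0 then pl v (fun j => if j ∈ s then a j else a j - 1)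
      else 0) := by
  classical
  split_ifs with hs
  · set b : Fin r → ℕ := fun j => if j ∈ s then a j else a j - 1 with hb
    by_cases hinj : Function.Injective b
    · refine h b ?_
      have hm : Monotone b := by
        intro i j hij
        rcases hij.eq_or_lt with rfl | hij
        · exact le_rfl
        · have h1 := ha hij
          simp only [hb]
          split_ifs <;> omega
      exact hm.strictMono_of_injective hinj
    · have h1 : pl v b = 0 := by
        obtain ⟨i, j, hij, hne⟩ : ∃ i j, b i = b j ∧ i ≠ j := by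
          by_contra hcon
          push Not at hcon
          exact hinj fun i j hij => hcon i j hij
        unfold pl
        refine Matrix.det_zero_of_column_eq hne fun k => ?_
        simp only [Matrix.of_apply, hij]
      rw [h1, mul_zero]
  · rw [mul_zero]

/-- the columns of the new matrix are `v(a_j) + v(a_j - 1)`; expand (`MultilinearMap.map_add_univ`
or `Matrix.det` as an alternating map of the columns). A term with two equal positions is `0`,
and a term is `0` when some `a_j = 0` is to be lowered; the other terms are at increasing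
positions, since `a_j ≤ a_(j+1) - 1`. -/
theorem pl_shift_nonneg {r : ℕ} (v : Fin r → ℤ[X]) (ε : ℤ)
    (h : ∀ b : Fin r → ℕ, StrictMono b → 0 ≤ ε * pl v b) (a : Fin r → ℕ) (ha : StrictMono a) :
    0 ≤ ε * pl (fun i => (1 + X) * v i) a := by
  rw [pl_expand, mul_sum]
  exact sum_nonneg fun s _ => term_nonneg v ε h a ha s

theorem pl_shift_pos {r : ℕ} (v : Fin r → ℤ[X]) (ε : ℤ)
    (h : ∀ b : Fin r → ℕ, StrictMono b → 0 ≤ ε * pl v b) (a a' : Fin r → ℕ) (ha : StrictMono a)
    (ha' : StrictMono a') (hp : 0 < ε * pl v a) (hm : ∀ j, a j ≤ a' j ∧ a' j ≤ a j + 1) :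
    0 < ε * pl (fun i => (1 + X) * v i) a' := by
  classical
  rw [pl_expand, mul_sum]
  refine lt_of_lt_of_le ?_ (single_le_sum (f := fun s : Finset (Fin r) =>
    ε * (if ∀ j, j ∉ s → a' j ≠ 0 then pl v (fun j => if j ∈ s then a' j else a' j - 1)
      else 0)) (fun s _ => term_nonneg v ε h a' ha' s) (mem_univ (univ.filter fun j => a' j = a j)))
  have h1 : ∀ j, j ∉ (univ.filter fun j => a' j = a j) → a' j ≠ 0 := by
    intro j hj
    have h2 : a' j ≠ a j := fun h3 => hj (mem_filter.2 ⟨mem_univ _, h3⟩)
    have h3 := hm j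
    omega
  beta_reduce
  rw [if_pos h1]
  have h2 : (fun j => if j ∈ (univ.filter fun j => a' j = a j) then a' j else a' j - 1) = a := by
    funext j
    have h3 := hm j
    simp only [mem_filter, mem_univ, true_and]
    split_ifs <;> omega
  rw [h2]
  exact hp

/-- PIECE Shift. Iterate the previous two: the positions after `s` steps are `min (a j + s) (a' j)`,
where `a' = φ ∘ a`. -/
theorem Q.mv {I : Finset Lab} {w : Lab → ℤ[X]} {A B : Finset ℕ} {m : ℕ} (hQ : Q I w A)
    (hm : Mv m A B) : Q I (fun l => (1 + X) ^ m * w l) B := by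
  classical
  obtain ⟨r, e, a, ε, he, hI, ha, hA, hε, h0, h1⟩ := hQ
  obtain ⟨φ, hφ, hB, hφm⟩ := hm
  have haA : ∀ j, a j ∈ A := fun j => by
    rw [← hA]
    exact mem_image_of_mem _ (mem_univ _)
  have ha' : StrictMono fun j => φ (a j) := fun i j hij =>
    hφ (mem_coe.2 (haA i)) (mem_coe.2 (haA j)) (ha hij)
  have key : ∀ s : ℕ, (∀ b : Fin r → ℕ, StrictMono b →
      0 ≤ ε * pl (fun i => (1 + X) ^ s * (w ∘ e) i) b) ∧
      0 < ε * pl (fun i => (1 + X) ^ s * (w ∘ e) i) (fun j => min (a j + s) (φ (a j))) := by
    intro s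
    induction s with
    | zero =>
      have h2 : (fun i => (1 + X) ^ 0 * (w ∘ e) i) = w ∘ e := by
        funext i
        rw [pow_zero, one_mul]
      have h3 : (fun j => min (a j + 0) (φ (a j))) = a := by
        funext j
        have := (hφm _ (haA j)).1
        omega
      rw [h2, h3]
      exact ⟨h0, h1⟩
    | succ s ih =>
      have h2 : (fun i => (1 + X) ^ (s + 1) * (w ∘ e) i) =
          fun i => (1 + X) * ((1 + X) ^ s * (w ∘ e) i) := by
        funext i
        rw [pow_succ']
        ring
      rw [h2]
      refine ⟨fun b hb => pl_shift_nonneg _ ε ih.1 b hb,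
        pl_shift_pos _ ε ih.1 (fun j => min (a j + s) (φ (a j))) _ ?_ ?_ ih.2 ?_⟩
      · intro i j hij
        have h3 := ha hij
        have h4 : φ (a i) < φ (a j) := ha' hij
        show min (a i + s) (φ (a i)) < min (a j + s) (φ (a j))
        omega
      · intro i j hij
        have h3 := ha hij
        have h4 : φ (a i) < φ (a j) := ha' hij
        show min (a i + (s + 1)) (φ (a i)) < min (a j + (s + 1)) (φ (a j))
        omega
      · intro j
        constructor <;> omega
  refine ⟨r, e, fun j => φ (a j), ε, he, hI, ha', ?_, hε, (key m).1, ?_⟩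
  · rw [← hB, ← hA, image_image]
    rfl
  · have h2 := (key m).2
    have h3 : (fun j => min (a j + m) (φ (a j))) = fun j => φ (a j) := by
      funext j
      have := (hφm _ (haA j)).2
      omega
    rw [h3] at h2
    exact h2

end Pool.Agent.Lib_MP_8b82cd_t
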