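import Mathlib
import Pool.Agent.Lib_MP_8b82cd_t.Block

/-! One round: adjoining the new monomials. -/

namespace Pool.Agent.Lib_MP_8b82cd_t

open Polynomial Finset

private lemma Flow.key {d k : ℕ} {c x y : ℕ → ℕ → ℕ} (hF : Flow d k c x y) {t j : ℕ}
    (ht : t ≤ k) (hj : j < t) : c t j + y t j + x t (j + 1) ≤ d := by
  obtain ⟨t', rfl⟩ : ∃ t', t = t' + 1 := ⟨t - 1, by omega⟩
  have h1 := hF.bal t' (by omega) j (by omega)
  have h2 := hF.cap t' (by omega) j (by omega)
  omega

/-- labels after `n` blocks -/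
private def Sl (c : ℕ → ℕ → ℕ) (t n : ℕ) : Finset Lab :=
  Jl c t ∪ (range n).biUnion fun j => Bl t j (c t j)

/-- positions after `n` blocks -/
private def Sp (d : ℕ) (c x y : ℕ → ℕ → ℕ) (t n : ℕ) : Finset ℕ :=
  Bs d c x y t ∪ (range n).biUnion fun j => Ico (j * d) (j * d + c t j)

private lemma Sl_zero (c : ℕ → ℕ → ℕ) (t : ℕ) : Sl c t 0 = Jl c t := by simp [Sl]

private lemma Sp_zero (d : ℕ) (c x y : ℕ → ℕ → ℕ) (t : ℕ) : Sp d c x y t 0 = Bs d c x y t := by
  simp [Sp]

private lemma Sl_succ (c : ℕ → ℕ → ℕ) (t n : ℕ) : Sl c t (n + 1) = Sl c t n ∪ Bl t n (c t n) := by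
  unfold Sl
  rw [range_add_one, biUnion_insert, union_assoc, union_comm (Bl t n (c t n))]

private lemma Sp_succ (d : ℕ) (c x y : ℕ → ℕ → ℕ) (t n : ℕ) :
    Sp d c x y t (n + 1) = Sp d c x y t n ∪ Ico (n * d) (n * d + c t n) := by
  unfold Sp
  rw [range_add_one, biUnion_insert, union_assoc, union_comm (Ico (n * d) (n * d + c t n))]

private lemma Sl_last (c : ℕ → ℕ → ℕ) (t : ℕ) : Sl c t (t + 1) = Jl c (t + 1) := by
  unfold Sl Jl
  conv_rhs => rw [range_add_one, biUnion_insert, union_comm]

private lemma Sp_last {d k : ℕ} {c x y : ℕ → ℕ → ℕ} (hF : Flow d k c x y) {t : ℕ} (ht : t ≤ k) :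
    Sp d c x y t (t + 1) = As d c x y t := by
  have hy := hF.yt t ht
  ext p
  simp only [Sp, Bs, As, mem_union, mem_biUnion, mem_range, mem_Ico]
  constructor
  · rintro (⟨j, hj, h | h⟩ | ⟨j, hj, h⟩)
    · exact ⟨j, by omega, by omega, by omega⟩
    · exact ⟨j + 1, by omega, by omega, by omega⟩
    · exact ⟨j, hj, by omega, by omega⟩
  · rintro ⟨j, hj, h1, h2⟩
    by_cases h3 : p < j * d
    · left
      obtain ⟨j', rfl⟩ : ∃ j', j = j' + 1 := by
        refine ⟨j - 1, ?_⟩
        have : j ≠ 0 := by
          rintro rfl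
          simp at h3
        omega
      exact ⟨j', by omega, Or.inr ⟨h1, h3⟩⟩
    · by_cases h4 : p < j * d + c t j
      · right
        exact ⟨j, hj, by omega, h4⟩
      · left
        have : j ≠ t := by
          rintro rfl
          omega
        exact ⟨j, by omega, Or.inl ⟨by omega, h2⟩⟩

private lemma mem_Bl {i j c : ℕ} {l : Lab} : l ∈ Bl i j c ↔ l.1 = i ∧ l.2.1 = j ∧ l.2.2 < c := by
  unfold Bl
  simp only [mem_image, mem_range]
  constructor
  · rintro ⟨m, hm, rfl⟩
    exact ⟨rfl, rfl, hm⟩
  · rintro ⟨h1, h2, h3⟩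
    exact ⟨l.2.2, h3, by rw [← h1, ← h2]⟩

private lemma mem_Sl {c : ℕ → ℕ → ℕ} {t n : ℕ} {l : Lab} : l ∈ Sl c t n ↔
    (l.1 < t ∧ l.2.1 ≤ l.1 ∧ l.2.2 < c l.1 l.2.1) ∨ (l.1 = t ∧ l.2.1 < n ∧ l.2.2 < c t l.2.1) := by
  simp only [Sl, Jl, mem_union, mem_biUnion, mem_range, mem_Bl]
  constructor
  · rintro (⟨i, hi, j, hj, h1, h2, h3⟩ | ⟨j, hj, h1, h2, h3⟩)
    · subst h1; subst h2
      exact Or.inl ⟨hi, by omega, h3⟩
    · subst h2
      exact Or.inr ⟨h1, hj, h3⟩
  · rintro (⟨h1, h2, h3⟩ | ⟨h1, h2, h3⟩)
    · exact Or.inl ⟨l.1, h1, l.2.1, by omega, rfl, rfl, h3⟩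
    · exact Or.inr ⟨l.2.1, h2, h1, rfl, h3⟩

private lemma W_new (d t j m : ℕ) : W d t (t, j, m) = X ^ (j * d + m) := by
  simp [W]

private lemma notMem_Sl (c : ℕ → ℕ → ℕ) (t n m : ℕ) : (t, n, m) ∉ Sl c t n := by
  rw [mem_Sl]
  rintro (⟨h, -, -⟩ | ⟨-, h, -⟩)
  · exact lt_irrefl _ h
  · exact lt_irrefl _ h

private lemma sep_Sp {d k : ℕ} {c x y : ℕ → ℕ → ℕ} (hF : Flow d k c x y) {t n : ℕ} (ht : t ≤ k)
    (hn : n ≤ t) : ∀ p ∈ Sp d c x y t n, p < n * d ∨ (n < t ∧ n * d + c t n ≤ p) := by
  intro p hp
  simp only [Sp, Bs, mem_union, mem_biUnion, mem_range, mem_Ico] at hp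
  rcases hp with ⟨j, hj, hp⟩ | ⟨j, hj, hp⟩
  · have hk := hF.key ht hj
    have e : (j + 1) * d = j * d + d := by ring
    rcases lt_trichotomy j n with h | h | h
    · have h1 : (j + 1) * d ≤ n * d := Nat.mul_le_mul_right d h
      left
      rcases hp with hp | hp <;> omega
    · subst h
      right
      refine ⟨hj, ?_⟩
      rcases hp with hp | hp <;> omega
    · have h1 : (n + 1) * d ≤ j * d := Nat.mul_le_mul_right d h
      have e' : (n + 1) * d = n * d + d := by ring
      have hk' := hF.key ht (j := n) (by omega)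
      right
      refine ⟨by omega, ?_⟩
      rcases hp with hp | hp <;> omega
  · have hk := hF.key ht (j := j) (by omega)
    have e : (j + 1) * d = j * d + d := by ring
    have h1 : (j + 1) * d ≤ n * d := Nat.mul_le_mul_right d hj
    left
    omega

private lemma deg_W (d t : ℕ) (l : Lab) :
    (W d t l).natDegree ≤ l.2.1 * d + l.2.2 + (t - l.1) * d := by
  unfold W
  refine natDegree_mul_le.trans ?_
  have h1 : ((X : ℤ[X]) ^ (l.2.1 * d + l.2.2)).natDegree ≤ l.2.1 * d + l.2.2 :=
    natDegree_X_pow_le _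
  have h2 : ((1 + X : ℤ[X]) ^ ((t - l.1) * d)).natDegree ≤ (t - l.1) * d := by
    refine natDegree_pow_le.trans ?_
    have : (1 + X : ℤ[X]).natDegree ≤ 1 := by
      compute_degree
    calc (t - l.1) * d * (1 + X : ℤ[X]).natDegree ≤ (t - l.1) * d * 1 :=
          Nat.mul_le_mul_left _ this
      _ = (t - l.1) * d := mul_one _
  omega

/-- PIECE Stage. Adjoin the blocks `j = 0` (`Q.block_left`), `0 < j < t` (`Q.block_even`, by
`hF.even`), `j = t` (`Q.block_even` or `Q.block_right`, by `hF.right`; degrees: a label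
`(i, j, m)` with `j < i < t` has degree `< t d` since `m < c i j ≤ d` by `hF.cap`, and one with
`j = i < t` has degree `t d + m`, `m < c i i ≤ c t t`), one after the other: the label set is
`Jl c t` together with `Bl t j' (c t j')`, `j' < j`. Finally the union of `Bs` and all the blocks
is `As` (use `hF.x0`, `hF.yt`). Note `W d t (t, j, m) = X^(j d + m)`. For `t = 0` everything
starts from `∅`. -/
theorem Flow.stage {d k : ℕ} {c x y : ℕ → ℕ → ℕ} (hF : Flow d k c x y) {t : ℕ} (ht : t < k)
    (hQ : Q (Jl c t) (W d t) (Bs d c x y t)) : Q (Jl c (t + 1)) (W d t) (As d c x y t) := by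
  have main : ∀ n ≤ t + 1, Q (Sl c t n) (W d t) (Sp d c x y t n) := by
    intro n
    induction n with
    | zero =>
      intro _
      rw [Sl_zero, Sp_zero]
      exact hQ
    | succ n ih =>
      intro hn
      have ih := ih (by omega)
      have hnt : n ≤ t := by omega
      have hsep := sep_Sp hF ht.le hnt
      have hI : ∀ m < c t n, (t, n, m) ∉ Sl c t n := fun m _ => notMem_Sl c t n m
      have hw : ∀ m < c t n, W d t (t, n, m) = X ^ (n * d + m) := fun m _ => W_new d t n m
      rw [Sl_succ, Sp_succ]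
      have hev : Even (c t n) → Q (Sl c t n ∪ Bl t n (c t n)) (W d t)
          (Sp d c x y t n ∪ Ico (n * d) (n * d + c t n)) := fun he =>
        ih.block_even he hI hw fun p hp => (hsep p hp).imp_right fun h => h.2
      rcases Nat.eq_zero_or_pos n with h0 | h0
      · subst h0
        have hw' : ∀ m < c t 0, W d t (t, 0, m) = X ^ m := fun m hm => by
          rw [hw m hm]; simp
        have := ih.block_left hI hw' fun p hp => by
          rcases hsep p hp with h | h
          · simp at h
          · simpa using h.2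
        simpa using this
      · rcases hnt.lt_or_eq with h1 | h1
        · exact hev (hF.even t ht n h0 h1)
        · subst h1
          rcases hF.right n ht h0 with h2 | h2
          · exact hev h2
          · refine ih.block_right hI hw (fun p hp => ?_) fun l hl => ?_
            · rcases hsep p hp with h | h
              · exact h
              · exact absurd h.1 (lt_irrefl _)
            · refine (deg_W d n l).trans_lt ?_
              obtain ⟨i, j, m⟩ := l
              rw [mem_Sl] at hl
              simp only at hl ⊢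
              rcases hl with ⟨g1, g2, g3⟩ | ⟨g1, g2, g3⟩
              · rcases g2.lt_or_eq with g4 | g4
                · have hc := hF.cap i (by omega) j g2
                  have e : j * d + (n - i) * d + d = (j + 1 + (n - i)) * d := by ring
                  have e2 : (j + 1 + (n - i)) * d ≤ n * d :=
                    Nat.mul_le_mul_right d (by omega)
                  omega
                · subst g4
                  have hc := h2 j (by omega)
                  have e : j * d + (n - j) * d = n * d := by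
                    rw [← add_mul]; congr 1; omega
                  omega
              · subst g1
                have hk := hF.key ht.le g2
                have e : (j + 1) * d ≤ i * d := Nat.mul_le_mul_right d g2
                have e' : (j + 1) * d = j * d + d := by ring
                simp only [Nat.sub_self, zero_mul]
                omega
  have := main (t + 1) le_rfl
  rwa [Sl_last, Sp_last hF ht.le] at this

/-- the last round, without signs (`NZ.block`) -/
theorem Flow.stage_nz {d k : ℕ} {c x y : ℕ → ℕ → ℕ} (hF : Flow d k c x y) (hk : 1 ≤ k)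
    (hQ : NZ (Jl c k) (W d k) (Bs d c x y k)) : NZ (Jl c (k + 1)) (W d k) (As d c x y k) := by
  have main : ∀ n ≤ k + 1, NZ (Sl c k n) (W d k) (Sp d c x y k n) := by
    intro n
    induction n with
    | zero =>
      intro _
      rw [Sl_zero, Sp_zero]
      exact hQ
    | succ n ih =>
      intro hn
      have ih := ih (by omega)
      rw [Sl_succ, Sp_succ]
      exact ih.block (fun m _ => notMem_Sl c k n m) (fun m _ => W_new d k n m) fun p hp =>
        (sep_Sp hF le_rfl (by omega) p hp).imp_right fun h => h.2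
  have := main (k + 1) le_rfl
  rwa [Sl_last, Sp_last hF le_rfl] at this

end Pool.Agent.Lib_MP_8b82cd_t
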