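import Mathlib
import Pool.Agent.Lib_MP_8b82cd_t.Ind
import Pool.Agent.Lib_MP_8b82cd_t.Shift
import Pool.Agent.Lib_MP_8b82cd_t.Move
import Pool.Agent.Lib_MP_8b82cd_t.Stage

/-! All rounds. -/

namespace Pool.Agent.Lib_MP_8b82cd_t

open Polynomial Finset

private theorem fq_mem_Jl {c : ℕ → ℕ → ℕ} {t : ℕ} {l : Lab} :
    l ∈ Jl c t ↔ l.1 < t ∧ l.2.1 ≤ l.1 ∧ l.2.2 < c l.1 l.2.1 := by
  obtain ⟨i, j, m⟩ := l
  unfold Jl Bl
  simp only [mem_biUnion, mem_range, mem_image]
  constructor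
  · rintro ⟨i', hi', j', hj', m', hm', h⟩
    simp only [Prod.mk.injEq] at h
    obtain ⟨rfl, rfl, rfl⟩ := h
    exact ⟨hi', by omega, hm'⟩
  · rintro ⟨h1, h2, h3⟩
    exact ⟨i, h1, j, by
      have : j ≤ i := h2
      omega, m, h3, rfl⟩

private theorem fq_next {d k : ℕ} {c x y : ℕ → ℕ → ℕ} (hF : Flow d k c x y) {t : ℕ} (ht : t < k)
    (hQ : Q (Jl c (t + 1)) (W d t) (As d c x y t)) :
    Q (Jl c (t + 1)) (W d (t + 1)) (Bs d c x y (t + 1)) := by
  refine Q.congr ?_ (Q.mv hQ (hF.mv ht))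
  intro l hl
  have h1 : l.1 < t + 1 := (fq_mem_Jl.1 hl).1
  unfold W
  have h2 : t + 1 - l.1 = (t - l.1) + 1 := by omega
  rw [h2, add_mul, one_mul, pow_add]
  ring

/-- PIECE FlowQ. Induct on `t`: `Q.empty`, `Flow.stage`, then `Q.mv` with `Flow.mv` and
`W d (t+1) l = (1 + X)^d * W d t l` for `l ∈ Jl c (t+1)` (`Q.congr`). -/
theorem Flow.q {d k : ℕ} {c x y : ℕ → ℕ → ℕ} (hF : Flow d k c x y) :
    ∀ t < k, Q (Jl c (t + 1)) (W d t) (As d c x y t) := by
  intro t
  induction t with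
  | zero =>
    intro ht
    exact hF.stage ht (Q.empty _)
  | succ t ih =>
    intro ht
    exact hF.stage ht (fq_next hF (by omega) (ih (by omega)))

theorem Flow.nz {d k : ℕ} {c x y : ℕ → ℕ → ℕ} (hF : Flow d k c x y) (hk : 1 ≤ k) :
    NZ (Jl c (k + 1)) (W d k) (As d c x y k) := by
  obtain ⟨t, rfl⟩ : ∃ t, k = t + 1 := ⟨k - 1, by omega⟩
  exact hF.stage_nz hk (fq_next hF (Nat.lt_succ_self t) (hF.q t (Nat.lt_succ_self t))).nz

/-- the labels of `Lb k u` are among those of `Jl c (k+1)`; extend `α` by `0` (`NZ.indep`) -/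
theorem Flow.indep {d k u : ℕ} {c x y : ℕ → ℕ → ℕ} (hF : Flow d k c x y) (hk : 1 ≤ k)
    (hu : ∀ i ≤ k, ∀ j ≤ i, u ≤ c i j) : Indep d k u := by
  classical
  intro α h0 l hl
  have hsub : Lb k u ⊆ Jl c (k + 1) := by
    intro l hl
    obtain ⟨h1, h2, h3⟩ := fq_mem_Jl.1 hl
    have h4 := hu l.1 (by omega) l.2.1 h2
    exact fq_mem_Jl.2 ⟨h1, h2, by
      have : l.2.2 < u := h3
      omega⟩
  have h1 := (hF.nz hk).indep (fun l => if l ∈ Lb k u then α l else 0) ?_ l (hsub hl)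
  · simpa [hl] using h1
  · have h2 : ∑ l ∈ Lb k u, C ((if l ∈ Lb k u then α l else 0 : ℂ)) *
        (W d k l).map (Int.castRingHom ℂ) = 0 := by
      rw [← h0]
      refine Finset.sum_congr rfl fun l hl => ?_
      rw [if_pos hl]
      rfl
    rw [← h2]
    symm
    refine Finset.sum_subset hsub fun l _ hl => ?_
    rw [if_neg hl, C_0, zero_mul]

/-- `NZ.solve` at the positions `range (k d + u)`, and comparison of coefficients (all the
polynomials have degree `< k d + u`) -/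
theorem Flow.spans {d k u : ℕ} {c x y : ℕ → ℕ → ℕ} (hF : Flow d k c x y) (hk : 1 ≤ k)
    (hu : ∀ i ≤ k, ∀ j ≤ i, c i j ≤ u) (hA : range (k * d + u) ⊆ As d c x y k) :
    Spans d k u := by
  classical
  intro g hg
  have hsub : Jl c (k + 1) ⊆ Lb k u := by
    intro l hl
    obtain ⟨h1, h2, h3⟩ := fq_mem_Jl.1 hl
    have h4 := hu l.1 (by omega) l.2.1 h2
    exact fq_mem_Jl.2 ⟨h1, h2, by
      show l.2.2 < u
      omega⟩
  obtain ⟨α, hα⟩ := (hF.nz hk).solve fun n => g.coeff n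
  refine ⟨fun l => if l ∈ Jl c (k + 1) then α l else 0, ?_⟩
  have h1 : ∑ l ∈ Lb k u, C ((if l ∈ Jl c (k + 1) then α l else 0 : ℂ)) * WC d k l =
      ∑ l ∈ Jl c (k + 1), C (α l) * (W d k l).map (Int.castRingHom ℂ) := by
    rw [← Finset.sum_subset hsub (f := fun l =>
      C ((if l ∈ Jl c (k + 1) then α l else 0 : ℂ)) * WC d k l)]
    · refine Finset.sum_congr rfl fun l hl => ?_
      rw [if_pos hl]
      rfl
    · intro l _ hl
      rw [if_neg hl, C_0, zero_mul]
  rw [h1]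
  ext n
  rcases lt_or_ge n (k * d + u) with hn | hn
  · exact hα n (hA (mem_range.2 hn))
  · have h2 : g.coeff n = 0 := by
      apply coeff_eq_zero_of_degree_lt
      exact lt_of_lt_of_le hg (by exact_mod_cast hn)
    rw [h2, finsetSum_coeff]
    refine Finset.sum_eq_zero fun l hl => ?_
    obtain ⟨l1, l2, l3⟩ := fq_mem_Jl.1 hl
    have l4 := hu l.1 (by omega) l.2.1 l2
    rw [coeff_C_mul]
    have h3 : ((W d k l).map (Int.castRingHom ℂ)).coeff n = 0 := by
      apply coeff_eq_zero_of_natDegree_lt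
      have h4 : ((W d k l).map (Int.castRingHom ℂ)).natDegree ≤
          (l.2.1 * d + l.2.2) + (k - l.1) * d := by
        refine natDegree_map_le.trans ?_
        unfold W
        refine natDegree_mul_le.trans (add_le_add (natDegree_X_pow_le _) ?_)
        refine (natDegree_pow_le).trans ?_
        have h5 : (1 + X : ℤ[X]).natDegree ≤ 1 := by
          refine (natDegree_add_le _ _).trans ?_
          simp
        calc (k - l.1) * d * (1 + X : ℤ[X]).natDegree ≤ (k - l.1) * d * 1 :=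
              Nat.mul_le_mul_left _ h5
          _ = (k - l.1) * d := mul_one _
      have h6 : l.2.1 * d + (k - l.1) * d ≤ k * d := by
        rw [← add_mul]
        exact Nat.mul_le_mul_right _ (by omega)
      omega
    rw [h3, mul_zero]

end Pool.Agent.Lib_MP_8b82cd_t
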