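import Mathlib
import Pool.Agent.Lib_MP_8b82cd_t.FlowQ

/-! The two flows for independence. -/

namespace Pool.Agent.Lib_MP_8b82cd_t

open Finset

/-- PIECE InstI. `u = 2 w`. For `t < k`: `c = 2 w`, `x t j = w j`, `y t j = w (t - j)`;
for `t = k`: `c = 2 w`, `x = 0`, `y k j = w (k + 1)` for `j < k`, `y k k = 0`. -/
theorem indep_even {d k w : ℕ} (hk : 1 ≤ k) (h : w * (k + 3) ≤ d) : Indep d k (2 * w) := by
  have hF : Flow d k (fun _ _ => 2 * w) (fun t j => if t < k then w * j else 0)
      (fun t j => if t < k then w * (t - j) else if j < k then w * (k + 1) else 0) := by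
    refine ⟨fun t _ => by simp, fun t ht => ?_, fun t ht j hj => ?_, fun t ht j hj => ?_,
      fun t _ j _ _ => ⟨w, by ring⟩, fun t _ _ => Or.inl ⟨w, by ring⟩⟩
    · show (if t < k then w * (t - t) else if t < k then w * (k + 1) else 0) = 0
      split_ifs <;> simp
    · obtain ⟨s, rfl⟩ := Nat.exists_eq_add_of_le hj
      show (if j + s + 1 < k then w * (j + 1) else 0) +
        (if j + s + 1 < k then w * (j + s + 1 - j) else if j < k then w * (k + 1) else 0) =
        (if j + s < k then w * j else 0) + 2 * w +
        (if j + s < k then w * (j + s - j) else if j < k then w * (k + 1) else 0)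
      rw [if_pos ht, if_pos ht, Nat.add_sub_cancel_left, show j + s + 1 - j = s + 1 by omega]
      split_ifs with h1 h2
      · ring
      · have h3 : k = j + s + 1 := by omega
        rw [h3]
        ring
      · omega
    · obtain ⟨s, rfl⟩ := Nat.exists_eq_add_of_le hj
      show (if j + s < k then w * j else 0) + 2 * w +
        (if j + s < k then w * (j + s - j) else if j < k then w * (k + 1) else 0) + 2 * w ≤ d
      rw [if_pos ht, if_pos ht, Nat.add_sub_cancel_left]
      have h1 : w * (j + s + 4) ≤ w * (k + 3) := Nat.mul_le_mul_left w (by omega)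
      have h2 : w * j + 2 * w + w * s + 2 * w = w * (j + s + 4) := by ring
      omega
  exact hF.indep hk (fun i _ j _ => le_rfl)

/-- PIECE InstI. `u = 2 w - 1`. For `t < k`: `c t j = 2 w - 1` if `j = 0` or `j = t`, else `2 w`;
`x t 0 = 0`, `x t j = w j - 1` for `j ≥ 1`; `y t t = 0`, `y t 0 = w t`, `y t j = w (t - j) - 1` for
`1 ≤ j < t`. For `t = k`: `c = 2 w - 1`, `x = 0`, `y k j =` the length of the cluster `j` of round
`k - 1` for `j < k`, `y k k = 0`. -/
theorem indep_odd {d k w : ℕ} (hk : 1 ≤ k) (hw : 1 ≤ w) (h : w * (k + 3) ≤ d + 2) :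
    Indep d k (2 * w - 1) := by
  let c : ℕ → ℕ → ℕ := fun t j =>
    if t < k then (if j = 0 ∨ j = t then 2 * w - 1 else 2 * w) else 2 * w - 1
  let x : ℕ → ℕ → ℕ := fun t j => if t < k then (if j = 0 then 0 else w * j - 1) else 0
  let y0 : ℕ → ℕ → ℕ := fun t j => if j = t then 0 else if j = 0 then w * t else w * (t - j) - 1
  let y : ℕ → ℕ → ℕ := fun t j => if t < k then y0 t j else
    if j < k then x (k - 1) j + c (k - 1) j + y0 (k - 1) j else 0
  -- the length of the clusters
  have hlen : ∀ t < k, ∀ j ≤ t, x t j + c t j + y t j + (if j = 0 then 1 else 2) = w * (t + 2) := by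
    intro t ht j hj
    simp only [x, c, y, y0, if_pos ht]
    by_cases h0 : j = 0
    · subst h0
      by_cases h1 : t = 0
      · subst h1
        simp
        omega
      · have h2 : ¬ (0 = t) := fun h3 => h1 h3.symm
        simp only [if_true, true_or, if_neg h2]
        have h4 : w * (t + 2) = w * t + 2 * w := by ring
        omega
    · obtain ⟨s, rfl⟩ := Nat.exists_eq_add_of_le hj
      have hj1 : w ≤ w * j := Nat.le_mul_of_pos_right w (by omega)
      have h4 : w * (j + s + 2) = w * j + w * s + 2 * w := by ring
      by_cases h1 : s = 0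
      · subst h1
        simp only [if_neg h0, add_zero, or_true, if_true] at *
        have h5 : w * (j + 2) = w * j + 2 * w := by ring
        omega
      · have h2 : ¬ (j = j + s) := by omega
        have hs1 : w ≤ w * s := Nat.le_mul_of_pos_right w (by omega)
        simp only [h0, h2, or_self, if_false, Nat.add_sub_cancel_left]
        omega
  have hF : Flow d k c x y := by
    refine ⟨fun t _ => ?_, fun t ht => ?_, fun t ht j hj => ?_, fun t ht j hj => ?_,
      fun t ht j h1 h2 => ?_, fun t ht h1 => Or.inr fun s hs => ?_⟩
    · simp only [x, if_true, ite_self]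
    · simp only [y, y0, if_true]
      split_ifs <;> rfl
    · have hl := hlen t ht j hj
      by_cases h1 : t + 1 < k
      · have hl' : x (t + 1) (j + 1) + y (t + 1) j + (if j = 0 then 1 else 2) = w * (t + 2) := by
          have h2 : ¬ (j + 1 = 0) := by omega
          have h3 : ¬ (j = t + 1) := by omega
          simp only [x, y, y0, if_pos h1, if_neg h2, if_neg h3]
          by_cases h0 : j = 0
          · subst h0
            simp only [if_true, zero_add, mul_one]
            have h4 : w * (t + 2) = w * (t + 1) + w := by ring
            omega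
          · simp only [if_neg h0]
            obtain ⟨s, rfl⟩ := Nat.exists_eq_add_of_le hj
            rw [show j + s + 1 - j = s + 1 by omega]
            have h4 : w * (j + s + 2) = w * j + w * s + 2 * w := by ring
            have h5 : w * (j + 1) = w * j + w := by ring
            have h6 : w * (s + 1) = w * s + w := by ring
            omega
        omega
      · have h2 : t + 1 = k := by omega
        have h3 : ¬ (t + 1 < k) := h1
        have h4 : j < k := by omega
        have h5 : k - 1 = t := by omega
        have e1 : x (t + 1) (j + 1) = 0 := by simp only [x, if_neg h3]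
        have e2 : y (t + 1) j = x t j + c t j + y0 t j := by
          simp only [y, if_neg h3, if_pos h4, h5]
        have e3 : y t j = y0 t j := by simp only [y, if_pos ht]
        rw [e1, e2, e3, zero_add]
    · have hl := hlen t ht j hj
      have h1 : w * (t + 4) ≤ w * (k + 3) := Nat.mul_le_mul_left w (by omega)
      have h2 : w * (t + 4) = w * (t + 2) + 2 * w := by ring
      have h3 : c (t + 1) j + (if j = 0 then 1 else 0) ≤ 2 * w := by
        simp only [c]
        split_ifs <;> omega
      have h4 : (if j = 0 then 1 else 2) + (if j = 0 then 1 else 0) = (2 : ℕ) := by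
        split_ifs <;> rfl
      omega
    · simp only [c, if_pos ht]
      have h3 : ¬ (j = 0 ∨ j = t) := by omega
      rw [if_neg h3]
      exact ⟨w, by ring⟩
    · have hs' : s < k := lt_of_le_of_lt hs ht
      simp only [c, if_pos ht, if_pos hs', or_true, if_true]
      exact le_rfl
  refine hF.indep hk (fun i _ j _ => ?_)
  simp only [c]
  split_ifs <;> omega

end Pool.Agent.Lib_MP_8b82cd_t
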