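import Mathlib
import Pool.Agent.Lib_MP_8b82cd_t.FlowQ

/-! The flow for the spanning property. -/

namespace Pool.Agent.Lib_MP_8b82cd_t

open Finset

/-- numbers of new monomials -/
def cS (k u w ρ : ℕ) (t j : ℕ) : ℕ :=
  if t < k then
    (if t + 2 ≤ ρ then 2 * w + 2
      else if j = 0 then 2 * w + ρ % 2 else if j ≤ ρ / 2 then 2 * w + 2 else 2 * w)
  else u

/-- numbers of positions below the new monomials -/
def xS (k w ρ : ℕ) (t j : ℕ) : ℕ :=
  if t < k then
    (if t + 2 ≤ ρ then (w + 1) * j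
      else if j = 0 then 0 else w * j + min (ρ % 2 + 2 * (j - 1)) ρ)
  else 0

/-- numbers of positions above the new monomials -/
def yS (d k u w ρ : ℕ) (t j : ℕ) : ℕ :=
  if t < k then
    (if t + 2 ≤ ρ then (w + 1) * (t - j) else w * (t - j) + 2 * (ρ / 2 - j))
  else if j < k then d - u else 0

private lemma sum_eq {d k u w ρ t j : ℕ} (ht : t < k) (hj : j ≤ t) :
    xS k w ρ t j + cS k u w ρ t j + yS d k u w ρ t j = w * (t + 2) + min (t + 2) ρ := by
  obtain ⟨s, rfl⟩ := Nat.exists_eq_add_of_le hj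
  have e1 : w * (j + s + 2) = w * j + w * s + 2 * w := by ring
  have e2 : (w + 1) * j = w * j + j := by ring
  have e3 : (w + 1) * s = w * s + s := by ring
  have e4 : j + s - j = s := by omega
  unfold xS cS yS
  rw [if_pos ht, if_pos ht, if_pos ht, e1, e4]
  by_cases h1 : j + s + 2 ≤ ρ
  · rw [if_pos h1, if_pos h1, if_pos h1, e2, e3]
    omega
  · rw [if_neg h1, if_neg h1, if_neg h1]
    by_cases h2 : j = 0
    · subst h2
      simp only [if_true, mul_zero]
      omega
    · rw [if_neg h2, if_neg h2]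
      by_cases h3 : j ≤ ρ / 2
      · rw [if_pos h3]; omega
      · rw [if_neg h3]; omega

private lemma next_eq {d k u w ρ t j : ℕ} (hd : d = u + w * (k + 1) + ρ) (hρ : ρ ≤ k)
    (ht : t < k) (hj : j ≤ t) :
    xS k w ρ (t + 1) (j + 1) + yS d k u w ρ (t + 1) j = w * (t + 2) + min (t + 2) ρ := by
  by_cases h0 : t + 1 < k
  · obtain ⟨s, rfl⟩ := Nat.exists_eq_add_of_le hj
    have e1 : w * (j + s + 2) = w * j + w * s + 2 * w := by ring
    have e2 : (w + 1) * (j + 1) = w * j + j + w + 1 := by ring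
    have e3 : (w + 1) * (s + 1) = w * s + s + w + 1 := by ring
    have e4 : j + s + 1 - j = s + 1 := by omega
    have e5 : w * (j + 1) = w * j + w := by ring
    have e6 : w * (s + 1) = w * s + w := by ring
    unfold xS yS
    rw [if_pos h0, if_pos h0, e1, e4]
    by_cases h1 : j + s + 1 + 2 ≤ ρ
    · rw [if_pos h1, if_pos h1, e2, e3]
      omega
    · rw [if_neg h1, if_neg h1, if_neg (by omega : ¬ (j + 1 = 0)), e5, e6]
      omega
  · have h1 : k = t + 1 := by omega
    subst h1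
    unfold xS yS
    rw [if_neg h0, if_neg h0, if_pos (by omega : j < t + 1)]
    have e1 : w * (t + 1 + 1) = w * (t + 2) := by ring
    omega

private lemma c_le {k u w ρ : ℕ}
    (h : (ρ = 0 ∧ 2 * w ≤ u) ∨ (ρ = 1 ∧ 2 * w + 1 ≤ u) ∨ 2 * w + 2 ≤ u) (t j : ℕ) :
    cS k u w ρ t j ≤ u := by
  unfold cS
  split_ifs <;> omega

theorem spans_gen {d k u w ρ : ℕ} (hk : 1 ≤ k) (hu : u ≤ d) (hd : d = u + w * (k + 1) + ρ)
    (hρ : ρ ≤ k) (h : (ρ = 0 ∧ 2 * w ≤ u) ∨ (ρ = 1 ∧ 2 * w + 1 ≤ u) ∨ 2 * w + 2 ≤ u) :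
    Spans d k u := by
  have hF : Flow d k (cS k u w ρ) (xS k w ρ) (yS d k u w ρ) := by
    refine ⟨?_, ?_, ?_, ?_, ?_, ?_⟩
    · intro t _
      unfold xS
      simp
    · intro t ht
      unfold yS
      have e : t - t = 0 := by omega
      rw [e, mul_zero, mul_zero]
      split_ifs <;> omega
    · intro t ht j hj
      rw [sum_eq ht hj, next_eq hd hρ ht hj]
    · intro t ht j hj
      rw [sum_eq ht hj]
      have h1 := c_le (k := k) h (t + 1) j
      have h2 : w * (t + 2) ≤ w * (k + 1) := Nat.mul_le_mul_left _ (by omega)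
      omega
    · intro t ht j hj1 hj2
      unfold cS
      rw [if_pos ht, if_neg (by omega : ¬ j = 0)]
      split_ifs
      · exact ⟨w + 1, by ring⟩
      · exact ⟨w + 1, by ring⟩
      · exact ⟨w, by ring⟩
    · intro t ht ht1
      left
      unfold cS
      rw [if_pos ht, if_neg (by omega : ¬ t = 0)]
      split_ifs
      · exact ⟨w + 1, by ring⟩
      · exact ⟨w + 1, by ring⟩
      · exact ⟨w, by ring⟩
  refine hF.spans hk (fun i _ j _ => c_le h i j) ?_
  intro p hp
  rw [mem_range] at hp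
  unfold As
  rw [mem_biUnion]
  have hx : ∀ j, xS k w ρ k j = 0 := fun j => by unfold xS; simp
  have hc : ∀ j, cS k u w ρ k j = u := fun j => by unfold cS; simp
  by_cases h1 : p < k * d
  · have hd0 : 0 < d := by
      rcases Nat.eq_zero_or_pos d with h0 | h0
      · rw [h0, mul_zero] at h1; omega
      · exact h0
    have h2 : p / d < k := (Nat.div_lt_iff_lt_mul hd0).2 h1
    refine ⟨p / d, mem_range.2 (by omega), ?_⟩
    rw [mem_Ico, hx, hc]
    unfold yS
    rw [if_neg (lt_irrefl k), if_pos h2]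
    have h3 := Nat.div_add_mod p d
    have h4 := Nat.mod_lt p hd0
    have h5 : d * (p / d) = p / d * d := by ring
    omega
  · refine ⟨k, mem_range.2 (by omega), ?_⟩
    rw [mem_Ico, hx, hc]
    omega

/-- from `spans_gen`, `w = (d - u) / (k + 1)`, `ρ = (d - u) % (k + 1)` -/
theorem spans_even {d k u : ℕ} (hk : 1 ≤ k) (hu : u ≤ d) (he : Even u)
    (h : 2 * d ≤ u * (k + 3)) : Spans d k u := by
  obtain ⟨v, rfl⟩ := he
  have h1 := Nat.div_add_mod (d - (v + v)) (k + 1)
  have h2 := Nat.mod_lt (d - (v + v)) (by omega : 0 < k + 1)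
  set w := (d - (v + v)) / (k + 1)
  set ρ := (d - (v + v)) % (k + 1)
  have h3 : (v + v) * (k + 3) = 2 * (v * (k + 1)) + 2 * (v + v) := by ring
  have h4 : (k + 1) * w + ρ ≤ v * (k + 1) := by omega
  have h5 : (k + 1) * w = w * (k + 1) := by ring
  rw [h5] at h1 h4
  refine spans_gen (w := w) (ρ := ρ) hk hu (by omega) (by omega) ?_
  rcases Nat.eq_zero_or_pos ρ with h0 | h0
  · left
    refine ⟨h0, ?_⟩
    have h6 : w * (k + 1) ≤ v * (k + 1) := by omega
    have := Nat.le_of_mul_le_mul_right h6 (by omega)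
    omega
  · right; right
    have h6 : w * (k + 1) < v * (k + 1) := by omega
    have := Nat.lt_of_mul_lt_mul_right h6
    omega

theorem spans_odd {d k u : ℕ} (hk : 1 ≤ k) (hu : u ≤ d) (ho : Odd u)
    (h : 2 * d + (k - 1) ≤ u * (k + 3)) : Spans d k u := by
  have h1 := Nat.div_add_mod (d - u) (k + 1)
  have h2 := Nat.mod_lt (d - u) (by omega : 0 < k + 1)
  set w := (d - u) / (k + 1)
  set ρ := (d - u) % (k + 1)
  have h3 : u * (k + 3) = u * (k + 1) + 2 * u := by ring
  have h5 : (k + 1) * w = w * (k + 1) := by ring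
  rw [h5] at h1
  have h4 : 2 * (w * (k + 1)) + 2 * ρ + (k - 1) ≤ u * (k + 1) := by omega
  refine spans_gen (w := w) (ρ := ρ) hk hu (by omega) (by omega) ?_
  by_cases h6 : 2 * w + 2 ≤ u
  · right; right; exact h6
  · obtain ⟨v, rfl⟩ := ho
    have h7 : v ≤ w := by omega
    have h8 : w ≤ v := by
      by_contra h9
      have h10 : (v + 1) * (k + 1) ≤ w * (k + 1) := Nat.mul_le_mul_right _ (by omega)
      have h11 : (v + 1) * (k + 1) = v * (k + 1) + (k + 1) := by ring
      have h12 : (2 * v + 1) * (k + 1) = 2 * (v * (k + 1)) + (k + 1) := by ring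
      omega
    have h9 : v = w := le_antisymm h7 h8
    have h12 : (2 * v + 1) * (k + 1) = 2 * (v * (k + 1)) + (k + 1) := by ring
    rw [h9] at h12
    rw [h9] at h4
    omega

end Pool.Agent.Lib_MP_8b82cd_t
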