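import Mathlib
import Pool.Agent.Lib_MP_8b82cd_t.InstI
import Pool.Agent.Lib_MP_8b82cd_t.InstS

/-! The three flows: `indep_even`, `indep_odd` (file `InstI`), `spans_gen`, `spans_even`,
`spans_odd` (file `InstS`). -/
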