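import Mathlib
import Pool.Agent.Lib_MP_8b82cd_t.Defs3

/-! The substitution `x_0 ↦ 1`, `x_1 ↦ X`, `x_2 ↦ -(1 + X)`. -/

namespace Pool.Agent.Lib_MP_8b82cd_t

open Finset Pool.Agent.Lib_MP_8b82cd_ag

/-- the substitution -/
noncomputable def sub3 : MvPolynomial (Fin 3) ℂ →ₐ[ℂ] Polynomial ℂ :=
  MvPolynomial.aeval ![1, Polynomial.X, -(1 + Polynomial.X)]

private theorem sub3_X0 : sub3 (MvPolynomial.X 0) = 1 := by
  simp [sub3]

private theorem sub3_X1 : sub3 (MvPolynomial.X 1) = Polynomial.X := by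
  simp [sub3]

private theorem sub3_X2 : sub3 (MvPolynomial.X 2) = -(1 + Polynomial.X) := by
  simp [sub3]

private theorem sub3_C (c : ℂ) : sub3 (MvPolynomial.C c) = Polynomial.C c := by
  simp [sub3]

private theorem repr3 (f : MvPolynomial (Fin 3) ℂ) :
    f = ∑ m ∈ f.support, MvPolynomial.C (f.coeff m) *
      (MvPolynomial.X 0 ^ m 0 * MvPolynomial.X 1 ^ m 1 * MvPolynomial.X 2 ^ m 2) := by
  conv_lhs => rw [f.as_sum]
  refine sum_congr rfl fun m _ => ?_
  rw [MvPolynomial.monomial_eq, Finsupp.prod_fintype _ _ (fun i => pow_zero _),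
    Fin.prod_univ_three]

private theorem sub3_repr (f : MvPolynomial (Fin 3) ℂ) :
    sub3 f = ∑ m ∈ f.support, Polynomial.C (f.coeff m) *
      (Polynomial.X ^ m 1 * (-(1 + Polynomial.X)) ^ m 2) := by
  conv_lhs => rw [repr3 f]
  rw [map_sum]
  refine sum_congr rfl fun m _ => ?_
  rw [map_mul, map_mul, map_mul, map_pow, map_pow, map_pow, sub3_X0, sub3_X1, sub3_X2, sub3_C,
    one_pow, one_mul]

private theorem deg3 (b c : ℕ) :
    (Polynomial.X ^ b * (-(1 + Polynomial.X)) ^ c : Polynomial ℂ).degree ≤ (b + c : ℕ) := by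
  have h1 : (-(1 + Polynomial.X) : Polynomial ℂ).degree ≤ 1 := by
    rw [Polynomial.degree_neg]
    refine (Polynomial.degree_add_le _ _).trans (max_le ?_ Polynomial.degree_X_le)
    exact Polynomial.degree_one_le.trans (by norm_num)
  have h2 : ((-(1 + Polynomial.X) : Polynomial ℂ) ^ c).degree ≤ (c : ℕ) := by
    refine (Polynomial.degree_pow_le_of_le c h1).trans ?_
    simp
  refine (Polynomial.degree_mul_le _ _).trans ?_
  push_cast
  exact add_le_add (Polynomial.degree_X_pow_le b) h2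

private theorem hom3 {f : MvPolynomial (Fin 3) ℂ} {e : ℕ} (hf : f.IsHomogeneous e)
    {m : Fin 3 →₀ ℕ} (hm : m ∈ f.support) : m 0 + m 1 + m 2 = e := by
  have h := isHomogeneous_iff.1 hf m (MvPolynomial.mem_support_iff.1 hm)
  rwa [Fin.sum_univ_three] at h

theorem sub3_ell : sub3 (ell 3) = 0 := by
  rw [ell, Fin.sum_univ_three, map_add, map_add, sub3_X0, sub3_X1, sub3_X2]
  ring

/-- degree of the image -/
theorem sub3_degree {f : MvPolynomial (Fin 3) ℂ} {e : ℕ} (hf : f.IsHomogeneous e) :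
    (sub3 f).degree < (e + 1 : ℕ) := by
  rw [sub3_repr, ← Polynomial.mem_degreeLT]
  refine Submodule.sum_mem _ fun m hm => ?_
  rw [Polynomial.mem_degreeLT]
  have h := hom3 hf hm
  have h0 : (Polynomial.C (f.coeff m) *
      (Polynomial.X ^ m 1 * (-(1 + Polynomial.X)) ^ m 2) : Polynomial ℂ).degree ≤
      (m 1 + m 2 : ℕ) := by
    refine (Polynomial.degree_mul_le _ _).trans ?_
    have h1 := add_le_add (Polynomial.degree_C_le (a := f.coeff m)) (deg3 (m 1) (m 2))
    rwa [zero_add] at h1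
  refine lt_of_le_of_lt h0 ?_
  exact_mod_cast (by omega : m 1 + m 2 < e + 1)

/-- the form of degree `n` in `x_0, x_1` with the coefficients of `p` -/
private noncomputable def hm (n : ℕ) (p : Polynomial ℂ) : MvPolynomial (Fin 3) ℂ :=
  ∑ i ∈ range (n + 1), MvPolynomial.C (p.coeff i) *
    (MvPolynomial.X 1 ^ i * MvPolynomial.X 0 ^ (n - i))

private theorem hm_zero (n : ℕ) : hm n 0 = 0 := by
  simp [hm]

private theorem hm_add (n : ℕ) (p q : Polynomial ℂ) : hm n (p + q) = hm n p + hm n q := by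
  simp only [hm, Polynomial.coeff_add, map_add, add_mul, sum_add_distrib]

private theorem hm_neg (n : ℕ) (p : Polynomial ℂ) : hm n (-p) = -hm n p := by
  simp only [hm, Polynomial.coeff_neg, map_neg, neg_mul, sum_neg_distrib]

private theorem hm_C (n : ℕ) (c : ℂ) (p : Polynomial ℂ) :
    hm n (Polynomial.C c * p) = MvPolynomial.C c * hm n p := by
  simp only [hm, Polynomial.coeff_C_mul, map_mul, mul_sum]
  exact sum_congr rfl fun i _ => by ring

private theorem hm_sum (n : ℕ) {ι : Type*} (s : Finset ι) (F : ι → Polynomial ℂ) :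
    hm n (∑ m ∈ s, F m) = ∑ m ∈ s, hm n (F m) := by
  classical
  induction s using Finset.induction_on with
  | empty => simp [hm_zero]
  | insert a s ha ih => rw [sum_insert ha, sum_insert ha, hm_add, ih]

private theorem hm_X (n : ℕ) (p : Polynomial ℂ) :
    hm (n + 1) (Polynomial.X * p) = MvPolynomial.X 1 * hm n p := by
  rw [hm, sum_range_succ', Polynomial.coeff_X_mul_zero, map_zero, zero_mul, add_zero, hm, mul_sum]
  refine sum_congr rfl fun i _ => ?_
  rw [Polynomial.coeff_X_mul, Nat.add_sub_add_right, pow_succ]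
  ring

private theorem hm_one (n : ℕ) (p : Polynomial ℂ) (h : p.degree ≤ (n : ℕ)) :
    hm (n + 1) p = MvPolynomial.X 0 * hm n p := by
  have h0 : p.coeff (n + 1) = 0 := by
    refine Polynomial.coeff_eq_zero_of_degree_lt (lt_of_le_of_lt h ?_)
    exact_mod_cast Nat.lt_succ_self n
  rw [hm, sum_range_succ, h0, map_zero, zero_mul, add_zero, hm, mul_sum]
  refine sum_congr rfl fun i hi => ?_
  have : n + 1 - i = (n - i) + 1 := by
    have := mem_range.1 hi
    omega
  rw [this, pow_succ]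
  ring

private theorem deg_pow (c : ℕ) :
    ((-(1 + Polynomial.X)) ^ c : Polynomial ℂ).degree ≤ (c : ℕ) := by
  have h := deg3 0 c
  rwa [pow_zero, one_mul, zero_add] at h

private theorem hm_c (c : ℕ) : hm c ((-(1 + Polynomial.X)) ^ c) =
    (-(MvPolynomial.X 0 + MvPolynomial.X 1)) ^ c := by
  induction c with
  | zero => simp [hm]
  | succ c ih =>
    have e1 : ((-(1 + Polynomial.X)) ^ (c + 1) : Polynomial ℂ) =
        -((-(1 + Polynomial.X)) ^ c + Polynomial.X * (-(1 + Polynomial.X)) ^ c) := by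
      rw [pow_succ]; ring
    rw [e1, hm_neg, hm_add, hm_X, hm_one _ _ (deg_pow c), ih, pow_succ]
    ring

private theorem hm_b (b c : ℕ) (p : Polynomial ℂ) : hm (b + c) (Polynomial.X ^ b * p) =
    MvPolynomial.X 1 ^ b * hm c p := by
  induction b with
  | zero => simp
  | succ b ih =>
    rw [show b + 1 + c = (b + c) + 1 by ring, pow_succ', mul_assoc, hm_X, ih, pow_succ']
    ring

private theorem hm_a (a k : ℕ) (p : Polynomial ℂ) (h : p.degree ≤ (k : ℕ)) : hm (a + k) p =
    MvPolynomial.X 0 ^ a * hm k p := by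
  induction a with
  | zero => simp
  | succ a ih =>
    have h' : p.degree ≤ ((a + k : ℕ) : ℕ) := h.trans (by exact_mod_cast Nat.le_add_left k a)
    rw [show a + 1 + k = (a + k) + 1 by ring, hm_one _ _ h', ih, pow_succ']
    ring

private theorem hm_mon {n : ℕ} (a b c : ℕ) (h : a + b + c = n) :
    hm n (Polynomial.X ^ b * (-(1 + Polynomial.X)) ^ c) =
      MvPolynomial.X 0 ^ a * MvPolynomial.X 1 ^ b *
        (-(MvPolynomial.X 0 + MvPolynomial.X 1)) ^ c := by
  rw [← h, add_assoc, hm_a a (b + c) _ (deg3 b c), hm_b, hm_c]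
  ring

/-- the quotient of `X_2 ^ c - (-(X_0 + X_1)) ^ c` by `ell 3` -/
private noncomputable def qc (c : ℕ) : MvPolynomial (Fin 3) ℂ :=
  ∑ i ∈ range c, MvPolynomial.X 2 ^ i * (-(MvPolynomial.X 0 + MvPolynomial.X 1)) ^ (c - 1 - i)

private theorem qc_mul (c : ℕ) : ell 3 * qc c =
    MvPolynomial.X 2 ^ c - (-(MvPolynomial.X 0 + MvPolynomial.X 1)) ^ c := by
  have h := (Commute.all (MvPolynomial.X 2 : MvPolynomial (Fin 3) ℂ)
    (-(MvPolynomial.X 0 + MvPolynomial.X 1))).mul_geom_sum₂ c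
  rw [← h, qc, ell, Fin.sum_univ_three]
  congr 1
  ring

private theorem qc_hom (a b c e : ℕ) (h : a + b + c = e + 1) :
    (MvPolynomial.X 0 ^ a * MvPolynomial.X 1 ^ b * qc c : MvPolynomial (Fin 3) ℂ).IsHomogeneous
      e := by
  rw [qc, mul_sum]
  refine MvPolynomial.IsHomogeneous.sum _ _ _ fun i hi => ?_
  have hi' := mem_range.1 hi
  have hy : (-(MvPolynomial.X 0 + MvPolynomial.X 1) : MvPolynomial (Fin 3) ℂ).IsHomogeneous 1 :=
    ((MvPolynomial.isHomogeneous_X _ _).add (MvPolynomial.isHomogeneous_X _ _)).neg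
  have h1 := (((MvPolynomial.isHomogeneous_X ℂ (0 : Fin 3)).pow a).mul
    ((MvPolynomial.isHomogeneous_X ℂ (1 : Fin 3)).pow b)).mul
    (((MvPolynomial.isHomogeneous_X ℂ (2 : Fin 3)).pow i).mul (hy.pow (c - 1 - i)))
  have h2 : 1 * a + 1 * b + (1 * i + 1 * (c - 1 - i)) = e := by omega
  rwa [h2] at h1

/-- PIECE Link0. A form killed by the substitution is a multiple of the sum of the variables, with a
form as quotient. Proof: modulo `ell 3`, `f` is a form in `x_0, x_1` alone (replace `x_2` by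
`-(x_0 + x_1)`; induct or use `MvPolynomial.bind₁`), and the coefficients of such a form are the
coefficients of its image. -/
theorem sub3_ker {f : MvPolynomial (Fin 3) ℂ} {e : ℕ} (hf : f.IsHomogeneous (e + 1))
    (h : sub3 f = 0) : ∃ g : MvPolynomial (Fin 3) ℂ, g.IsHomogeneous e ∧ f = ell 3 * g := by
  refine ⟨∑ m ∈ f.support, MvPolynomial.C (f.coeff m) *
    (MvPolynomial.X 0 ^ m 0 * MvPolynomial.X 1 ^ m 1 * qc (m 2)), ?_, ?_⟩
  · refine MvPolynomial.IsHomogeneous.sum _ _ _ fun m hm' => ?_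
    have h1 := (MvPolynomial.isHomogeneous_C (Fin 3) (f.coeff m)).mul
      (qc_hom (m 0) (m 1) (m 2) e (hom3 hf hm'))
    rwa [zero_add] at h1
  · have h0 : hm (e + 1) (sub3 f) = 0 := by rw [h, hm_zero]
    rw [sub3_repr, hm_sum] at h0
    conv_lhs => rw [repr3 f]
    rw [← sub_zero (∑ m ∈ f.support, _), ← h0, mul_sum, ← sum_sub_distrib]
    refine sum_congr rfl fun m hm' => ?_
    rw [hm_C, hm_mon (m 0) (m 1) (m 2) (hom3 hf hm')]
    linear_combination (-MvPolynomial.C (f.coeff m) *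
      (MvPolynomial.X 0 ^ m 0 * MvPolynomial.X 1 ^ m 1)) * qc_mul (m 2)

end Pool.Agent.Lib_MP_8b82cd_t
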