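import Mathlib
import Pool.Agent.Lib_MP_8b82cd_t.Link0

/-! Linear independence gives injectivity. -/

namespace Pool.Agent.Lib_MP_8b82cd_t

open Finset Pool.Agent.Lib_MP_8b82cd_ag

private theorem li_sub3_monomial (m : Fin 3 →₀ ℕ) (c : ℂ) :
    sub3 (MvPolynomial.monomial m c) =
      Polynomial.C c * (Polynomial.X ^ (m 1) * (-(1 + Polynomial.X)) ^ (m 2)) := by
  unfold sub3
  rw [MvPolynomial.aeval_monomial, Finsupp.prod_fintype _ _ (by intro i; simp),
    Fin.prod_univ_three]
  simp

/-- sums over the labels -/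
private theorem li_sum_Lb {M : Type*} [AddCommMonoid M] (k u : ℕ) (g : Lab → M) :
    ∑ l ∈ Lb k u, g l =
      ∑ i ∈ range (k + 1), ∑ j ∈ range (i + 1), ∑ m ∈ range u, g (i, j, m) := by
  have hB : ∀ i j : ℕ, ∑ l ∈ Bl i j u, g l = ∑ m ∈ range u, g (i, j, m) := by
    intro i j
    unfold Bl
    rw [Finset.sum_image]
    intro a _ b _ hab
    simpa using hab
  unfold Lb Jl
  rw [Finset.sum_biUnion]
  · refine Finset.sum_congr rfl fun i _ => ?_
    rw [Finset.sum_biUnion]
    · exact Finset.sum_congr rfl fun j _ => hB i j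
    · intro a _ b _ hab
      simp only [Function.onFun]
      rw [Finset.disjoint_left]
      intro l hl hl'
      simp only [Bl, Finset.mem_image, Finset.mem_range] at hl hl'
      obtain ⟨m, -, rfl⟩ := hl
      obtain ⟨m', -, h'⟩ := hl'
      simp only [Prod.mk.injEq] at h'
      exact hab h'.2.1.symm
  · intro a _ b _ hab
    simp only [Function.onFun]
    rw [Finset.disjoint_left]
    intro l hl hl'
    simp only [Bl, Finset.mem_biUnion, Finset.mem_image, Finset.mem_range] at hl hl'
    obtain ⟨j, -, m, -, rfl⟩ := hl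
    obtain ⟨j', -, m', -, h'⟩ := hl'
    simp only [Prod.mk.injEq] at h'
    exact hab h'.1.symm

private theorem li_mem_Lb {k u i j m : ℕ} (hi : i ≤ k) (hj : j ≤ i) (hm : m < u) :
    ((i, j, m) : Lab) ∈ Lb k u := by
  simp only [Lb, Jl, Bl, Finset.mem_biUnion, Finset.mem_image, Finset.mem_range]
  exact ⟨i, by omega, j, by omega, m, hm, rfl⟩

/-- the exponent vector `d q` -/
private noncomputable def li_Q (d k i j : ℕ) : Fin 3 →₀ ℕ :=
  Finsupp.equivFunOnFinite.symm ![(i - j) * d, j * d, (k - i) * d]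

/-- the form `f_q` -/
private noncomputable def li_f (d k : ℕ) (F : MvPolynomial (Fin 3) ℂ) (i j : ℕ) :
    MvPolynomial (Fin 3) ℂ :=
  ∑ m ∈ F.support.filter (fun m => m 1 / d = j ∧ m 2 / d = k - i),
    MvPolynomial.monomial (m - li_Q d k i j) (MvPolynomial.coeff m F)

private theorem li_Q_le {d k i j : ℕ} {m : Fin 3 →₀ ℕ} (hi : i ≤ k) (hj : j ≤ i)
    (hm : ∑ t, m t / d = k) (h1 : m 1 / d = j) (h2 : m 2 / d = k - i) : li_Q d k i j ≤ m := by
  rw [Fin.sum_univ_three] at hm
  have h0 : m 0 / d = i - j := by omega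
  intro t
  fin_cases t
  · show (i - j) * d ≤ m 0
    rw [← h0]
    exact Nat.div_mul_le_self _ _
  · show j * d ≤ m 1
    rw [← h1]
    exact Nat.div_mul_le_self _ _
  · show (k - i) * d ≤ m 2
    rw [← h2]
    exact Nat.div_mul_le_self _ _

private theorem li_decomp {d k : ℕ} {F : MvPolynomial (Fin 3) ℂ}
    (hF : ∀ m ∈ F.support, ∑ t, m t / d = k) :
    F = ∑ i ∈ range (k + 1), ∑ j ∈ range (i + 1),
      MvPolynomial.monomial (li_Q d k i j) 1 * li_f d k F i j := by
  have h1 : ∀ i ∈ range (k + 1), ∀ j ∈ range (i + 1),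
      MvPolynomial.monomial (li_Q d k i j) 1 * li_f d k F i j =
        ∑ m ∈ F.support, if m 1 / d = j ∧ m 2 / d = k - i then
          MvPolynomial.monomial m (MvPolynomial.coeff m F) else 0 := by
    intro i hi j hj
    rw [Finset.mem_range] at hi hj
    unfold li_f
    rw [Finset.mul_sum, ← Finset.sum_filter]
    refine Finset.sum_congr rfl fun m hm => ?_
    rw [Finset.mem_filter] at hm
    rw [MvPolynomial.monomial_mul, one_mul, add_tsub_cancel_of_le
      (li_Q_le (by omega) (by omega) (hF m hm.1) hm.2.1 hm.2.2)]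
  rw [Finset.sum_congr rfl fun i hi => Finset.sum_congr rfl fun j hj => h1 i hi j hj]
  have h2 : ∀ i ∈ range (k + 1), ∑ j ∈ range (i + 1),
      (∑ m ∈ F.support, if m 1 / d = j ∧ m 2 / d = k - i then
          MvPolynomial.monomial m (MvPolynomial.coeff m F) else 0) =
      ∑ m ∈ F.support, ∑ j ∈ range (i + 1), if m 1 / d = j ∧ m 2 / d = k - i then
          MvPolynomial.monomial m (MvPolynomial.coeff m F) else 0 := by
    intro i _
    exact Finset.sum_comm
  rw [Finset.sum_congr rfl h2, Finset.sum_comm]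
  conv_lhs => rw [← MvPolynomial.support_sum_monomial_coeff F]
  refine Finset.sum_congr rfl fun m hm => ?_
  have hs := hF m hm
  rw [Fin.sum_univ_three] at hs
  generalize m 0 / d = a0 at hs
  generalize m 1 / d = a1 at hs ⊢
  generalize m 2 / d = a2 at hs ⊢
  rw [Finset.sum_eq_single (k - a2), Finset.sum_eq_single a1, if_pos]
  · exact ⟨rfl, by omega⟩
  · intro j _ hj
    rw [if_neg]
    rintro ⟨h, -⟩
    exact hj h.symm
  · intro h
    exfalso
    apply h
    rw [Finset.mem_range]
    omega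
  · intro i hi hne
    rw [Finset.mem_range] at hi
    refine Finset.sum_eq_zero fun j _ => ?_
    rw [if_neg]
    rintro ⟨-, h⟩
    omega
  · intro h
    exfalso
    apply h
    rw [Finset.mem_range]
    omega

private theorem li_f_hom {d k u : ℕ} {F : MvPolynomial (Fin 3) ℂ} (hu : 1 ≤ u)
    (hF : ∀ m ∈ F.support, ∑ t, m t / d = k) (hF' : ∀ m ∈ F.support, ∑ t, m t = k * d + (u - 1))
    {i j : ℕ} (hi : i ≤ k) (hj : j ≤ i) : (li_f d k F i j).IsHomogeneous (u - 1) := by
  unfold li_f
  apply MvPolynomial.IsHomogeneous.sum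
  intro m hm
  rw [Finset.mem_filter] at hm
  apply MvPolynomial.isHomogeneous_monomial
  have hle := li_Q_le hi hj (hF m hm.1) hm.2.1 hm.2.2
  have hs := hF' m hm.1
  rw [Finsupp.degree_eq_sum]
  rw [Fin.sum_univ_three] at hs ⊢
  have e0 : (m - li_Q d k i j) 0 = m 0 - (i - j) * d := rfl
  have e1 : (m - li_Q d k i j) 1 = m 1 - j * d := rfl
  have e2 : (m - li_Q d k i j) 2 = m 2 - (k - i) * d := rfl
  have l0 : (i - j) * d ≤ m 0 := hle 0
  have l1 : j * d ≤ m 1 := hle 1
  have l2 : (k - i) * d ≤ m 2 := hle 2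
  have hq : (i - j) * d + j * d + (k - i) * d = k * d := by
    rw [← Nat.add_mul, ← Nat.add_mul]
    congr 1
    omega
  rw [e0, e1, e2]
  omega

/-- a polynomial of degree less than `u` -/
private theorem li_sum_coeff {p : Polynomial ℂ} {u : ℕ} (hp : p.degree < (u : ℕ)) :
    ∑ m ∈ range u, Polynomial.C (p.coeff m) * Polynomial.X ^ m = p := by
  ext t
  rw [Polynomial.finsetSum_coeff]
  simp only [Polynomial.coeff_C_mul, Polynomial.coeff_X_pow]
  by_cases ht : t < u
  · rw [Finset.sum_eq_single t]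
    · simp
    · intro b _ hb
      simp [Ne.symm hb]
    · intro h
      exact absurd (Finset.mem_range.2 ht) h
  · rw [Finset.sum_eq_zero]
    · symm
      apply Polynomial.coeff_eq_zero_of_degree_lt
      refine lt_of_lt_of_le hp ?_
      exact_mod_cast not_lt.1 ht
    · intro b hb
      rw [Finset.mem_range] at hb
      rw [if_neg (by omega), mul_zero]

/-- PIECE LinkI. Let `G` be homogeneous of degree `e = k d + u - 2`, `F = ell 3 * G ∈ powI 3 d k`.
All monomials of `F` have floor sum exactly `k` (degree `< (k+1) d`), so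
`F = ∑_q x^(d q) f_q`, `|q| = k`, `f_q` forms of degree `u - 1`. Apply `sub3`: with
`i = k - q_2`, `j = q_1` (`q_0 = i - j`), `sub3 F = ± ∑ sub3 f_q X^(j d) (1 + X)^((k - i) d) = 0`;
`Indep` gives `sub3 f_q = 0` for all `q`, so `f_q = ell 3 * g_q` (`sub3_ker`; for `u = 1` the
`f_q` are constants, so they are `0`), and `G = ∑ x^(d q) g_q ∈ powI 3 d k`. -/
theorem inj_of_indep {d k u : ℕ} (hd : 2 ≤ d) (hk : 1 ≤ k) (hu : 1 ≤ u) (hud : u ≤ d)
    (h : Indep d k u) : InjP (powI 3 d k) (ell 3) (k * d + u - 2) 1 := by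
  intro G hG hmem
  have hd0 : 0 < d := by omega
  have hkd : 2 ≤ k * d := le_trans hd (Nat.le_mul_of_pos_left d hk)
  set F : MvPolynomial (Fin 3) ℂ := ell 3 ^ 1 * G with hFdef
  have hFhom : F.IsHomogeneous (k * d + u - 2 + 1) := ell_pow_mul_isHomogeneous hG 1
  have hF' : ∀ m ∈ F.support, ∑ t, m t = k * d + (u - 1) := by
    intro m hm
    have := (isHomogeneous_iff.1 hFhom) m (MvPolynomial.mem_support_iff.1 hm)
    omega
  have hF : ∀ m ∈ F.support, ∑ t, m t / d = k := by
    intro m hm
    have h1 : k ≤ ∑ t, m t / d := (mem_powI_iff hd0 k).1 hmem m hm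
    have h2 := hF' m hm
    have h3 : (∑ t, m t / d) * d ≤ ∑ t, m t := by
      rw [Finset.sum_mul]
      exact Finset.sum_le_sum fun t _ => Nat.div_mul_le_self _ _
    have h4 : (∑ t, m t / d) * d < (k + 1) * d := by
      rw [Nat.add_mul, one_mul]
      omega
    have h5 := Nat.lt_of_mul_lt_mul_right h4
    omega
  have hdec := li_decomp hF
  -- apply the substitution
  have hs0 : sub3 F = 0 := by
    rw [hFdef, pow_one, map_mul, sub3_ell, zero_mul]
  set p : ℕ → ℕ → Polynomial ℂ := fun i j => sub3 (li_f d k F i j) with hp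
  have hpdeg : ∀ i ≤ k, ∀ j ≤ i, (p i j).degree < (u : ℕ) := by
    intro i hi j hj
    have := sub3_degree (li_f_hom hu hF hF' hi hj)
    rwa [Nat.sub_add_cancel hu] at this
  have hsum : ∑ i ∈ range (k + 1), ∑ j ∈ range (i + 1),
      (Polynomial.X ^ (j * d) * (-(1 + Polynomial.X)) ^ ((k - i) * d)) * p i j = 0 := by
    rw [← hs0]
    conv_rhs => rw [hdec]
    rw [map_sum]
    refine Finset.sum_congr rfl fun i _ => ?_
    rw [map_sum]
    refine Finset.sum_congr rfl fun j _ => ?_
    rw [map_mul, li_sub3_monomial, Polynomial.C_1, one_mul]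
    rfl
  have hα := h (fun l => (-1) ^ ((k - l.1) * d) * (p l.1 l.2.1).coeff l.2.2) (by
    rw [li_sum_Lb, ← hsum]
    refine Finset.sum_congr rfl fun i hi => Finset.sum_congr rfl fun j hj => ?_
    rw [Finset.mem_range] at hi hj
    conv_rhs => rw [← li_sum_coeff (hpdeg i (by omega) j (by omega))]
    rw [Finset.mul_sum]
    refine Finset.sum_congr rfl fun m _ => ?_
    simp only [WC, W, Polynomial.map_mul, Polynomial.map_pow, Polynomial.map_X,
      Polynomial.map_add, Polynomial.map_one, Polynomial.C_mul, Polynomial.C_pow,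
      Polynomial.C_neg, Polynomial.C_1]
    rw [neg_pow ((1 : Polynomial ℂ) + Polynomial.X) ((k - i) * d)]
    ring)
  have hzero : ∀ i ≤ k, ∀ j ≤ i, sub3 (li_f d k F i j) = 0 := by
    intro i hi j hj
    show p i j = 0
    rw [← li_sum_coeff (hpdeg i hi j hj)]
    refine Finset.sum_eq_zero fun m hm => ?_
    have h1 := hα (i, j, m) (li_mem_Lb hi hj (Finset.mem_range.1 hm))
    have h2 : (p i j).coeff m = 0 := by
      rcases mul_eq_zero.1 h1 with h3 | h3
      · exact absurd h3 (pow_ne_zero _ (by norm_num))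
      · exact h3
    rw [h2]
    simp
  have hg : ∀ i ≤ k, ∀ j ≤ i, ∃ g : MvPolynomial (Fin 3) ℂ, li_f d k F i j = ell 3 * g := by
    intro i hi j hj
    have hhom := li_f_hom hu hF hF' hi hj
    rcases Nat.eq_or_lt_of_le hu with h1 | h1
    · refine ⟨0, ?_⟩
      rw [mul_zero]
      have h0 : (li_f d k F i j).IsHomogeneous 0 := by
        have : u - 1 = 0 := by omega
        rwa [this] at hhom
      have h2 : li_f d k F i j = MvPolynomial.C (MvPolynomial.coeff 0 (li_f d k F i j)) := by
        apply MvPolynomial.totalDegree_eq_zero_iff_eq_C.1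
        exact Nat.le_zero.1 h0.totalDegree_le
      have h3 := hzero i hi j hj
      rw [h2] at h3 ⊢
      have h4 : sub3 (MvPolynomial.C (MvPolynomial.coeff 0 (li_f d k F i j))) =
          Polynomial.C (MvPolynomial.coeff 0 (li_f d k F i j)) := by
        simp [sub3]
      rw [h4] at h3
      rw [Polynomial.C_eq_zero.1 h3, map_zero]
    · have h2 : (li_f d k F i j).IsHomogeneous ((u - 2) + 1) := by
        have : u - 2 + 1 = u - 1 := by omega
        rwa [this]
      obtain ⟨g, -, hg⟩ := sub3_ker h2 (hzero i hi j hj)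
      exact ⟨g, hg⟩
  choose! g hgeq using hg
  have hell : (ell 3 : MvPolynomial (Fin 3) ℂ) ≠ 0 := by
    intro h0
    have h1 : MvPolynomial.eval (fun _ => (1 : ℂ)) (ell 3) = 0 := by rw [h0, map_zero]
    simp only [ell, map_sum, MvPolynomial.eval_X] at h1
    norm_num at h1
  have hGeq : G = ∑ i ∈ range (k + 1), ∑ j ∈ range (i + 1),
      MvPolynomial.monomial (li_Q d k i j) 1 * g i j := by
    apply mul_left_cancel₀ hell
    have h1 : ell 3 * G = F := by rw [hFdef, pow_one]
    rw [h1]
    conv_lhs => rw [hdec]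
    rw [Finset.mul_sum]
    refine Finset.sum_congr rfl fun i hi => ?_
    rw [Finset.mul_sum]
    refine Finset.sum_congr rfl fun j hj => ?_
    rw [Finset.mem_range] at hi hj
    rw [hgeq i (by omega) j (by omega)]
    ring
  rw [hGeq]
  refine Ideal.sum_mem _ fun i hi => Ideal.sum_mem _ fun j hj => Ideal.mul_mem_right _ _ ?_
  rw [Finset.mem_range] at hi hj
  rw [mem_powI_iff hd0 k]
  intro m hm
  have hm' : m = li_Q d k i j := by
    have := MvPolynomial.support_monomial_subset hm
    simpa using this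
  rw [hm', Fin.sum_univ_three]
  have e0 : (li_Q d k i j) 0 = (i - j) * d := rfl
  have e1 : (li_Q d k i j) 1 = j * d := rfl
  have e2 : (li_Q d k i j) 2 = (k - i) * d := rfl
  rw [e0, e1, e2, Nat.mul_div_cancel _ hd0, Nat.mul_div_cancel _ hd0, Nat.mul_div_cancel _ hd0]
  omega

end Pool.Agent.Lib_MP_8b82cd_t
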