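import Mathlib
import Pool.Agent.Lib_MP_8b82cd_t.Link0

/-! The spanning property gives surjectivity. -/

namespace Pool.Agent.Lib_MP_8b82cd_t

open Finset Pool.Agent.Lib_MP_8b82cd_ag

private lemma mem_Lb {k u : ℕ} {l : Lab} (hl : l ∈ Lb k u) :
    l.1 ≤ k ∧ l.2.1 ≤ l.1 ∧ l.2.2 < u := by
  unfold Lb Jl Bl at hl
  simp only [mem_biUnion, mem_range, mem_image] at hl
  obtain ⟨i, hi, j, hj, m, hm, rfl⟩ := hl
  exact ⟨Nat.lt_succ_iff.1 hi, Nat.lt_succ_iff.1 hj, hm⟩

/-- the exponents of the form of a label -/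
private noncomputable def ex (d k u : ℕ) (l : Lab) : Fin 3 →₀ ℕ :=
  Finsupp.equivFunOnFinite.symm
    ![(l.1 - l.2.1) * d + (u - 1 - l.2.2), l.2.1 * d + l.2.2, (k - l.1) * d]

private lemma ex_sum {d k u : ℕ} {l : Lab} (hl : l ∈ Lb k u) :
    ∑ i, ex d k u l i = k * d + u - 1 := by
  obtain ⟨h1, h2, h3⟩ := mem_Lb hl
  obtain ⟨i, j, m⟩ := l
  simp only at h1 h2 h3
  rw [Fin.sum_univ_three]
  show (i - j) * d + (u - 1 - m) + (j * d + m) + (k - i) * d = k * d + u - 1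
  obtain ⟨a, rfl⟩ := Nat.exists_eq_add_of_le h2
  obtain ⟨b, rfl⟩ := Nat.exists_eq_add_of_le h1
  rw [Nat.add_sub_cancel_left, Nat.add_sub_cancel_left, add_mul, add_mul]
  omega

private lemma ex_floor {d k u : ℕ} (hd : 2 ≤ d) {l : Lab} (hl : l ∈ Lb k u) :
    k ≤ ∑ i, ex d k u l i / d := by
  obtain ⟨h1, h2, h3⟩ := mem_Lb hl
  obtain ⟨i, j, m⟩ := l
  simp only at h1 h2 h3
  rw [Fin.sum_univ_three]
  show k ≤ ((i - j) * d + (u - 1 - m)) / d + (j * d + m) / d + ((k - i) * d) / d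
  have e1 : i - j ≤ ((i - j) * d + (u - 1 - m)) / d := by
    rw [Nat.le_div_iff_mul_le (by omega)]; omega
  have e2 : j ≤ (j * d + m) / d := by
    rw [Nat.le_div_iff_mul_le (by omega)]; omega
  have e3 : k - i ≤ ((k - i) * d) / d := by
    rw [Nat.le_div_iff_mul_le (by omega)]
  omega

private lemma sub3_ex (d k u : ℕ) (l : Lab) (r : ℂ) :
    sub3 (MvPolynomial.monomial (ex d k u l) ((-1) ^ ((k - l.1) * d) * r)) =
      Polynomial.C r * WC d k l := by
  unfold sub3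
  rw [MvPolynomial.aeval_monomial, Finsupp.prod_fintype _ _ fun i => pow_zero _,
    Fin.prod_univ_three]
  have e0 : ex d k u l 0 = (l.1 - l.2.1) * d + (u - 1 - l.2.2) := rfl
  have e1 : ex d k u l 1 = l.2.1 * d + l.2.2 := rfl
  have e2 : ex d k u l 2 = (k - l.1) * d := rfl
  rw [e0, e1, e2]
  have h0 : (![1, Polynomial.X, -(1 + Polynomial.X)] : Fin 3 → Polynomial ℂ) 0 = 1 := rfl
  have h1 : (![1, Polynomial.X, -(1 + Polynomial.X)] : Fin 3 → Polynomial ℂ) 1 =
    Polynomial.X := rfl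
  have h2 : (![1, Polynomial.X, -(1 + Polynomial.X)] : Fin 3 → Polynomial ℂ) 2 =
    -(1 + Polynomial.X) := rfl
  rw [h0, h1, h2, one_pow, one_mul, WC, W]
  have h3 : (algebraMap ℂ (Polynomial ℂ)) ((-1) ^ ((k - l.1) * d) * r) =
      (-1) ^ ((k - l.1) * d) * Polynomial.C r := by
    rw [Polynomial.algebraMap_eq, map_mul, map_pow, map_neg, map_one]
  rw [h3, neg_pow (1 + Polynomial.X : Polynomial ℂ)]
  simp only [Polynomial.map_mul, Polynomial.map_pow, Polynomial.map_add, Polynomial.map_one,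
    Polynomial.map_X]
  have h4 : ((-1 : Polynomial ℂ) ^ ((k - l.1) * d)) * (-1) ^ ((k - l.1) * d) = 1 := by
    rw [← mul_pow]; simp
  linear_combination (Polynomial.C r * Polynomial.X ^ (l.2.1 * d + l.2.2) *
    (1 + Polynomial.X) ^ ((k - l.1) * d)) * h4

/-- PIECE LinkS. Let `H` be homogeneous of degree `e + 1 = k d + u - 1`. `sub3 H` has degree
`< k d + u`, so it is `∑ α_l WC d k l` over `l = (i, j, m)`, `j ≤ i ≤ k`, `m < u`. Let
`K = ∑ ± α_l x_0^((i - j) d + (u - 1 - m)) x_1^(j d + m) x_2^((k - i) d)`, a form of degree `e + 1`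
in `powI 3 d k` with `sub3 K = sub3 H`; apply `sub3_ker` to `H - K`. -/
theorem surj_of_spans {d k u : ℕ} (hd : 2 ≤ d) (hk : 1 ≤ k) (hu : 1 ≤ u)
    (h : Spans d k u) : SurjP (powI 3 d k) (ell 3) (k * d + u - 2) 1 := by
  intro H hH
  have hkd : 2 ≤ k * d := le_trans (by omega) (Nat.mul_le_mul hk hd)
  have hdeg := sub3_degree hH
  have he : k * d + u - 2 + 1 + 1 = k * d + u := by omega
  rw [he] at hdeg
  obtain ⟨α, hα⟩ := h (sub3 H) hdeg
  set K : MvPolynomial (Fin 3) ℂ :=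
    ∑ l ∈ Lb k u, MvPolynomial.monomial (ex d k u l) ((-1) ^ ((k - l.1) * d) * α l) with hK
  have hKs : sub3 K = sub3 H := by
    rw [hK, map_sum, ← hα]
    exact Finset.sum_congr rfl fun l _ => sub3_ex d k u l (α l)
  have hKh : K.IsHomogeneous (k * d + u - 2 + 1) := by
    rw [hK]
    refine MvPolynomial.IsHomogeneous.sum _ _ _ fun l hl => ?_
    apply MvPolynomial.isHomogeneous_monomial
    rw [Finsupp.degree_eq_sum, ex_sum hl]
    omega
  have hKm : K ∈ powI 3 d k := by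
    rw [hK]
    refine Ideal.sum_mem _ fun l hl => ?_
    rw [mem_powI_iff (by omega)]
    intro m hm
    have h1 : m = ex d k u l := by
      have := MvPolynomial.support_monomial_subset hm
      simpa using this
    rw [h1]
    exact ex_floor hd hl
  obtain ⟨g, hg, hgH⟩ := sub3_ker (f := H - K) (hH.sub hKh) (by rw [map_sub, hKs, sub_self])
  refine ⟨g, hg, ?_⟩
  have h2 : H - ell 3 ^ 1 * g = K := by
    rw [pow_one, ← hgH]; ring
  rw [h2]
  exact hKm

end Pool.Agent.Lib_MP_8b82cd_t
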