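import Mathlib
import Pool.Agent.Lib_MP_8b82cd_ag.Transfer
import Pool.Agent.Lib_MP_8b82cd_ag.Sporadic2
import Pool.Agent.Lib_MP_8b82cd_w.A2
import Pool.Agent.Lib_MP_8b82cd_t.Inst
import Pool.Agent.Lib_MP_8b82cd_t.LinkI
import Pool.Agent.Lib_MP_8b82cd_t.LinkS

/-! The weak Lefschetz property of `T_{3,d,k}`. -/

namespace Pool.Agent.Lib_MP_8b82cd_t

open Finset Pool.Agent.Lib_MP_8b82cd_ag Pool.Agent.Lib_MP_8b82cd_ag.Lefschetz

/-- surjectivity on monomials is enough -/
private theorem surj_of_mono {J : Ideal (MvPolynomial (Fin 3) ℂ)}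
    {L : MvPolynomial (Fin 3) ℂ} {i : ℕ}
    (h : ∀ (m : Fin 3 →₀ ℕ) (c : ℂ), ∑ j, m j = i + 1 →
      ∃ f : MvPolynomial (Fin 3) ℂ, f.IsHomogeneous i ∧
        MvPolynomial.monomial m c - L ^ 1 * f ∈ J) : SurjP J L i 1 := by
  intro g hg
  have h1 := isHomogeneous_iff.mp hg
  have h2 : ∀ m : Fin 3 →₀ ℕ, ∃ f : MvPolynomial (Fin 3) ℂ, f.IsHomogeneous i ∧
      MvPolynomial.monomial m (MvPolynomial.coeff m g) - L ^ 1 * f ∈ J := by
    intro m
    by_cases hm : MvPolynomial.coeff m g = 0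
    · refine ⟨0, MvPolynomial.isHomogeneous_zero _ _ _, ?_⟩
      rw [hm]
      simp
    · exact h m _ (h1 m hm)
  choose F hF1 hF2 using h2
  refine ⟨∑ m ∈ g.support, F m, MvPolynomial.IsHomogeneous.sum _ _ _ fun m _ => hF1 m, ?_⟩
  have h3 : g - L ^ 1 * ∑ m ∈ g.support, F m =
      ∑ m ∈ g.support, (MvPolynomial.monomial m (MvPolynomial.coeff m g) - L ^ 1 * F m) := by
    rw [Finset.sum_sub_distrib, Finset.mul_sum, ← g.as_sum]
  rw [h3]
  exact Ideal.sum_mem _ fun m _ => hF2 m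

/-- surjectivity in degree `e` gives surjectivity in all degrees `i ≥ e` -/
theorem surj_up {d k e i : ℕ} (hei : e ≤ i) (h : SurjP (powI 3 d k) (ell 3) e 1) :
    SurjP (powI 3 d k) (ell 3) i 1 := by
  induction i, hei using Nat.le_induction with
  | base => exact h
  | succ i _ ih =>
    apply surj_of_mono
    intro m c hm
    obtain ⟨j, -, hj⟩ := Finset.exists_ne_zero_of_sum_ne_zero
      (show ∑ j, m j ≠ 0 by omega)
    obtain ⟨m', rfl⟩ : ∃ m' : Fin 3 →₀ ℕ, m = Finsupp.single j 1 + m' := by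
      refine ⟨m - Finsupp.single j 1, ?_⟩
      rw [add_tsub_cancel_of_le]
      rw [Finsupp.single_le_iff]
      omega
    have hm' : ∑ a, m' a = i + 1 := by
      have h1 : ∑ a, (Finsupp.single j 1 + m' : Fin 3 →₀ ℕ) a = 1 + ∑ a, m' a := by
        simp only [Finsupp.add_apply]
        rw [Finset.sum_add_distrib]
        congr 1
        simp [Finsupp.single_apply]
      omega
    have hh : (MvPolynomial.monomial m' c : MvPolynomial (Fin 3) ℂ).IsHomogeneous (i + 1) := by
      apply MvPolynomial.isHomogeneous_monomial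
      rw [Finsupp.degree_eq_sum]
      exact hm'
    obtain ⟨f, hf1, hf2⟩ := ih _ hh
    refine ⟨MvPolynomial.X j * f, ?_, ?_⟩
    · have := (MvPolynomial.isHomogeneous_X ℂ j).mul hf1
      rwa [add_comm] at this
    · have h2 : (MvPolynomial.monomial (Finsupp.single j 1 + m') c : MvPolynomial (Fin 3) ℂ) -
          ell 3 ^ 1 * (MvPolynomial.X j * f) =
          MvPolynomial.X j * (MvPolynomial.monomial m' c - ell 3 ^ 1 * f) := by
        have h3 : (MvPolynomial.monomial (Finsupp.single j 1 + m') c : MvPolynomial (Fin 3) ℂ) =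
            MvPolynomial.X j * MvPolynomial.monomial m' c := by
          rw [MvPolynomial.X, MvPolynomial.monomial_mul, one_mul]
        rw [h3]
        ring
      rw [h2]
      exact Ideal.mul_mem_left _ _ hf2

/-- from `hasWLP_iff`, `Lib_MP_8b82cd_w.inj_below`, `surj_up` -/
theorem wlp_of_inj_surj {d k e : ℕ} (hd : 2 ≤ d) (hk : 1 ≤ k)
    (he : e ≤ 3 * (d - 1) + d * (k - 1))
    (hI : InjP (powI 3 d k) (ell 3) e 1) (hS : SurjP (powI 3 d k) (ell 3) (e + 1) 1) :
    HasWLP 3 d k := by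
  rw [hasWLP_iff]
  intro i
  rcases Nat.lt_or_ge e i with h | h
  · exact Or.inr (surj_up h hS)
  · left
    obtain ⟨D, rfl⟩ : ∃ D, d = D + 1 := ⟨d - 1, by omega⟩
    exact Lib_MP_8b82cd_w.inj_below (by norm_num) hk h he hI

/-- PIECE Fin3. Let `t = 2 d - u (k + 3)`, `u` odd. For `t ≥ k - 1`: `indep_odd` for `u` and
`spans_even` for `u + 1`. For `t ≤ -(k - 1)`: `indep_even` for `u - 1` (for `u = 1` injectivity in
degree `k d - 2` is trivial, `inj_low`) and `spans_odd` for `u`. -/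
theorem wlp_three {d k u : ℕ} (hd : 2 ≤ d) (hk : 1 ≤ k) (hu : Odd u)
    (h : (u * (k + 3) + (k - 1) ≤ 2 * d ∧ 2 * d ≤ (u + 1) * (k + 3)) ∨
      (2 * d + (k - 1) ≤ u * (k + 3) ∧ (u - 1) * (k + 3) ≤ 2 * d)) :
    HasWLP 3 d k := by
  obtain ⟨k, rfl⟩ : ∃ k', k = k' + 1 := ⟨k - 1, by omega⟩
  obtain ⟨v, rfl⟩ := hu
  have hdk : d * (k + 1 - 1) = k * d := by
    rw [Nat.add_sub_cancel, mul_comm]
  have hkd : (k + 1) * d = k * d + d := by ring
  rcases h with ⟨h1, h2⟩ | ⟨h1, h2⟩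
  · have hud : 2 * v + 1 + 1 ≤ d := by nlinarith
    have hw : (v + 1) * (k + 1 + 3) ≤ d + 2 := by
      have h3 : 2 * ((v + 1) * (k + 1 + 3)) = (2 * v + 1) * (k + 1 + 3) + (k + 1 + 3) := by ring
      omega
    have hI : Indep d (k + 1) (2 * v + 1) := by
      have := indep_odd hk (by omega : 1 ≤ v + 1) hw
      rwa [show 2 * (v + 1) - 1 = 2 * v + 1 by omega] at this
    have hS : Spans d (k + 1) (2 * v + 1 + 1) :=
      spans_even hk hud ⟨v + 1, by ring⟩ h2
    apply wlp_of_inj_surj hd hk (e := (k + 1) * d + (2 * v + 1) - 2) (by omega)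
    · exact inj_of_indep hd hk (by omega) (by omega) hI
    · have := surj_of_spans hd hk (by omega) hS
      rwa [show (k + 1) * d + (2 * v + 1 + 1) - 2 = (k + 1) * d + (2 * v + 1) - 2 + 1 by omega]
        at this
  · rw [Nat.add_sub_cancel] at h2
    have hud : 2 * v + 1 ≤ d := by
      rcases Nat.eq_zero_or_pos v with rfl | hv
      · omega
      · nlinarith
    have hw : v * (k + 1 + 3) ≤ d := by
      have h3 : 2 * (v * (k + 1 + 3)) = (2 * v) * (k + 1 + 3) := by ring
      omega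
    have hS : Spans d (k + 1) (2 * v + 1) := spans_odd hk hud ⟨v, rfl⟩ h1
    apply wlp_of_inj_surj hd hk (e := (k + 1) * d + 2 * v - 2) (by omega)
    · rcases Nat.eq_zero_or_pos v with rfl | hv
      · apply inj_low (by norm_num) (by omega)
        rw [mul_comm d]
        omega
      · exact inj_of_indep hd hk (by omega) (by omega) (indep_even hk hw)
    · have := surj_of_spans hd hk (by omega) hS
      rwa [show (k + 1) * d + (2 * v + 1) - 2 = (k + 1) * d + 2 * v - 2 + 1 by omega] at this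

end Pool.Agent.Lib_MP_8b82cd_t
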