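import Pool.Agent.Lib_MP_8b82cd_t.Diff
import Pool.Agent.Lib_MP_8b82cd_ag.Sporadic

/-!
# Three variables: multiplication by `x + y + z` on symmetric and alternating functions
-/

namespace Pool.Agent.Lib_MP_8b82cd_t

open Finset MvPolynomial Pool.Agent.Lib_MP_8b82cd_ag

/-- multiplication by `x + y + z` on coefficients -/
def Lop (f : ℕ → ℕ → ℕ → ℂ) (a b c : ℕ) : ℂ :=
  (if a = 0 then 0 else f (a - 1) b c) + (if b = 0 then 0 else f a (b - 1) c) +
    (if c = 0 then 0 else f a b (c - 1))

/-- the coefficients in the standard monomials determine a form -/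
noncomputable def poly (d k m : ℕ) (f : ℕ → ℕ → ℕ → ℂ) : MvPolynomial (Fin 3) ℂ :=
  ∑ x ∈ Std d k m, monomial (mk3 x.1 x.2.1 x.2.2) (f x.1 x.2.1 x.2.2)

theorem mk3_inj {a b c a' b' c' : ℕ} (h : mk3 a b c = mk3 a' b' c') : a = a' ∧ b = b' ∧ c = c' := by
  refine ⟨?_, ?_, ?_⟩
  · have := DFunLike.congr_fun h 0
    rwa [mk3_zero, mk3_zero] at this
  · have := DFunLike.congr_fun h 1
    rwa [mk3_one, mk3_one] at this
  · have := DFunLike.congr_fun h 2
    rwa [mk3_two, mk3_two] at this

theorem coeff_poly (d k m : ℕ) (f : ℕ → ℕ → ℕ → ℂ) (a b c : ℕ) :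
    coeff (mk3 a b c) (poly d k m f) = if (a, b, c) ∈ Std d k m then f a b c else 0 := by
  classical
  unfold poly
  rw [coeff_sum]
  simp only [coeff_monomial]
  split_ifs with h
  · rw [sum_eq_single (a, b, c)]
    · rw [if_pos rfl]
    · rintro ⟨a', b', c'⟩ _ hne
      rw [if_neg]
      intro he
      apply hne
      obtain ⟨h1, h2, h3⟩ := mk3_inj he
      dsimp only at h1 h2 h3
      rw [h1, h2, h3]
    · intro h1
      exact absurd h h1
  · apply sum_eq_zero
    rintro ⟨a', b', c'⟩ h1
    rw [if_neg]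
    intro he
    apply h
    obtain ⟨h2, h3, h4⟩ := mk3_inj he
    dsimp only at h2 h3 h4
    rw [← h2, ← h3, ← h4]
    exact h1

theorem poly_hom (d k m : ℕ) (f : ℕ → ℕ → ℕ → ℂ) : (poly d k m f).IsHomogeneous m := by
  rw [isHomogeneous_iff]
  intro x hx
  rw [mk3_eta x, coeff_poly] at hx
  have h1 : (x 0, x 1, x 2) ∈ Std d k m := by
    by_contra h
    rw [if_neg h] at hx
    exact hx rfl
  rw [mem_Std] at h1
  rw [Fin.sum_univ_three]
  exact h1.1

theorem lower_mem {d k m a b c : ℕ} (h : (a, b, c) ∈ Std d k (m + 1)) (ha : a ≠ 0) :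
    (a - 1, b, c) ∈ Std d k m := by
  rw [mem_Std] at h ⊢
  have h1 : (a - 1) / d ≤ a / d := Nat.div_le_div_right (by omega)
  dsimp only at h ⊢
  omega

theorem perm12 {d k m a b c : ℕ} (h : (a, b, c) ∈ Std d k m) : (b, a, c) ∈ Std d k m := by
  rw [mem_Std] at h ⊢
  dsimp only at h ⊢
  omega

theorem perm23 {d k m a b c : ℕ} (h : (a, b, c) ∈ Std d k m) : (a, c, b) ∈ Std d k m := by
  rw [mem_Std] at h ⊢
  dsimp only at h ⊢
  omega

/-- on standard monomials only the values at standard monomials matter -/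
theorem Lop_congr {d k m : ℕ} {f g : ℕ → ℕ → ℕ → ℂ}
    (h : ∀ a b c, (a, b, c) ∈ Std d k m → f a b c = g a b c) {a b c : ℕ}
    (habc : (a, b, c) ∈ Std d k (m + 1)) : Lop f a b c = Lop g a b c := by
  unfold Lop
  have h1 : (if a = 0 then 0 else f (a - 1) b c) = (if a = 0 then 0 else g (a - 1) b c) := by
    split_ifs with h0
    · rfl
    · exact h _ _ _ (lower_mem habc h0)
  have h2 : (if b = 0 then 0 else f a (b - 1) c) = (if b = 0 then 0 else g a (b - 1) c) := by
    split_ifs with h0
    · rfl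
    · exact h _ _ _ (perm12 (lower_mem (perm12 habc) h0))
  have h3 : (if c = 0 then 0 else f a b (c - 1)) = (if c = 0 then 0 else g a b (c - 1)) := by
    split_ifs with h0
    · rfl
    · exact h _ _ _ (perm23 (perm12 (lower_mem (perm12 (perm23 habc)) h0)))
  rw [h1, h2, h3]

theorem inj_fun {d k m : ℕ} (hd : 0 < d) (hI : InjP (powI 3 d k) (ell 3) m 1)
    (f : ℕ → ℕ → ℕ → ℂ) (h : ∀ a b c, (a, b, c) ∈ Std d k (m + 1) → Lop f a b c = 0) :
    ∀ a b c, (a, b, c) ∈ Std d k m → f a b c = 0 := by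
  intro a b c habc
  have h1 : ell 3 ^ 1 * poly d k m f ∈ powI 3 d k := by
    rw [mem_powI_iff hd]
    intro x hx
    by_contra hlt
    rw [mem_support_iff] at hx
    have h2 := isHomogeneous_iff.mp (ell_pow_mul_isHomogeneous (poly_hom d k m f) 1) x hx
    rw [Fin.sum_univ_three] at h2 hlt
    have h3 : (x 0, x 1, x 2) ∈ Std d k (m + 1) := by
      rw [mem_Std]
      exact ⟨h2, by dsimp only; omega⟩
    apply hx
    rw [pow_one, mk3_eta x, coeff_ell3, coeff_poly, coeff_poly, coeff_poly]
    have h4 := h _ _ _ h3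
    rw [← Lop_congr (m := m) (f := fun a b c => if (a, b, c) ∈ Std d k m then f a b c else 0)
      (g := f) (fun a b c h => if_pos h) h3] at h4
    exact h4
  have h5 := hI _ (poly_hom d k m f) h1
  rw [mem_powI_iff hd] at h5
  by_contra hne
  have h6 : mk3 a b c ∈ (poly d k m f).support := by
    rw [mem_support_iff, coeff_poly, if_pos habc]
    exact hne
  have h7 := h5 _ h6
  rw [Fin.sum_univ_three, mk3_zero, mk3_one, mk3_two] at h7
  rw [mem_Std] at habc
  dsimp only at habc
  omega

theorem surj_fun {d k m : ℕ} (hd : 0 < d) (hS : SurjP (powI 3 d k) (ell 3) m 1)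
    (h : ℕ → ℕ → ℕ → ℂ) : ∃ f : ℕ → ℕ → ℕ → ℂ,
      ∀ a b c, (a, b, c) ∈ Std d k (m + 1) → Lop f a b c = h a b c := by
  obtain ⟨F, -, hF⟩ := hS _ (poly_hom d k (m + 1) h)
  refine ⟨fun a b c => coeff (mk3 a b c) F, ?_⟩
  intro a b c habc
  rw [mem_powI_iff hd] at hF
  have h1 : coeff (mk3 a b c) (poly d k (m + 1) h - ell 3 ^ 1 * F) = 0 := by
    by_contra hne
    have h7 := hF _ (mem_support_iff.mpr hne)
    rw [Fin.sum_univ_three, mk3_zero, mk3_one, mk3_two] at h7
    rw [mem_Std] at habc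
    dsimp only at habc
    omega
  rw [coeff_sub, coeff_poly, if_pos habc, pow_one, coeff_ell3, sub_eq_zero] at h1
  exact h1.symm

/-! ### the symmetric part -/

/-- the exponents in decreasing order -/
def so (a b c : ℕ) : ℕ × ℕ × ℕ :=
  (max a (max b c), a + b + c - max a (max b c) - min a (min b c), min a (min b c))

theorem so_12 (a b c : ℕ) : so b a c = so a b c := by
  unfold so
  refine Prod.ext ?_ (Prod.ext ?_ ?_) <;> dsimp only <;> omega

theorem so_23 (a b c : ℕ) : so a c b = so a b c := by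
  unfold so
  refine Prod.ext ?_ (Prod.ext ?_ ?_) <;> dsimp only <;> omega

theorem so_self {a b c : ℕ} (h1 : c ≤ b) (h2 : b ≤ a) : so a b c = (a, b, c) := by
  unfold so
  refine Prod.ext ?_ (Prod.ext ?_ ?_) <;> dsimp only <;> omega

/-- symmetric extension -/
def exS (s : Finset (ℕ × ℕ × ℕ)) (g : s → ℂ) (a b c : ℕ) : ℂ :=
  if h : so a b c ∈ s then g ⟨so a b c, h⟩ else 0

theorem Lop_symm12 {F : ℕ → ℕ → ℕ → ℂ} (h12 : ∀ a b c, F b a c = F a b c) (a b c : ℕ) :
    Lop F b a c = Lop F a b c := by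
  unfold Lop
  rw [h12 a (b - 1) c, h12 (a - 1) b c, h12 a b (c - 1)]
  ring

theorem Lop_symm23 {F : ℕ → ℕ → ℕ → ℂ} (h23 : ∀ a b c, F a c b = F a b c) (a b c : ℕ) :
    Lop F a c b = Lop F a b c := by
  unfold Lop
  rw [h23 (a - 1) b c, h23 a b (c - 1), h23 a (b - 1) c]
  ring

/-- `F ↦ (x + y + z) F` on symmetric functions -/
def PhiS (s t : Finset (ℕ × ℕ × ℕ)) : (s → ℂ) →ₗ[ℂ] (t → ℂ) where
  toFun g x := Lop (exS s g) x.1.1 x.1.2.1 x.1.2.2
  map_add' g g' := by
    funext x
    simp only [Lop, exS, Pi.add_apply]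
    split_ifs <;> ring
  map_smul' r g := by
    funext x
    simp only [Lop, exS, Pi.smul_apply, smul_eq_mul, RingHom.id_apply]
    split_ifs <;> ring

theorem not_injP {d k m : ℕ} (hd : 0 < d) (h : (srt d k (m + 1)).card < (srt d k m).card) :
    ¬ InjP (powI 3 d k) (ell 3) m 1 := by
  intro hI
  have h1 : LinearMap.ker (PhiS (srt d k m) (srt d k (m + 1))) ≠ ⊥ := by
    apply LinearMap.ker_ne_bot_of_finrank_lt
    rw [Module.finrank_fintype_fun_eq_card, Module.finrank_fintype_fun_eq_card,
      Fintype.card_coe, Fintype.card_coe]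
    exact h
  obtain ⟨g, hg, hg0⟩ := Submodule.exists_mem_ne_zero_of_ne_bot h1
  rw [LinearMap.mem_ker] at hg
  apply hg0
  funext x
  obtain ⟨⟨a, b, c⟩, hx⟩ := x
  have hx' := hx
  unfold srt at hx'
  rw [mem_filter] at hx'
  obtain ⟨hx1, hx2, hx3⟩ := hx'
  dsimp only at hx2 hx3
  have h12 : ∀ a b c, exS (srt d k m) g b a c = exS (srt d k m) g a b c := by
    intro a b c
    simp only [exS, so_12]
  have h23 : ∀ a b c, exS (srt d k m) g a c b = exS (srt d k m) g a b c := by
    intro a b c
    simp only [exS, so_23]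
  have h3 : ∀ a b c, (a, b, c) ∈ Std d k (m + 1) → c ≤ b → b ≤ a →
      Lop (exS (srt d k m) g) a b c = 0 := by
    intro a b c habc h4 h5
    have h6 : (a, b, c) ∈ srt d k (m + 1) := by
      unfold srt
      rw [mem_filter]
      exact ⟨habc, h4, h5⟩
    exact congrFun hg ⟨(a, b, c), h6⟩
  have h4 : ∀ a b c, (a, b, c) ∈ Std d k (m + 1) → Lop (exS (srt d k m) g) a b c = 0 := by
    intro a b c habc
    rcases le_total a b with hab | hab
    · rcases le_total b c with hbc | hbc
      · -- `a ≤ b ≤ c`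
        rw [← Lop_symm12 h12, ← Lop_symm23 h23, ← Lop_symm12 h12]
        exact h3 _ _ _ (perm12 (perm23 (perm12 habc))) hab hbc
      · rcases le_total a c with hac | hac
        · -- `a ≤ c ≤ b`
          rw [← Lop_symm12 h12, ← Lop_symm23 h23]
          exact h3 _ _ _ (perm23 (perm12 habc)) hac hbc
        · -- `c ≤ a ≤ b`
          rw [← Lop_symm12 h12]
          exact h3 _ _ _ (perm12 habc) hac hab
    · rcases le_total b c with hbc | hbc
      · rcases le_total a c with hac | hac
        · -- `b ≤ a ≤ c`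
          rw [← Lop_symm23 h23, ← Lop_symm12 h12]
          exact h3 _ _ _ (perm12 (perm23 habc)) hab hac
        · -- `b ≤ c ≤ a`
          rw [← Lop_symm23 h23]
          exact h3 _ _ _ (perm23 habc) hbc hac
      · exact h3 _ _ _ habc hbc hab
  have h5 := inj_fun hd hI (exS (srt d k m) g) h4 a b c hx1
  have h6 : so a b c = (a, b, c) := so_self hx2 hx3
  have h7 : so a b c ∈ srt d k m := by rw [h6]; exact hx
  unfold exS at h5
  rw [dif_pos h7] at h5
  have h8 : (⟨so a b c, h7⟩ : (srt d k m)) = ⟨(a, b, c), hx⟩ := Subtype.ext h6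
  rw [h8] at h5
  exact h5

/-! ### the alternating part -/

/-- alternating sum over the permutations -/
def Alt (f : ℕ → ℕ → ℕ → ℂ) (a b c : ℕ) : ℂ :=
  f a b c - f b a c - f a c b - f c b a + f b c a + f c a b

theorem Alt_12 (f : ℕ → ℕ → ℕ → ℂ) (a b c : ℕ) : Alt f b a c = - Alt f a b c := by
  unfold Alt
  ring

theorem Alt_23 (f : ℕ → ℕ → ℕ → ℂ) (a b c : ℕ) : Alt f a c b = - Alt f a b c := by
  unfold Alt
  ring

theorem Alt_Alt (f : ℕ → ℕ → ℕ → ℂ) (a b c : ℕ) : Alt (Alt f) a b c = 6 * Alt f a b c := by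
  unfold Alt
  ring

theorem Lop_Alt (f : ℕ → ℕ → ℕ → ℂ) (a b c : ℕ) : Lop (Alt f) a b c = Alt (Lop f) a b c := by
  simp only [Lop, Alt]
  by_cases ha : a = 0
  · by_cases hb : b = 0
    · by_cases hc : c = 0
      · simp only [if_pos ha, if_pos hb, if_pos hc]
        ring
      · simp only [if_pos ha, if_pos hb, if_neg hc]
        ring
    · by_cases hc : c = 0
      · simp only [if_pos ha, if_neg hb, if_pos hc]
        ring
      · simp only [if_pos ha, if_neg hb, if_neg hc]
        ring
  · by_cases hb : b = 0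
    · by_cases hc : c = 0
      · simp only [if_neg ha, if_pos hb, if_pos hc]
        ring
      · simp only [if_neg ha, if_pos hb, if_neg hc]
        ring
    · by_cases hc : c = 0
      · simp only [if_neg ha, if_neg hb, if_pos hc]
        ring
      · simp only [if_neg ha, if_neg hb, if_neg hc]
        ring

theorem Lop_smul (r : ℂ) (f : ℕ → ℕ → ℕ → ℂ) (a b c : ℕ) :
    Lop (fun a b c => r * f a b c) a b c = r * Lop f a b c := by
  unfold Lop
  split_ifs <;> ring

/-- extension by zero -/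
def ex0 (s : Finset (ℕ × ℕ × ℕ)) (g : s → ℂ) (a b c : ℕ) : ℂ :=
  if h : (a, b, c) ∈ s then g ⟨(a, b, c), h⟩ else 0

/-- `F ↦ (x + y + z) F` on alternating functions -/
def PhiA (s t : Finset (ℕ × ℕ × ℕ)) : (s → ℂ) →ₗ[ℂ] (t → ℂ) where
  toFun g x := Lop (Alt (ex0 s g)) x.1.1 x.1.2.1 x.1.2.2
  map_add' g g' := by
    have h : ∀ a b c, ex0 s (g + g') a b c = ex0 s g a b c + ex0 s g' a b c := by
      intro a b c
      simp only [ex0, Pi.add_apply]
      split_ifs <;> ring
    funext x
    simp only [Lop, Alt, h, Pi.add_apply]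
    split_ifs <;> ring
  map_smul' r g := by
    have h : ∀ a b c, ex0 s (r • g) a b c = r * ex0 s g a b c := by
      intro a b c
      simp only [ex0, Pi.smul_apply, smul_eq_mul]
      split_ifs <;> ring
    funext x
    simp only [Lop, Alt, h, Pi.smul_apply, smul_eq_mul, RingHom.id_apply]
    split_ifs <;> ring

theorem mem_sst {d k m a b c : ℕ} : (a, b, c) ∈ sst d k m ↔ (a, b, c) ∈ Std d k m ∧ c < b ∧ b < a := by
  unfold sst
  rw [mem_filter]

/-- an alternating function is the alternating sum of its restriction to decreasing exponents -/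
theorem Alt_restrict {d k m : ℕ} {G : ℕ → ℕ → ℕ → ℂ} (h12 : ∀ a b c, G b a c = - G a b c)
    (h23 : ∀ a b c, G a c b = - G a b c) {a b c : ℕ} (h : (a, b, c) ∈ Std d k m) :
    Alt (ex0 (sst d k m) (fun x => G x.1.1 x.1.2.1 x.1.2.2)) a b c = G a b c := by
  have p1 := perm12 h
  have p2 := perm23 h
  have p3 := perm23 p1
  have p4 := perm12 p2
  have p5 := perm12 p3
  have e : ∀ a b c, (a, b, c) ∈ Std d k m → ex0 (sst d k m) (fun x => G x.1.1 x.1.2.1 x.1.2.2) a b c =
      if c < b ∧ b < a then G a b c else 0 := by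
    intro a b c habc
    unfold ex0
    by_cases h1 : c < b ∧ b < a
    · rw [dif_pos (mem_sst.mpr ⟨habc, h1⟩), if_pos h1]
    · rw [dif_neg (fun h2 => h1 (mem_sst.mp h2).2), if_neg h1]
  unfold Alt
  rw [e _ _ _ h, e _ _ _ p1, e _ _ _ p2, e _ _ _ p3, e _ _ _ p4, e _ _ _ p5]
  have z12 : ∀ a c, G a a c = 0 := fun a c => by
    have := h12 a a c
    linear_combination this / 2
  have z23 : ∀ a b, G a b b = 0 := fun a b => by
    have := h23 a b b
    linear_combination this / 2
  have g1 := h12 a b c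
  have g2 := h23 a b c
  have g3 : G b c a = G a b c := by rw [h23, h12]; ring
  have g4 : G c a b = G a b c := by rw [h12, h23]; ring
  have g5 : G c b a = - G a b c := by rw [h12, g3]
  have z13 : a = c → G a b c = 0 := by
    rintro rfl
    have := z23 b a
    rw [h12] at this
    linear_combination - this
  by_cases ht : a = b ∨ b = c ∨ a = c
  · have hz : G a b c = 0 := by
      rcases ht with ht | ht | ht
      · rw [ht]
        exact z12 b c
      · rw [ht]
        exact z23 a c
      · exact z13 ht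
    rw [g1, g2, g3, g4, g5, hz]
    simp
  · by_cases c1 : c < b ∧ b < a
    · rw [if_pos c1, if_neg (by omega), if_neg (by omega), if_neg (by omega), if_neg (by omega),
        if_neg (by omega)]
      ring
    · by_cases c2 : c < a ∧ a < b
      · rw [if_neg c1, if_pos c2, if_neg (by omega), if_neg (by omega), if_neg (by omega),
          if_neg (by omega), g1]
        ring
      · by_cases c3 : b < c ∧ c < a
        · rw [if_neg c1, if_neg c2, if_pos c3, if_neg (by omega), if_neg (by omega),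
            if_neg (by omega), g2]
          ring
        · by_cases c4 : a < b ∧ b < c
          · rw [if_neg c1, if_neg c2, if_neg c3, if_pos c4, if_neg (by omega),
              if_neg (by omega), g5]
            ring
          · by_cases c5 : a < c ∧ c < b
            · rw [if_neg c1, if_neg c2, if_neg c3, if_neg c4, if_pos c5, if_neg (by omega), g3]
              ring
            · rw [if_neg c1, if_neg c2, if_neg c3, if_neg c4, if_neg c5, if_pos (by omega), g4]
              ring

theorem not_surjP {d k m : ℕ} (hd : 0 < d) (h : (sst d k m).card < (sst d k (m + 1)).card) :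
    ¬ SurjP (powI 3 d k) (ell 3) m 1 := by
  intro hS
  have h1 : Function.Surjective (PhiA (sst d k m) (sst d k (m + 1))) := by
    intro h'
    obtain ⟨f, hf⟩ := surj_fun hd hS (Alt (ex0 (sst d k (m + 1)) h'))
    refine ⟨fun x => (1 / 6 : ℂ) * Alt f x.1.1 x.1.2.1 x.1.2.2, ?_⟩
    funext x
    obtain ⟨⟨a, b, c⟩, hx⟩ := x
    obtain ⟨hx1, hx2, hx3⟩ := mem_sst.mp hx
    show Lop (Alt (ex0 (sst d k m) (fun x => (1 / 6 : ℂ) * Alt f x.1.1 x.1.2.1 x.1.2.2))) a b c =
      h' ⟨(a, b, c), hx⟩
    rw [Lop_congr (g := fun a b c => (1 / 6 : ℂ) * Alt f a b c) (fun a b c habc =>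
      Alt_restrict (G := fun a b c => (1 / 6 : ℂ) * Alt f a b c)
        (fun a b c => by rw [Alt_12]; ring) (fun a b c => by rw [Alt_23]; ring) habc) hx1,
      Lop_smul, Lop_Alt]
    have p1 := perm12 hx1
    have p2 := perm23 hx1
    have p3 := perm23 p1
    have p4 := perm12 p2
    have p5 := perm12 p3
    have e1 : Alt (Lop f) a b c = Alt (Alt (ex0 (sst d k (m + 1)) h')) a b c := by
      have e : ∀ F : ℕ → ℕ → ℕ → ℂ, Alt F a b c =
        F a b c - F b a c - F a c b - F c b a + F b c a + F c a b := fun F => rfl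
      rw [e (Lop f), e (Alt (ex0 (sst d k (m + 1)) h')), hf _ _ _ hx1, hf _ _ _ p1, hf _ _ _ p2,
        hf _ _ _ p3, hf _ _ _ p4, hf _ _ _ p5]
    have e2 : Alt (ex0 (sst d k (m + 1)) h') a b c = h' ⟨(a, b, c), hx⟩ := by
      have n1 : (b, a, c) ∉ sst d k (m + 1) := fun hh => by
        have := (mem_sst.mp hh).2
        omega
      have n2 : (a, c, b) ∉ sst d k (m + 1) := fun hh => by
        have := (mem_sst.mp hh).2
        omega
      have n3 : (c, b, a) ∉ sst d k (m + 1) := fun hh => by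
        have := (mem_sst.mp hh).2
        omega
      have n4 : (b, c, a) ∉ sst d k (m + 1) := fun hh => by
        have := (mem_sst.mp hh).2
        omega
      have n5 : (c, a, b) ∉ sst d k (m + 1) := fun hh => by
        have := (mem_sst.mp hh).2
        omega
      simp only [Alt, ex0, dif_pos hx, dif_neg n1, dif_neg n2, dif_neg n3, dif_neg n4, dif_neg n5]
      ring
    rw [e1, Alt_Alt, e2]
    ring
  have h2 := LinearMap.finrank_le_finrank_of_surjective h1
  rw [Module.finrank_fintype_fun_eq_card, Module.finrank_fintype_fun_eq_card,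
      Fintype.card_coe, Fintype.card_coe] at h2
  omega

end Pool.Agent.Lib_MP_8b82cd_t
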