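import Mathlib
import Pool.Agent.Lib_MP_8b82cd_t.Fin3
import Pool.Agent.Lib_MP_8b82cd_t.Sym

/-!
# Three variables: the results in terms of the remainder of `d` modulo `k + 3`
-/

namespace Pool.Agent.Lib_MP_8b82cd_t

open Finset Pool.Agent.Lib_MP_8b82cd_ag Pool.Agent.Lib_MP_8b82cd_ag.Lefschetz

/-- maximal rank in every degree but one -/
theorem maxRank_of_ne {d k : ℕ} (hd : 1 ≤ d) (hk : 1 ≤ k) {i : ℕ}
    (hi : i + 1 ≠ d * k + 2 * (d / (k + 3))) :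
    InjP (powI 3 d k) (ell 3) i 1 ∨ SurjP (powI 3 d k) (ell 3) i 1 := by
  rcases Nat.eq_or_lt_of_le hd with h1 | h1
  · rw [← h1]
    exact d_one_all (by norm_num) i 1
  have hd2 : 2 ≤ d := h1
  obtain ⟨q, hq⟩ : ∃ q, q = d / (k + 3) := ⟨_, rfl⟩
  rw [← hq] at hi
  have hq1 : q * (k + 3) ≤ d := by rw [hq]; exact Nat.div_mul_le_self _ _
  have hq2 : d < (q + 1) * (k + 3) := by
    have := Nat.lt_div_mul_add (a := d) (b := k + 3) (by omega)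
    rw [← hq] at this
    rw [Nat.add_mul, Nat.one_mul]
    exact this
  have hq4 : q * 4 ≤ d := (Nat.mul_le_mul_left q (by omega)).trans hq1
  have hkd : k * d = d * k := Nat.mul_comm _ _
  have hdk : d ≤ d * k := Nat.le_mul_of_pos_right d hk
  rcases Nat.lt_or_ge (i + 1) (d * k + 2 * q) with h2 | h2
  · left
    rcases Nat.eq_zero_or_pos q with h0 | h0
    · exact inj_low (by norm_num) (by omega) (by omega)
    · obtain ⟨D, rfl⟩ : ∃ D, d = D + 1 := ⟨d - 1, by omega⟩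
      have h3 := inj_of_indep hd2 hk (by omega) (by omega) (indep_even hk hq1)
      refine Lib_MP_8b82cd_w.inj_below (by norm_num) hk (e := k * (D + 1) + 2 * q - 2) ?_ ?_ h3
      · omega
      · have h4 : (D + 1) * k = (D + 1) * (k - 1) + (D + 1) := by
          obtain ⟨K, rfl⟩ : ∃ K, k = K + 1 := ⟨k - 1, by omega⟩
          rw [Nat.add_sub_cancel]
          ring
        omega
  · right
    have hu : 2 * q + 2 ≤ d := by omega
    have hS : Spans d k (2 * q + 2) := spans_even hk hu ⟨q + 1, by ring⟩ (by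
      have : (2 * q + 2) * (k + 3) = 2 * ((q + 1) * (k + 3)) := by ring
      omega)
    have h3 := surj_of_spans hd2 hk (by omega) hS
    exact surj_up (by omega) h3

/-- the positive residues -/
theorem wlp_of_mod {d k : ℕ} (hd : 1 ≤ d) (hk : 1 ≤ k)
    (h : d % (k + 3) ≤ 2 ∨ k + 1 ≤ d % (k + 3)) : HasWLP 3 d k := by
  rcases Nat.eq_or_lt_of_le hd with h1 | h1
  · rw [← h1, hasWLP_iff]
    intro i
    exact d_one_all (by norm_num) i 1
  obtain ⟨q, hq⟩ : ∃ q, q = d / (k + 3) := ⟨_, rfl⟩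
  obtain ⟨r, hr⟩ : ∃ r, r = d % (k + 3) := ⟨_, rfl⟩
  have hdr : d = q * (k + 3) + r := by
    rw [hq, hr, Nat.mul_comm]
    exact (Nat.div_add_mod _ _).symm
  have hr3 : r < k + 3 := by rw [hr]; exact Nat.mod_lt _ (by omega)
  rw [← hr] at h
  have e1 : (2 * q + 1) * (k + 3) = 2 * (q * (k + 3)) + (k + 3) := by ring
  have e2 : (2 * q + 1 + 1) * (k + 3) = 2 * (q * (k + 3)) + 2 * (k + 3) := by ring
  have e3 : (2 * q + 1 - 1) * (k + 3) = 2 * (q * (k + 3)) := by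
    rw [Nat.add_sub_cancel]
    ring
  apply wlp_three h1 hk (u := 2 * q + 1) ⟨q, rfl⟩
  rw [e1, e2, e3]
  omega

/-- the negative residues -/
theorem not_wlp_of_mod {d k : ℕ} (hd : 1 ≤ d)
    (h : (Odd k ∧ 3 ≤ k ∧ 2 * (d % (k + 3)) = k + 3) ∨
      (Even k ∧ 4 ≤ k ∧ (2 * (d % (k + 3)) = k + 2 ∨ 2 * (d % (k + 3)) = k + 4)) ∨
      (Odd k ∧ 5 ≤ k ∧ k ≠ 7 ∧ (2 * (d % (k + 3)) = k + 1 ∨ 2 * (d % (k + 3)) = k + 5))) :
    ¬ HasWLP 3 d k := by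
  obtain ⟨q, hq⟩ : ∃ q, q = d / (k + 3) := ⟨_, rfl⟩
  obtain ⟨r, hr⟩ : ∃ r, r = d % (k + 3) := ⟨_, rfl⟩
  have hdr : d = q * (k + 3) + r := by
    rw [hq, hr, Nat.mul_comm]
    exact (Nat.div_add_mod _ _).symm
  rw [← hr] at h
  have e1 : (2 * q + 1) * (k + 3) = 2 * (q * (k + 3)) + (k + 3) := by ring
  have hk : 2 ≤ k := by omega
  have hu : Odd (2 * q + 1) := ⟨q, rfl⟩
  have h' : (Odd k ∧ 2 * d = (2 * q + 1) * (k + 3)) ∨
      (Even k ∧ 4 ≤ k ∧ (2 * d = (2 * q + 1) * (k + 3) + 1 ∨ 2 * d + 1 = (2 * q + 1) * (k + 3))) ∨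
      (Odd k ∧ 5 ≤ k ∧ k ≠ 7 ∧
        (2 * d = (2 * q + 1) * (k + 3) + 2 ∨ 2 * d + 2 = (2 * q + 1) * (k + 3))) := by
    rw [e1]
    rcases h with ⟨h1, h2, h3⟩ | ⟨h1, h2, h3⟩ | ⟨h1, h2, h3, h4⟩
    · exact Or.inl ⟨h1, by omega⟩
    · exact Or.inr (Or.inl ⟨h1, h2, by omega⟩)
    · exact Or.inr (Or.inr ⟨h1, h2, h3, by omega⟩)
  intro hW
  rw [hasWLP_iff] at hW
  obtain ⟨h1, h2⟩ := wrong_way hu hk h'
  obtain ⟨m, hm⟩ : ∃ m, d * k + (2 * q + 1) - 1 = m + 1 := by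
    have h3 : 1 * 2 ≤ d * k := Nat.mul_le_mul hd hk
    exact ⟨d * k + (2 * q + 1) - 1 - 1, by omega⟩
  have hm' : d * k + (2 * q + 1) - 1 - 1 = m := by omega
  rw [hm', hm] at h1 h2
  rcases hW m with h4 | h4
  · exact not_injP hd h1 h4
  · exact not_surjP hd h2 h4

end Pool.Agent.Lib_MP_8b82cd_t
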